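import Mathlib

/-!
# LJ-Siegel
Pigeonhole with bounded integral linear forms and with congruence conditions.
PROOF.  Box `{0..H}^ι`, `(H+1)^(card ι)` points; the map `c ↦ (ψ c, φ c)` has at most `(2B+1)^(card κ) * ∏ card (V p)` values on it; two points have the same value; difference.  (As `BB.siegel_primes'`, `BB/Siegel.lean`.)
-/

namespace MP_a3a416_nt.LJ

theorem siegel_mixed {ι κ : Type} [Fintype ι] [Fintype κ] (Ps : Finset ℕ) (H B : ℕ)
    (V : Ps → Type) [∀ p, AddCommGroup (V p)] [∀ p, Finite (V p)] (φ : ∀ p, (ι → ℤ) →+ V p)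
    (ψ : (ι → ℤ) →+ (κ → ℤ)) (hψ : ∀ c : ι → ℤ, (∀ i, |c i| ≤ (H : ℤ)) → ∀ k, |ψ c k| ≤ (B : ℤ))
    (hcard : (2 * B + 1) ^ Fintype.card κ * ∏ p : Ps, Nat.card (V p) < (H + 1) ^ Fintype.card ι) :
    ∃ c : ι → ℤ, c ≠ 0 ∧ (∀ i, |c i| ≤ (H : ℤ)) ∧ (∀ p : Ps, φ p c = 0) ∧ ψ c = 0 := by
  classical
  have hfin : ∀ p : Ps, Fintype (V p) := fun p => Fintype.ofFinite _
  have hbox : ∀ x : ι → Fin (H + 1), ∀ i, |(((x i : ℕ) : ℤ))| ≤ (H : ℤ) := by
    intro x i
    have h1 := (x i).2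
    rw [abs_le]
    constructor <;> omega
  have hb : ∀ x : ι → Fin (H + 1), ∀ k,
      -(B : ℤ) ≤ ψ (fun i => ((x i : ℕ) : ℤ)) k ∧ ψ (fun i => ((x i : ℕ) : ℤ)) k ≤ (B : ℤ) :=
    fun x k => abs_le.mp (hψ _ (hbox x) k)
  let f : (ι → Fin (H + 1)) → (κ → Fin (2 * B + 1)) × (∀ p : Ps, V p) := fun x =>
    (fun k => ⟨(ψ (fun i => ((x i : ℕ) : ℤ)) k + B).toNat, by
      have h1 := hb x k
      omega⟩, fun p => φ p (fun i => ((x i : ℕ) : ℤ)))
  have hc : Fintype.card ((κ → Fin (2 * B + 1)) × (∀ p : Ps, V p)) <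
      Fintype.card (ι → Fin (H + 1)) := by
    have e1 : Fintype.card (κ → Fin (2 * B + 1)) = (2 * B + 1) ^ Fintype.card κ := by
      rw [Fintype.card_fun, Fintype.card_fin]
    have e2 : Fintype.card (∀ p : Ps, V p) = ∏ p : Ps, Nat.card (V p) := by
      rw [Fintype.card_pi]
      refine Finset.prod_congr rfl fun p _ => ?_
      rw [Nat.card_eq_fintype_card]
    have e3 : Fintype.card (ι → Fin (H + 1)) = (H + 1) ^ Fintype.card ι := by
      rw [Fintype.card_fun, Fintype.card_fin]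
    rw [Fintype.card_prod, e1, e2, e3]
    exact hcard
  obtain ⟨x, y, hxy, hf⟩ := Fintype.exists_ne_map_eq_of_card_lt f hc
  refine ⟨fun i => ((x i : ℕ) : ℤ) - ((y i : ℕ) : ℤ), ?_, ?_, ?_, ?_⟩
  · intro h
    apply hxy
    funext i
    have := congrFun h i
    simp only [Pi.zero_apply] at this
    apply Fin.ext
    omega
  · intro i
    have h1 := (x i).2
    have h2 := (y i).2
    show |((x i : ℕ) : ℤ) - ((y i : ℕ) : ℤ)| ≤ (H : ℤ)
    rw [abs_le]
    constructor <;> omega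
  · intro p
    have h1 : φ p (fun i => ((x i : ℕ) : ℤ)) = φ p (fun i => ((y i : ℕ) : ℤ)) :=
      congrFun (congrArg Prod.snd hf) p
    have h2 : φ p (fun i => ((x i : ℕ) : ℤ) - ((y i : ℕ) : ℤ)) =
        φ p (fun i => ((x i : ℕ) : ℤ)) - φ p (fun i => ((y i : ℕ) : ℤ)) := by
      rw [← map_sub]
      rfl
    rw [h2, sub_eq_zero]
    exact h1
  · have h2 : ψ (fun i => ((x i : ℕ) : ℤ) - ((y i : ℕ) : ℤ)) =
        ψ (fun i => ((x i : ℕ) : ℤ)) - ψ (fun i => ((y i : ℕ) : ℤ)) := by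
      rw [← map_sub]
      rfl
    rw [h2, sub_eq_zero]
    funext k
    have h3 := congrArg Fin.val (congrFun (congrArg Prod.fst hf) k)
    simp only [f] at h3
    have h4 := hb x k
    have h5 := hb y k
    omega

end MP_a3a416_nt.LJ
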