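import Pool.Agent.Lib.MP_a3a416_nt.LJ.Poles
import Pool.Agent.Lib.MP_a3a416_nt.BB.BR2
import Pool.Agent.Lib.MP_a3a416_nt.BB.BR3

/-!
# LJ-Series
`r_n` as a power series over `ℚ`.
PROOFS.  `hD_jet`: coefficients of `jet 1 b` (`b ≥ 1`): `(-1)^k (k+1)/b^(k+1)`; `hD m` has coefficients `C(k+m,m) (-1)^(k+m) (k+m+1) / b^(k+m+1)` = those of `(-1)^m (m+1) b (b+t)^(-m-2)`
(`C(k+m,m)(k+m+1) = (m+1) C(k+m+1,m+1)`); multiply by `(X + C b)^(m+2)` (induction on `m`: `(X + C b) * f_{m+1} = f_m` for `f_m := mk (fun k => (-1)^k C(k+m+1,m+1) / b^(k+m+2))`, Pascal; `f_{-1}`-case: `(X + C b)^2 f_0 = 1`).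
`rJ_series`: it suffices, for each `a < n` with `b = n - a ∈ [1,n]`: `C b * taylor n Q_a = ∑_m taylor n P_m * hD m (jet 1 b)` as power series over `ℚ`.  Multiply by the nonzero `(X + C b)^(S+1)` (domain): left
`C b * taylor n ((X-a)^(S+1) Q_a)` (`taylor n (X - C a) = X + C (n-a)`), right `∑_m taylor n P_m * C(b (-1)^m (m+1)) * (X + C b)^(S-1-m)` (`hD_jet`); `QJ_mul`.  Then sum over `a`, `vser 1 n = ∑_{b=1}^n jet 1 b`, `hD` additive.
-/

namespace MP_a3a416_nt.LJ

open Polynomial MP_a3a416_nt.BB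

theorem hD_add (m : ℕ) (f g : PowerSeries ℚ) : hD m (f + g) = hD m f + hD m g := by
  ext k
  simp only [hD, PowerSeries.coeff_mk, map_add]
  ring

/-- `(b + t)^(-n-1)`. -/
private noncomputable def Fs (b n : ℕ) : PowerSeries ℚ :=
  PowerSeries.mk (fun k => (-1 : ℚ) ^ k * ((k + n).choose n : ℚ) / (b : ℚ) ^ (k + n + 1))

private theorem Fs_zero {b : ℕ} (hb : 1 ≤ b) :
    (PowerSeries.X + PowerSeries.C (b : ℚ)) * Fs b 0 = 1 := by
  have hb0 : (b : ℚ) ≠ 0 := by
    have : 0 < b := hb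
    positivity
  ext k
  rcases k with _ | k
  · simp only [Fs, add_mul, map_add, PowerSeries.coeff_zero_X_mul, PowerSeries.coeff_C_mul,
      PowerSeries.coeff_mk, PowerSeries.coeff_one, if_true]
    simp
    field_simp
  · simp only [Fs, add_mul, map_add, PowerSeries.coeff_succ_X_mul, PowerSeries.coeff_C_mul,
      PowerSeries.coeff_mk, PowerSeries.coeff_one]
    rw [if_neg (by omega)]
    simp only [Nat.choose_zero_right]
    push_cast
    field_simp
    ring

private theorem Fs_succ {b : ℕ} (hb : 1 ≤ b) (n : ℕ) :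
    (PowerSeries.X + PowerSeries.C (b : ℚ)) * Fs b (n + 1) = Fs b n := by
  have hb0 : (b : ℚ) ≠ 0 := by
    have : 0 < b := hb
    positivity
  ext k
  rcases k with _ | k
  · simp only [Fs, add_mul, map_add, PowerSeries.coeff_zero_X_mul, PowerSeries.coeff_C_mul,
      PowerSeries.coeff_mk]
    simp only [zero_add, Nat.choose_self]
    push_cast
    field_simp
    ring
  · simp only [Fs, add_mul, map_add, PowerSeries.coeff_succ_X_mul, PowerSeries.coeff_C_mul,
      PowerSeries.coeff_mk]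
    have hP : ((k + 1 + (n + 1)).choose (n + 1) : ℚ) =
        ((k + 1 + n).choose n : ℚ) + ((k + (n + 1)).choose (n + 1) : ℚ) := by
      have h := Nat.choose_succ_succ (k + 1 + n) n
      have e1 : k + 1 + (n + 1) = (k + 1 + n).succ := by omega
      have e2 : k + (n + 1) = k + 1 + n := by omega
      rw [e1, e2]
      exact_mod_cast h
    rw [hP]
    have e3 : k + 1 + (n + 1) + 1 = (k + 1 + n + 1) + 1 := by omega
    have e4 : k + (n + 1) + 1 = k + 1 + n + 1 := by omega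
    rw [e3, e4, pow_succ (b : ℚ) (k + 1 + n + 1)]
    field_simp
    ring

private theorem Fs_pow {b : ℕ} (hb : 1 ≤ b) (n : ℕ) :
    (PowerSeries.X + PowerSeries.C (b : ℚ)) ^ (n + 1) * Fs b n = 1 := by
  induction n with
  | zero => rw [zero_add, pow_one, Fs_zero hb]
  | succ n ih => rw [pow_succ, mul_assoc, Fs_succ hb, ih]

theorem hD_jet (m : ℕ) {b : ℕ} (hb : 1 ≤ b) :
    (PowerSeries.X + PowerSeries.C (b : ℚ)) ^ (m + 2) * hD m (jet 1 b) =
      PowerSeries.C ((b : ℚ) * ((-1) ^ m * ((m : ℚ) + 1))) := by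
  have hb0 : (b : ℚ) ≠ 0 := by
    have : 0 < b := hb
    positivity
  have h : hD m (jet 1 b) = PowerSeries.C ((b : ℚ) * ((-1) ^ m * ((m : ℚ) + 1))) * Fs b (m + 1) := by
    ext k
    rw [PowerSeries.coeff_C_mul]
    simp only [hD, jet, Fs, PowerSeries.coeff_mk]
    have hc : ((k + m : ℕ) : ℚ) + 1 ≠ 0 := by positivity
    have hP : (((k + m : ℕ) : ℚ) + 1) * ((k + m).choose m : ℚ) =
        ((k + (m + 1)).choose (m + 1) : ℚ) * ((m : ℚ) + 1) := by
      have h := Nat.add_one_mul_choose_eq (k + m) m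
      have e1 : k + (m + 1) = k + m + 1 := by omega
      rw [e1]
      exact_mod_cast h
    have e2 : k + (m + 1) + 1 = (k + m + 1) + 1 := by omega
    rw [e2, pow_succ (b : ℚ) (k + m + 1), pow_add (-1 : ℚ) k m, Nat.cast_one, one_pow]
    have hR : (b : ℚ) * ((-1) ^ m * ((m : ℚ) + 1)) *
        ((-1) ^ k * ((k + (m + 1)).choose (m + 1) : ℚ) / ((b : ℚ) ^ (k + m + 1) * b)) =
        (-1) ^ m * (-1) ^ k * (((k + (m + 1)).choose (m + 1) : ℚ) * ((m : ℚ) + 1)) /
          (b : ℚ) ^ (k + m + 1) := by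
      field_simp
    rw [hR, ← hP]
    ring
  rw [h, mul_left_comm, Fs_pow hb, mul_one]

private theorem hD_sum {ι : Type} (m : ℕ) (s : Finset ι) (f : ι → PowerSeries ℚ) :
    hD m (∑ i ∈ s, f i) = ∑ i ∈ s, hD m (f i) := by
  ext k
  simp only [hD, PowerSeries.coeff_mk, map_sum, Finset.mul_sum]

private theorem toPS_taylor (n : ℕ) (P : ℤ[X]) :
    ((taylor (n : ℚ) (P.map (Int.castRingHom ℚ)) : ℚ[X]) : PowerSeries ℚ)
      = toPS (taylor (n : ℤ) P) := by
  rw [toPS_apply, Polynomial.map_taylor]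
  simp

private theorem key {S N n : ℕ} (c : ℕ × ℕ × ℕ → ℤ) (hreg : REG S N c) (hn : n ≤ N) {a : ℕ}
    (ha : a < n) :
    toPS (C ((n : ℤ) - a)) * toPS (taylor (n : ℤ) (QJ S N c a)) =
      ∑ m ∈ Finset.range S, toPS (taylor (n : ℤ) (PJ N c m)) * hD m (jet 1 (n - a)) := by
  have hb : 1 ≤ n - a := by omega
  have hcast : ((n - a : ℕ) : ℚ) = (n : ℚ) - a := by push_cast [Nat.cast_sub ha.le]; ring
  have hY : (PowerSeries.X + PowerSeries.C ((n - a : ℕ) : ℚ) : PowerSeries ℚ) ≠ 0 := by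
    intro h0
    have h1 := congrArg (PowerSeries.coeff 1) h0
    rw [map_add, PowerSeries.coeff_one_X, PowerSeries.coeff_C, if_neg one_ne_zero, add_zero,
      map_zero] at h1
    exact one_ne_zero h1
  have htay : toPS (taylor (n : ℤ) (X - C (a : ℤ))) =
      PowerSeries.X + PowerSeries.C ((n - a : ℕ) : ℚ) := by
    rw [map_sub, taylor_X, taylor_C, add_sub_assoc, ← C_sub, map_add, toPS_X, toPS_C, hcast]
    push_cast
    rfl
  apply mul_left_cancel₀ (pow_ne_zero (S + 1) hY)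
  have hq := congrArg (fun P => toPS (taylor (n : ℤ) P)) (QJ_mul c hreg (lt_of_lt_of_le ha hn))
  simp only [taylor_mul, map_mul, taylor_pow, map_pow, htay, map_sum] at hq
  calc _ = toPS (C ((n : ℤ) - a)) * ((PowerSeries.X + PowerSeries.C ((n - a : ℕ) : ℚ)) ^ (S + 1) *
        toPS (taylor (n : ℤ) (QJ S N c a))) := by ring
    _ = _ := by
      rw [hq, Finset.mul_sum, Finset.mul_sum]
      refine Finset.sum_congr rfl (fun m hm => ?_)
      rw [Finset.mem_range] at hm
      have he : S + 1 = (S - 1 - m) + (m + 2) := by omega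
      have hj := hD_jet m hb
      rw [he, pow_add]
      rw [show (PowerSeries.X + PowerSeries.C ((n - a : ℕ) : ℚ)) ^ (S - 1 - m) *
          (PowerSeries.X + PowerSeries.C ((n - a : ℕ) : ℚ)) ^ (m + 2) *
          (toPS (taylor (n : ℤ) (PJ N c m)) * hD m (jet 1 (n - a))) =
          (PowerSeries.X + PowerSeries.C ((n - a : ℕ) : ℚ)) ^ (S - 1 - m) *
          toPS (taylor (n : ℤ) (PJ N c m)) *
          ((PowerSeries.X + PowerSeries.C ((n - a : ℕ) : ℚ)) ^ (m + 2) * hD m (jet 1 (n - a))) by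
          ring, hj]
      simp only [taylor_C, toPS_C, hcast, map_mul, map_pow]
      push_cast
      ring

theorem rJ_series {S N n : ℕ} (c : ℕ × ℕ × ℕ → ℤ) (hreg : REG S N c) (hn : n ≤ N) :
    (((rJ S N c n).map (Int.castRingHom ℚ) : ℚ[X]) : PowerSeries ℚ) =
      ∑ m ∈ Finset.range S,
        ((taylor (n : ℚ) ((PJ N c m).map (Int.castRingHom ℚ)) : ℚ[X]) : PowerSeries ℚ) * hD m (vser 1 n) := by
  simp only [toPS_taylor]
  rw [← toPS_apply]
  unfold rJ vser
  simp only [hD_sum, Finset.mul_sum, one_mul]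
  rw [map_sum, Finset.sum_comm]
  simp only [map_mul]
  rw [Finset.sum_congr rfl (fun a ha => key c hreg hn (Finset.mem_range.1 ha))]
  refine Finset.sum_bij' (fun a _ => n - a) (fun b _ => n - b) ?_ ?_ ?_ ?_ ?_
  · intro a ha
    rw [Finset.mem_range] at ha
    rw [Finset.mem_Icc]
    omega
  · intro b hb
    rw [Finset.mem_Icc] at hb
    rw [Finset.mem_range]
    omega
  · intro a ha
    rw [Finset.mem_range] at ha
    omega
  · intro b hb
    rw [Finset.mem_Icc] at hb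
    omega
  · intro a ha
    rfl

end MP_a3a416_nt.LJ
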