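import Pool.Agent.Lib.MP_a3a416_nt.LJ.Defs
import Pool.Agent.Lib.MP_a3a416_nt.BB.Denom
import Pool.Agent.Lib.MP_a3a416_nt.BB.Size

/-!
# LJ-Den
The common denominator `DJ N K = ∏_{u ≤ K} lcm(1..4N/u)`.
PROOFS: `FN_dvd_of`: prime by prime (`Int.natCast_dvd`, `Nat.dvd_iff_prime_pow_dvd_dvd` as in `BB.denom_dvd`): `v_q(FN) = 4 ∑_{l≤L} N/q^l`, `L = log_q(4N)`; `v_q(DJ N K) = ∑_{l≤L} min K (4N/q^l)` (as `BB.factorization_DD`)
and `4(N/q^l) ≤ min K (4N/q^l) + (4(N/q^l) - K)`.  `log_DJ_le`: as `BB.log_DD_le`.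
-/

namespace MP_a3a416_nt.LJ

open Polynomial MP_a3a416_nt.BB

theorem DJ_pos (N K : ℕ) : 0 < DJ N K := by
  unfold DJ
  exact Finset.prod_pos fun _ _ => Nat.lcmUpto_pos _

theorem FN_pos (N : ℕ) : 0 < FN N := by
  unfold FN; positivity

private theorem factorization_DJ (N K : ℕ) {q : ℕ} (hq : q.Prime) :
    (DJ N K).factorization q
      = ∑ l ∈ Finset.Icc 1 (Nat.log q (4 * N)), min K (4 * N / q ^ l) := by
  unfold DJ
  set A := 4 * N with hA
  rw [Nat.factorization_prod (fun u _ => Nat.lcmUpto_ne_zero _), Finsupp.finsetSum_apply]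
  have hq1 := hq.one_lt
  set L := Nat.log q A with hL
  have h1 : ∀ u ∈ Finset.Icc 1 K, (Nat.lcmUpto (A / u)).factorization q
      = ∑ l ∈ Finset.Icc 1 L, if u ≤ A / q ^ l then 1 else 0 := by
    intro u hu
    rw [Nat.factorization_lcmUpto _ hq]
    have hB : A / u < q ^ (L + 1) :=
      lt_of_le_of_lt (Nat.div_le_self _ _) (Nat.lt_pow_succ_log_self hq1 A)
    rw [log_eq_sum hq1 hB]
    apply Finset.sum_congr rfl
    intro l hl
    rw [Finset.mem_Icc] at hl hu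
    have hpos : 0 < q ^ l := by positivity
    have h3 : q ^ l ≤ A / u ↔ u ≤ A / q ^ l := by
      rw [Nat.le_div_iff_mul_le (by omega), Nat.le_div_iff_mul_le hpos, mul_comm u]
    simp only [h3]
  rw [Finset.sum_congr rfl h1, Finset.sum_comm]
  apply Finset.sum_congr rfl
  intro l _
  rw [← Finset.card_filter, card_le_min]

private theorem factorization_FN (N : ℕ) {q : ℕ} (hq : q.Prime) :
    (FN N).factorization q = ∑ l ∈ Finset.Icc 1 (Nat.log q (4 * N)), 4 * (N / q ^ l) := by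
  have hb : Nat.log q N < Nat.log q (4 * N) + 1 :=
    Nat.lt_succ_of_le (Nat.log_mono_right (by omega))
  unfold FN
  rw [Nat.factorization_pow, Finsupp.smul_apply, smul_eq_mul, Nat.factorization_factorial hq hb,
    Finset.mul_sum]
  rfl

theorem FN_dvd_of {N K : ℕ} (z : ℤ)
    (h : ∀ q : ℕ, q.Prime → (q : ℤ) ^ (∑ l ∈ Finset.Icc 1 (Nat.log q (4 * N)), (4 * (N / q ^ l) - K)) ∣ z) :
    (FN N : ℤ) ∣ (DJ N K : ℤ) * z := by
  rw [Int.natCast_dvd, Nat.dvd_iff_prime_pow_dvd_dvd]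
  intro q e hq he
  have he' : e ≤ (FN N).factorization q := (hq.pow_dvd_iff_le_factorization (FN_pos N).ne').1 he
  rw [factorization_FN N hq] at he'
  have h2 : q ^ (∑ l ∈ Finset.Icc 1 (Nat.log q (4 * N)), min K (4 * N / q ^ l)) ∣ DJ N K := by
    rw [← factorization_DJ N K hq]
    exact Nat.ordProj_dvd _ _
  have h3 : ∑ l ∈ Finset.Icc 1 (Nat.log q (4 * N)), 4 * (N / q ^ l)
      ≤ ∑ l ∈ Finset.Icc 1 (Nat.log q (4 * N)), min K (4 * N / q ^ l)
        + ∑ l ∈ Finset.Icc 1 (Nat.log q (4 * N)), (4 * (N / q ^ l) - K) := by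
    rw [← Finset.sum_add_distrib]
    apply Finset.sum_le_sum
    intro l _
    have hpos : 0 < q ^ l := pow_pos hq.pos l
    have h4 : 4 * (N / q ^ l) ≤ 4 * N / q ^ l := by
      rw [Nat.le_div_iff_mul_le hpos, mul_assoc]
      exact Nat.mul_le_mul_left 4 (Nat.div_mul_le_self N (q ^ l))
    omega
  have h4 : (q : ℤ) ^ e ∣ (DJ N K : ℤ) * z := by
    refine dvd_trans (pow_dvd_pow _ (he'.trans h3)) ?_
    rw [pow_add]
    exact mul_dvd_mul (by exact_mod_cast h2) (h q hq)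
  rw [← Int.natCast_dvd]
  exact_mod_cast h4

theorem DJ_dvd_DJ {N K K' : ℕ} (h : K ≤ K') : DJ N K ∣ DJ N K' := by
  unfold DJ
  exact Finset.prod_dvd_prod_of_subset _ _ _ (Finset.Icc_subset_Icc_right h)

theorem log_DJ_le (N K : ℕ) (hK : 1 ≤ K) :
    Real.log (DJ N K) ≤ 4 * (Real.log 4 + 4) * N * (1 + Real.log K) := by
  have _ := hK
  unfold DJ
  push_cast
  rw [Real.log_prod (fun u _ => by exact_mod_cast Nat.lcmUpto_ne_zero _)]
  have h4 : 0 ≤ Real.log 4 := Real.log_nonneg (by norm_num)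
  have h1 : ∀ u ∈ Finset.Icc 1 K, Real.log (Nat.lcmUpto (4 * N / u))
      ≤ 4 * (Real.log 4 + 4) * N * (u : ℝ)⁻¹ := by
    intro u hu
    have hu1 := (Finset.mem_Icc.1 hu).1
    have hu0 : (0 : ℝ) < u := by exact_mod_cast hu1
    rw [← Chebyshev.psi_eq_log_lcmUpto]
    refine (Chebyshev.psi_le_const_mul_self (by positivity)).trans ?_
    have h2 : ((4 * N / u : ℕ) : ℝ) ≤ 4 * N / u := by
      have := @Nat.cast_div_le ℝ _ _ _ (4 * N) u
      push_cast at this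
      exact this
    calc (Real.log 4 + 4) * ((4 * N / u : ℕ) : ℝ) ≤ (Real.log 4 + 4) * (4 * N / u) := by
          apply mul_le_mul_of_nonneg_left h2 (by positivity)
      _ = 4 * (Real.log 4 + 4) * N * (u : ℝ)⁻¹ := by rw [div_eq_mul_inv]; ring
  refine (Finset.sum_le_sum h1).trans ?_
  rw [← Finset.mul_sum]
  apply mul_le_mul_of_nonneg_left _ (by positivity)
  have h2 := harmonic_le_one_add_log K
  rw [harmonic_eq_sum_Icc] at h2
  push_cast at h2
  exact h2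

end MP_a3a416_nt.LJ
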