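import Pool.Agent.Lib.MP_a3a416_nt.LJ.Basis
import Pool.Agent.Lib.MP_a3a416_nt.LJ.Den

/-!
# LJ-SjBound
The integers for `sJ` and for the forms `regF`.
PROOFS.  `FN_dvd_PJ`: `FN_dvd_of` with `PJ_adm` (`L = log_q(4N)`, `4(N/q^l) - k ≥ 4(N/q^l) - K`).
`sJ_bound`: `(sJ ..).coeff k = ∑_m ∑_{i+j=k} (taylor n P_m)_i * (hasseDeriv m φ)_j`, `(hasseDeriv m φ)_j = C(j+m,m) φ_{j+m}`, `|φ_{j+m}| ≤ A` (`φ_l = w_g` if `l = 2g`, `1 ≤ g ≤ J`, else `0`), `C(j+m,m) ≤ 2^(j+m) ≤ 4^(5S+10)`.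
`i ≤ k < 4S+10 ≤ 5S+11`: `DJ (taylor n P_m)_i = FN * integer of absolute value ≤ DJ 4 N H 2^N`.  Total `≤ DJ S (4S+10) 4 N 2^N 4^(5S+10) A H ≤ A EJ H`.
`regF_bound`: coefficients of index `m+2-i ≤ S+1-1 ≤ S+1` of `taylor a P_m`, `∑_{m<S} (m+1) ≤ S²`.
-/

namespace MP_a3a416_nt.LJ

open Polynomial MP_a3a416_nt.BB

theorem FN_dvd_PJ {N K n k m : ℕ} (c : ℕ × ℕ × ℕ → ℤ) (hk : k ≤ K) :
    (FN N : ℤ) ∣ (DJ N K : ℤ) * (taylor (n : ℤ) (PJ N c m)).coeff k := by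
  refine FN_dvd_of _ fun q hq => ?_
  have hL : N < q ^ (Nat.log q (4 * N) + 1) :=
    lt_of_le_of_lt (by omega) (Nat.lt_pow_succ_log_self hq.one_lt (4 * N))
  refine dvd_trans (pow_dvd_pow _ ?_) (PJ_adm hq hL c m n k)
  exact Finset.sum_le_sum fun l _ => Nat.sub_le_sub_left hk _

private theorem sjb_int {S N H K : ℕ} (c : ℕ × ℕ × ℕ → ℤ) (hc : ∀ x ∈ ix S N, |c x| ≤ (H : ℤ))
    {m n k : ℕ} (hm : m < S) (hn : n < N) (hk : k ≤ K) :
    ∃ z : ℤ, (DJ N K : ℤ) * (taylor (n : ℤ) (PJ N c m)).coeff k = (FN N : ℤ) * z ∧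
      |z| ≤ (DJ N K : ℤ) * (4 * N * H * 2 ^ N) := by
  obtain ⟨z, hz⟩ := FN_dvd_PJ (N := N) (K := K) (n := n) (k := k) (m := m) c hk
  refine ⟨z, hz, ?_⟩
  have h1 := PJ_size c hc hm hn k
  have hF : (0 : ℤ) < (FN N : ℤ) := by exact_mod_cast FN_pos N
  have hD : (0 : ℤ) ≤ (DJ N K : ℤ) := by positivity
  have h2 : (FN N : ℤ) * |z| = (DJ N K : ℤ) * |(taylor (n : ℤ) (PJ N c m)).coeff k| := by
    rw [← abs_of_pos hF, ← abs_mul, ← hz, abs_mul, abs_of_nonneg hD]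
  have h3 : (FN N : ℤ) * |z| ≤ (FN N : ℤ) * ((DJ N K : ℤ) * (4 * N * H * 2 ^ N)) := by
    rw [h2]
    calc (DJ N K : ℤ) * |(taylor (n : ℤ) (PJ N c m)).coeff k|
        ≤ (DJ N K : ℤ) * ((FN N * (4 * N * H * 2 ^ N) : ℕ) : ℤ) :=
          mul_le_mul_of_nonneg_left h1 hD
      _ = _ := by push_cast; ring
  exact le_of_mul_le_mul_left h3 hF

private theorem sjb_phi {J A : ℕ} (w : ℕ → ℤ) (hw : ∀ g ∈ Finset.Icc 1 J, |w g| ≤ (A : ℤ)) (l : ℕ) :
    |(phiJ J w).coeff l| ≤ (A : ℤ) := by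
  unfold phiJ
  rw [finsetSum_coeff]
  have h1 : ∀ g ∈ Finset.Icc 1 J, (C (w g) * X ^ (2 * g) : ℤ[X]).coeff l =
      if l = 2 * g then w g else 0 := by
    intro g _
    rw [coeff_C_mul, coeff_X_pow]
    split_ifs <;> simp
  rw [Finset.sum_congr rfl h1]
  by_cases h : ∃ g ∈ Finset.Icc 1 J, l = 2 * g
  · obtain ⟨g, hg, rfl⟩ := h
    rw [Finset.sum_eq_single g]
    · rw [if_pos rfl]
      exact hw g hg
    · intro b _ hb
      rw [if_neg]
      omega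
    · intro h
      exact absurd hg h
  · rw [Finset.sum_eq_zero]
    · simp
    · intro g hg
      rw [if_neg]
      intro hl
      exact h ⟨g, hg, hl⟩

private theorem sjb_arith {S N H : ℕ} {k D T : ℤ} (hk : k ≤ 4 * S + 10) (hN : 1 ≤ N) (hD : 0 ≤ D)
    (hT : 0 ≤ T) : (S : ℤ) * k * (D * (4 * N * H * 2 ^ N) * T) ≤
      (S : ℤ) * (4 * S + 10) * (D * (4 * (N : ℤ) ^ 2 * H * 2 ^ N) * T) := by
  have h6 : (N : ℤ) ≤ (N : ℤ) ^ 2 := by
    have : (1 : ℤ) ≤ N := by exact_mod_cast hN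
    nlinarith
  have h9 : (4 * N * H * 2 ^ N : ℤ) ≤ 4 * (N : ℤ) ^ 2 * H * 2 ^ N := by
    have h10 : (0 : ℤ) ≤ 4 * (H : ℤ) * 2 ^ N := by positivity
    nlinarith [mul_le_mul_of_nonneg_right h6 h10]
  have h11 : (0 : ℤ) ≤ 4 * N * H * 2 ^ N := by positivity
  have h12 : (0 : ℤ) ≤ (S : ℤ) * (4 * S + 10) := by positivity
  exact mul_le_mul (mul_le_mul_of_nonneg_left hk (Int.natCast_nonneg _))
    (mul_le_mul_of_nonneg_right (mul_le_mul_of_nonneg_left h9 hD) hT)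
    (mul_nonneg (mul_nonneg hD h11) hT) h12

theorem sJ_bound {S N J H A : ℕ} (c : ℕ × ℕ × ℕ → ℤ) (hc : ∀ x ∈ ix S N, |c x| ≤ (H : ℤ)) (w : ℕ → ℤ)
    (hw : ∀ g ∈ Finset.Icc 1 J, |w g| ≤ (A : ℤ)) {n k : ℕ} (hn : n < N) (hk : k < 4 * S + 10) :
    ∃ z : ℤ, (DJ N (5 * S + 11) : ℤ) * (sJ S N J c w n).coeff k = (FN N : ℤ) * z ∧
      |z| ≤ ((A * EJ S N * H : ℕ) : ℤ) := by
  set K := 5 * S + 11 with hK
  have hex : ∀ m i : ℕ, ∃ z : ℤ, m < S → i ≤ k →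
      (DJ N K : ℤ) * (taylor (n : ℤ) (PJ N c m)).coeff i = (FN N : ℤ) * z ∧
      |z| ≤ (DJ N K : ℤ) * (4 * N * H * 2 ^ N) := by
    intro m i
    by_cases h : m < S ∧ i ≤ k
    · obtain ⟨z, hz⟩ := sjb_int (K := K) c hc h.1 hn (show i ≤ K by omega)
      exact ⟨z, fun _ _ => hz⟩
    · exact ⟨0, fun h1 h2 => absurd ⟨h1, h2⟩ h⟩
  choose z hz using hex
  refine ⟨∑ m ∈ Finset.range S, ∑ x ∈ Finset.HasAntidiagonal.antidiagonal k,
    z m x.1 * (hasseDeriv m (phiJ J w)).coeff x.2, ?_, ?_⟩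
  · unfold sJ
    rw [finsetSum_coeff, Finset.mul_sum, Finset.mul_sum]
    refine Finset.sum_congr rfl fun m hm => ?_
    rw [coeff_mul, Finset.mul_sum, Finset.mul_sum]
    refine Finset.sum_congr rfl fun x hx => ?_
    have hx1 : x.1 ≤ k := by
      have := Finset.HasAntidiagonal.mem_antidiagonal.1 hx
      omega
    have := (hz m x.1 (Finset.mem_range.1 hm) hx1).1
    rw [← mul_assoc, this, mul_assoc]
  · obtain ⟨B, hB⟩ : ∃ B : ℤ, B = 4 ^ (5 * S + 10) := ⟨_, rfl⟩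
    have hB0 : 0 ≤ B := by rw [hB]; positivity
    obtain ⟨M, hM⟩ : ∃ M : ℤ, M = (DJ N K : ℤ) * (4 * N * H * 2 ^ N) := ⟨_, rfl⟩
    have hM0 : 0 ≤ M := by
      rw [hM]
      refine mul_nonneg (Int.natCast_nonneg _) ?_
      positivity
    have hterm : ∀ m ∈ Finset.range S, ∀ x ∈ Finset.HasAntidiagonal.antidiagonal k,
        |z m x.1 * (hasseDeriv m (phiJ J w)).coeff x.2| ≤ M * (B * A) := by
      intro m hm x hx
      rw [Finset.mem_range] at hm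
      have hx0 := Finset.HasAntidiagonal.mem_antidiagonal.1 hx
      have hx1 : x.1 ≤ k := by omega
      have hx2 : x.2 ≤ k := by omega
      have h1 : |z m x.1| ≤ M := by
        rw [hM]
        exact (hz m x.1 hm hx1).2
      have h2 : |(hasseDeriv m (phiJ J w)).coeff x.2| ≤ B * (A : ℤ) := by
        rw [hasseDeriv_coeff, abs_mul]
        have h3 : |(((x.2 + m).choose m : ℕ) : ℤ)| ≤ B := by
          rw [Nat.abs_cast, hB]
          have h4 : (x.2 + m).choose m ≤ 4 ^ (5 * S + 10) := by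
            calc (x.2 + m).choose m ≤ 2 ^ (x.2 + m) := Nat.choose_le_two_pow _ _
              _ ≤ 2 ^ (5 * S + 10) := Nat.pow_le_pow_right (by norm_num) (by omega)
              _ ≤ 4 ^ (5 * S + 10) := Nat.pow_le_pow_left (by norm_num) _
          exact_mod_cast h4
        exact mul_le_mul h3 (sjb_phi w hw _) (abs_nonneg _) hB0
      rw [abs_mul]
      exact mul_le_mul h1 h2 (abs_nonneg _) hM0
    have hN1 : 1 ≤ N := by omega
    calc |∑ m ∈ Finset.range S, ∑ x ∈ Finset.HasAntidiagonal.antidiagonal k,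
        z m x.1 * (hasseDeriv m (phiJ J w)).coeff x.2|
        ≤ ∑ m ∈ Finset.range S, ∑ x ∈ Finset.HasAntidiagonal.antidiagonal k,
        |z m x.1 * (hasseDeriv m (phiJ J w)).coeff x.2| := by
          refine (Finset.abs_sum_le_sum_abs _ _).trans (Finset.sum_le_sum fun m _ => ?_)
          exact Finset.abs_sum_le_sum_abs _ _
      _ ≤ ∑ _m ∈ Finset.range S, ∑ _x ∈ Finset.HasAntidiagonal.antidiagonal k,
          M * (B * A) :=
          Finset.sum_le_sum fun m hm => Finset.sum_le_sum fun x hx => hterm m hm x hx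
      _ = (S : ℤ) * ((k + 1 : ℕ) : ℤ) * (M * (B * A)) := by
          rw [Finset.sum_const, Finset.sum_const, Finset.card_range,
            Finset.Nat.card_antidiagonal, nsmul_eq_mul, nsmul_eq_mul, mul_assoc]
      _ ≤ (S : ℤ) * (4 * S + 10) * (((DJ N K : ℤ) * (4 * (N : ℤ) ^ 2 * H * 2 ^ N)) *
          (B * A)) := by
          rw [hM]
          exact sjb_arith (by exact_mod_cast hk) hN1 (Int.natCast_nonneg _) (mul_nonneg hB0 (Int.natCast_nonneg _))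
      _ = ((A * EJ S N * H : ℕ) : ℤ) := by
          unfold EJ
          rw [hB]
          push_cast
          ring

theorem regF_bound {S N H : ℕ} (c : ℕ × ℕ × ℕ → ℤ) (hc : ∀ x ∈ ix S N, |c x| ≤ (H : ℤ))
    {a i : ℕ} (ha : a < N) (hi : 1 ≤ i) :
    ∃ z : ℤ, (DJ N (S + 1) : ℤ) * regF S N c a i = (FN N : ℤ) * z ∧ |z| ≤ ((AJ S N * H : ℕ) : ℤ) := by
  have hex : ∀ m : ℕ, ∃ z : ℤ, m < S → i ≤ m + 2 →
      (DJ N (S + 1) : ℤ) * (taylor (a : ℤ) (PJ N c m)).coeff (m + 2 - i) = (FN N : ℤ) * z ∧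
      |z| ≤ (DJ N (S + 1) : ℤ) * (4 * N * H * 2 ^ N) := by
    intro m
    by_cases h : m < S ∧ i ≤ m + 2
    · obtain ⟨z, hz⟩ := sjb_int (K := S + 1) c hc h.1 ha (show m + 2 - i ≤ S + 1 by omega)
      exact ⟨z, fun _ _ => hz⟩
    · exact ⟨0, fun h1 h2 => absurd ⟨h1, h2⟩ h⟩
  choose z hz using hex
  refine ⟨∑ m ∈ Finset.range S, if i ≤ m + 2 then (-1) ^ m * ((m : ℤ) + 1) * z m else 0, ?_, ?_⟩
  · unfold regF
    rw [Finset.mul_sum, Finset.mul_sum]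
    refine Finset.sum_congr rfl fun m hm => ?_
    split_ifs with h
    · have := (hz m (Finset.mem_range.1 hm) h).1
      linear_combination (-1) ^ m * ((m : ℤ) + 1) * this
    · ring
  · obtain ⟨M, hM⟩ : ∃ M : ℤ, M = (DJ N (S + 1) : ℤ) * (4 * N * H * 2 ^ N) := ⟨_, rfl⟩
    have hM0 : 0 ≤ M := by
      rw [hM]
      refine mul_nonneg (Int.natCast_nonneg _) ?_
      positivity
    have hterm : ∀ m ∈ Finset.range S,
        |if i ≤ m + 2 then (-1) ^ m * ((m : ℤ) + 1) * z m else 0| ≤ (S : ℤ) * M := by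
      intro m hm
      rw [Finset.mem_range] at hm
      split_ifs with h
      · have h1 : |z m| ≤ M := by
          rw [hM]
          exact (hz m hm h).2
        rw [abs_mul, abs_mul, abs_pow, abs_neg, abs_one, one_pow, one_mul]
        have h2 : |(m : ℤ) + 1| ≤ S := by
          rw [abs_of_nonneg (by positivity)]
          exact_mod_cast hm
        exact mul_le_mul h2 h1 (abs_nonneg _) (Int.natCast_nonneg _)
      · rw [abs_zero]
        exact mul_nonneg (Int.natCast_nonneg _) hM0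
    calc |∑ m ∈ Finset.range S, if i ≤ m + 2 then (-1) ^ m * ((m : ℤ) + 1) * z m else 0|
        ≤ ∑ m ∈ Finset.range S, |if i ≤ m + 2 then (-1) ^ m * ((m : ℤ) + 1) * z m else 0| :=
          Finset.abs_sum_le_sum_abs _ _
      _ ≤ ∑ _m ∈ Finset.range S, (S : ℤ) * M :=
          Finset.sum_le_sum hterm
      _ = ((AJ S N * H : ℕ) : ℤ) := by
          rw [Finset.sum_const, Finset.card_range, nsmul_eq_mul, hM]
          unfold AJ
          push_cast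
          ring

end MP_a3a416_nt.LJ
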