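import Pool.Agent.Lib.MP_a3a416_nt.LJ.SjBound
import Pool.Agent.Lib.MP_a3a416_nt.LJ.Jets
import Pool.Agent.Lib.MP_a3a416_nt.LJ.Siegel
import Pool.Agent.Lib.MP_a3a416_nt.LI.EPolyW
import Pool.Agent.Lib.MP_a3a416_nt.BB.Auxi

/-!
# LJ-AuxiJ
The auxiliary polynomials.
PROOF.  As `BB.exists_aux` (`BB/Auxi.lean`).  `E p` from `LI.exists_E_w`; `ι = ix S N` (`card = 4SN`), extension by zero; `κ = Fin N × Fin (S+1)` (`i = k.2 + 1`);
`ψ c (a,i)` = the integer `z` of `regF_bound` (`regF` is additive in `c`; e.g. `ψ c = (DJ N (S+1) * regF S N (ext c) a i) / FN N`, exact division, so additive), `B = AJ S N * H`;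
`V p = Fin (4N + p) → ZMod p`, `φ p c` = coefficients of `∑_m (PJ).map f * hasseDeriv m E` (degree `< 4N + p`: `natDegree_PJ_lt`, `natDegree_hasseDeriv_le`).  `hcard`:
`(2B+1)^(N(S+1)) ∏ p^(4N+p) ≤ (3 AJ (H+1))^(N(S+1)) * P^(4N+x)`, `P = ∏ p`; we need this `< (H+1)^(4SN)`, i.e. `(3AJ)^(N(S+1)) P^(4N+x) < (H+1)^((3S-1)N)`.  Let `Q = (3S-1)N / (4(r+1))` (natural division).
`(H+1)^((3S-1)N) ≥ ((H+1)^(4(r+1)))^Q > ((3AJ)^(2(r+1)) P)^Q` and `2(r+1) Q ≥ N(S+1)`, `Q ≥ 4N + x`, `Q ≥ 1` (from `12(r+1) ≤ S`, `3(r+1)x ≤ SN`, `N ≥ 5S+20`): `4(r+1)(Q+1) > (3S-1)N`, so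
`2(r+1)Q > (3S-1)N/2 - 2(r+1) ≥ N(S+1)` as `(S-3)N ≥ 4(r+1)`; `4(r+1)(4N+x+1) ≤ 16(r+1)N + (4/3)SN + 4(r+1) ≤ (3S-1)N` as `16(r+1) ≤ (4/3) S`, `4(r+1) ≤ S/3 ≤ (S/3 - 1) N`.  Then `jets_modp` with `w = comb r v (lam p)`.
-/

namespace MP_a3a416_nt.LJ

open Polynomial MP_a3a416_nt.BB

/-- extension by zero of a function on `ix S N`. -/
noncomputable def extJ (S N : ℕ) (c : ix S N → ℤ) : ℕ × ℕ × ℕ → ℤ := by
  classical
  exact fun x => if h : x ∈ ix S N then c ⟨x, h⟩ else 0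

theorem extJ_add (S N : ℕ) (c c' : ix S N → ℤ) : extJ S N (c + c') = fun x => extJ S N c x + extJ S N c' x := by
  classical
  funext x
  unfold extJ
  by_cases h : x ∈ ix S N
  · simp [h]
  · simp [h]

theorem extJ_zero (S N : ℕ) : extJ S N 0 = fun _ => 0 := by
  classical
  funext x
  unfold extJ
  by_cases h : x ∈ ix S N
  · simp [h]
  · simp [h]

theorem extJ_apply (S N : ℕ) (c : ix S N → ℤ) (x : ix S N) : extJ S N c x = c x := by
  classical
  unfold extJ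
  simp

theorem regF_add (S N : ℕ) (c c' : ℕ × ℕ × ℕ → ℤ) (a i : ℕ) :
    regF S N (fun x => c x + c' x) a i = regF S N c a i + regF S N c' a i := by
  unfold regF
  rw [← Finset.sum_add_distrib]
  apply Finset.sum_congr rfl
  intro m _
  by_cases h : i ≤ m + 2
  · rw [if_pos h, if_pos h, if_pos h, PJ_add, map_add, coeff_add, mul_add]
  · rw [if_neg h, if_neg h, if_neg h, add_zero]

theorem regF_zero (S N : ℕ) (a i : ℕ) : regF S N (fun _ => 0) a i = 0 := by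
  unfold regF
  apply Finset.sum_eq_zero
  intro m _
  by_cases h : i ≤ m + 2
  · rw [if_pos h, PJ_zero, map_zero, coeff_zero, mul_zero]
  · rw [if_neg h]

theorem regF_dvd {S N : ℕ} (c : ℕ × ℕ × ℕ → ℤ) {a i : ℕ} (ha : a < N) (hi : 1 ≤ i) :
    (FN N : ℤ) ∣ (DJ N (S + 1) : ℤ) * regF S N c a i := by
  obtain ⟨z, hz, _⟩ := regF_bound (S := S) (N := N) (H := ∑ x ∈ ix S N, (c x).natAbs) c (by
    intro x hx
    have h1 : (c x).natAbs ≤ ∑ x ∈ ix S N, (c x).natAbs :=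
      Finset.single_le_sum (f := fun x => (c x).natAbs) (fun _ _ => Nat.zero_le _) hx
    have h2 : |c x| = ((c x).natAbs : ℤ) := Int.abs_eq_natAbs _
    rw [h2]
    exact_mod_cast h1) ha hi
  exact ⟨z, hz⟩

/-- the counting inequality. -/
theorem card_ineq {S N r x A P H : ℕ} (hS : 12 * (r + 1) ≤ S) (hN : 1 ≤ N)
    (hx : 3 * (r + 1) * x ≤ S * N) (hA : 1 ≤ A) (hP : 1 ≤ P)
    (hH : (3 * A) ^ (2 * (r + 1)) * P < (H + 1) ^ (4 * (r + 1))) :
    (2 * (A * H) + 1) ^ (N * (S + 1)) * P ^ (4 * N + x) < (H + 1) ^ (4 * S * N) := by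
  have h1 : 2 * (A * H) + 1 ≤ (3 * A) * (H + 1) := by nlinarith
  have hSN : 12 * ((r + 1) * N) ≤ S * N := by
    calc 12 * ((r + 1) * N) = 12 * (r + 1) * N := by ring
      _ ≤ S * N := Nat.mul_le_mul_right _ hS
  have hrN : r + 1 ≤ (r + 1) * N := Nat.le_mul_of_pos_right _ hN
  have hNr : N ≤ (r + 1) * N := Nat.le_mul_of_pos_left _ (by omega)
  obtain ⟨Q, hQ⟩ : ∃ Q, Q = (3 * (S * N) - N) / (4 * (r + 1)) := ⟨_, rfl⟩
  have hQ1 : 4 * (r + 1) * Q ≤ 3 * (S * N) - N := by rw [hQ]; exact Nat.mul_div_le _ _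
  have hQ2 : 3 * (S * N) - N < 4 * (r + 1) * (Q + 1) := by
    rw [hQ]; exact Nat.lt_mul_div_succ _ (by omega)
  have hQ3 : 4 * (r + 1) * Q = 4 * ((r + 1) * Q) := by ring
  have hQ4 : 4 * (r + 1) * (Q + 1) = 4 * ((r + 1) * Q) + 4 * (r + 1) := by ring
  have hQa : N * (S + 1) ≤ 2 * (r + 1) * Q := by
    have e1 : N * (S + 1) = S * N + N := by ring
    have e2 : 2 * (r + 1) * Q = 2 * ((r + 1) * Q) := by ring
    rw [e1, e2]
    omega
  have hQb : 4 * N + x ≤ Q := by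
    by_contra hcon
    have hc1 : Q + 1 ≤ 4 * N + x := by omega
    have hc2 : 4 * (r + 1) * (Q + 1) ≤ 4 * (r + 1) * (4 * N + x) := Nat.mul_le_mul_left _ hc1
    have hc3 : 4 * (r + 1) * (4 * N + x) = 16 * ((r + 1) * N) + 4 * ((r + 1) * x) := by ring
    have hc4 : 3 * (r + 1) * x = 3 * ((r + 1) * x) := by ring
    omega
  have hQc : Q ≠ 0 := by omega
  have hA3 : 1 ≤ 3 * A := by omega
  have k1 : (2 * (A * H) + 1) ^ (N * (S + 1)) ≤ (3 * A) ^ (N * (S + 1)) * (H + 1) ^ (N * (S + 1)) := by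
    rw [← Nat.mul_pow]
    exact Nat.pow_le_pow_left h1 _
  have k2 : (3 * A) ^ (N * (S + 1)) * P ^ (4 * N + x) < (H + 1) ^ (3 * (S * N) - N) := by
    calc (3 * A) ^ (N * (S + 1)) * P ^ (4 * N + x) ≤ (3 * A) ^ (2 * (r + 1) * Q) * P ^ Q :=
          Nat.mul_le_mul (Nat.pow_le_pow_right hA3 hQa) (Nat.pow_le_pow_right hP hQb)
      _ = ((3 * A) ^ (2 * (r + 1)) * P) ^ Q := by
          rw [Nat.mul_pow ((3 * A) ^ (2 * (r + 1))) P Q, ← Nat.pow_mul]
      _ < ((H + 1) ^ (4 * (r + 1))) ^ Q := Nat.pow_lt_pow_left hH hQc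
      _ = (H + 1) ^ (4 * (r + 1) * Q) := by rw [← Nat.pow_mul]
      _ ≤ (H + 1) ^ (3 * (S * N) - N) := Nat.pow_le_pow_right (by omega) hQ1
  have k3 : 4 * S * N = N * (S + 1) + (3 * (S * N) - N) := by
    have e1 : N * (S + 1) = S * N + N := by ring
    have e2 : 4 * S * N = 4 * (S * N) := by ring
    rw [e1, e2]
    omega
  rw [k3, Nat.pow_add (H + 1)]
  calc (2 * (A * H) + 1) ^ (N * (S + 1)) * P ^ (4 * N + x)
      ≤ ((3 * A) ^ (N * (S + 1)) * (H + 1) ^ (N * (S + 1))) * P ^ (4 * N + x) := Nat.mul_le_mul_right _ k1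
    _ = (H + 1) ^ (N * (S + 1)) * ((3 * A) ^ (N * (S + 1)) * P ^ (4 * N + x)) := by ring
    _ < (H + 1) ^ (N * (S + 1)) * (H + 1) ^ (3 * (S * N) - N) :=
      Nat.mul_lt_mul_of_pos_left k2 (by positivity)

theorem exists_aux {S N J r x : ℕ} (v : ℕ → ℕ → ℤ) (hS : 12 * (r + 1) ≤ S) (hJ : 5 * S + 7 ≤ 2 * J)
    (hN : 5 * S + 20 ≤ N) (hNJ : 2 * J + 4 ≤ N) (hx : 3 * (r + 1) * x ≤ S * N)
    (Ps : Finset ℕ) (lam : ℕ → ℕ → ℤ)
    (hP : ∀ p ∈ Ps, p.Prime ∧ N < p ∧ p ≤ x ∧ Bad J r v (lam p) p)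
    (H : ℕ) (hH1 : 1 ≤ H) (hH : (3 * AJ S N) ^ (2 * (r + 1)) * ∏ p ∈ Ps, p < (H + 1) ^ (4 * (r + 1))) :
    ∃ c : ℕ × ℕ × ℕ → ℤ, (∃ x ∈ ix S N, c x ≠ 0) ∧ (∀ x ∈ ix S N, |c x| ≤ (H : ℤ)) ∧ REG S N c ∧
      ∀ p ∈ Ps, ∀ n < N, ∀ k < 4 * S + 10,
        (p : ℤ) ∣ (rJ S N c n - sJ S N J c (LI.comb r v (lam p)) n).coeff k := by
  classical
  have hN1 : 1 ≤ N := by omega
  have hS1 : 1 ≤ S := by omega
  have hfact : ∀ p : Ps, Fact (p : ℕ).Prime := fun p => ⟨(hP p p.2).1⟩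
  have hneZ : ∀ p : Ps, NeZero (p : ℕ) := fun p => ⟨(hP p p.2).1.ne_zero⟩
  have hNp : ∀ p : Ps, N < (p : ℕ) := fun p => (hP p p.2).2.1
  have hex : ∀ p : Ps, ∃ E : (ZMod (p : ℕ))[X], E.natDegree < p ∧ E.coeff 0 = 0 ∧
      E.comp (X + 1) - E = (X + 1) ^ ((p : ℕ) - 2) ∧
      (∀ k, Odd k → k + 4 ≤ (p : ℕ) → E.coeff k = 0) ∧
      (∀ g, 1 ≤ g → 2 * g + 3 ≤ (p : ℕ) → ∀ a : ℤ,
        ((p : ℕ) : ℤ) ∣ (_root_.bernoulli ((p : ℕ) - 1 - 2 * g) - (a : ℚ)).num →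
        E.coeff (2 * g) = -(a : ZMod (p : ℕ))) := fun p => by
    have := hfact p
    exact LI.exists_E_w (p : ℕ) (by have := hNp p; omega)
  choose E hE using hex
  let V : Ps → Type := fun p => Fin (4 * N + (p : ℕ)) → ZMod (p : ℕ)
  have hVfin : ∀ p : Ps, Finite (V p) := fun p => by
    have := hneZ p
    infer_instance
  let P2 : ∀ p : Ps, (ix S N → ℤ) → (ZMod (p : ℕ))[X] := fun p c =>
    ∑ m ∈ Finset.range S, (PJ N (extJ S N c) m).map (Int.castRingHom (ZMod (p : ℕ))) *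
      hasseDeriv m (E p)
  have hP2add : ∀ p c c', P2 p (c + c') = P2 p c + P2 p c' := by
    intro p c c'
    simp only [P2, extJ_add, PJ_add, Polynomial.map_add, add_mul, Finset.sum_add_distrib]
  have hP2zero : ∀ p, P2 p 0 = 0 := by
    intro p
    simp only [P2, extJ_zero, PJ_zero, Polynomial.map_zero, zero_mul, Finset.sum_const_zero]
  let φ : ∀ p : Ps, (ix S N → ℤ) →+ V p := fun p =>
    { toFun := fun c => fun l => (P2 p c).coeff l
      map_zero' := by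
        simp only [hP2zero, coeff_zero]
        rfl
      map_add' := by
        intro c c'
        simp only [hP2add, coeff_add]
        rfl }
  let ψ : (ix S N → ℤ) →+ (Fin N × Fin (S + 1) → ℤ) :=
    { toFun := fun c => fun k =>
        ((DJ N (S + 1) : ℤ) * regF S N (extJ S N c) (k.1 : ℕ) ((k.2 : ℕ) + 1)) / (FN N : ℤ)
      map_zero' := by
        funext k
        show ((DJ N (S + 1) : ℤ) * regF S N (extJ S N 0) (k.1 : ℕ) ((k.2 : ℕ) + 1)) / (FN N : ℤ) = 0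
        rw [extJ_zero, regF_zero, mul_zero, Int.zero_ediv]
      map_add' := by
        intro c c'
        funext k
        show ((DJ N (S + 1) : ℤ) * regF S N (extJ S N (c + c')) (k.1 : ℕ) ((k.2 : ℕ) + 1)) / (FN N : ℤ) =
          ((DJ N (S + 1) : ℤ) * regF S N (extJ S N c) (k.1 : ℕ) ((k.2 : ℕ) + 1)) / (FN N : ℤ) +
          ((DJ N (S + 1) : ℤ) * regF S N (extJ S N c') (k.1 : ℕ) ((k.2 : ℕ) + 1)) / (FN N : ℤ)
        rw [extJ_add, regF_add, mul_add]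
        exact Int.add_ediv_of_dvd_left (regF_dvd _ k.1.2 (by omega)) }
  have hcardι : Fintype.card (ix S N) = 4 * S * N := by
    rw [Fintype.card_coe]
    unfold ix
    rw [Finset.card_product, Finset.card_product, Finset.card_range, Finset.card_range, Finset.card_range]
    ring
  have hψ : ∀ c : ix S N → ℤ, (∀ i, |c i| ≤ (H : ℤ)) → ∀ k, |ψ c k| ≤ ((AJ S N * H : ℕ) : ℤ) := by
    intro c hc k
    obtain ⟨z, hz1, hz2⟩ := regF_bound (S := S) (N := N) (H := H) (extJ S N c) (by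
      intro x hx
      have := hc ⟨x, hx⟩
      rw [← extJ_apply S N c ⟨x, hx⟩] at this
      exact this) (a := (k.1 : ℕ)) (i := (k.2 : ℕ) + 1) k.1.2 (by omega)
    have h1 : ψ c k = z := by
      show ((DJ N (S + 1) : ℤ) * regF S N (extJ S N c) (k.1 : ℕ) ((k.2 : ℕ) + 1)) / (FN N : ℤ) = z
      rw [hz1]
      exact Int.mul_ediv_cancel_left _ (by have := FN_pos N; positivity)
    rw [h1]
    exact hz2
  have hV : ∏ p : Ps, Nat.card (V p) ≤ (∏ p ∈ Ps, p) ^ (4 * N + x) := by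
    rw [← Finset.prod_pow]
    rw [← Finset.prod_coe_sort Ps (fun p => p ^ (4 * N + x))]
    apply Finset.prod_le_prod'
    intro p _
    have := hneZ p
    have h1 : Nat.card (V p) = (p : ℕ) ^ (4 * N + (p : ℕ)) := by
      simp only [V]
      rw [Nat.card_fun]
      simp only [Nat.card_eq_fintype_card, ZMod.card, Fintype.card_fin]
    rw [h1]
    exact Nat.pow_le_pow_right (by have := hNp p; omega) (by have := (hP p p.2).2.2.1; omega)
  have hPpos : 1 ≤ ∏ p ∈ Ps, p := Finset.one_le_prod' (fun p hp => (hP p hp).1.one_le)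
  have hApos : 1 ≤ AJ S N := by
    unfold AJ
    have := DJ_pos N (S + 1)
    exact Nat.mul_pos this (by positivity)
  have hcard : (2 * (AJ S N * H) + 1) ^ Fintype.card (Fin N × Fin (S + 1)) * ∏ p : Ps, Nat.card (V p) <
      (H + 1) ^ Fintype.card (ix S N) := by
    rw [hcardι, Fintype.card_prod, Fintype.card_fin, Fintype.card_fin]
    exact lt_of_le_of_lt (Nat.mul_le_mul_left _ hV) (card_ineq hS hN1 hx hApos hPpos hH)
  obtain ⟨c, hc0, hcH, hc, hψc⟩ := siegel_mixed (ι := ix S N) (κ := Fin N × Fin (S + 1)) Ps H (AJ S N * H)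
    V φ ψ hψ hcard
  have hREG : REG S N (extJ S N c) := by
    intro a ha i hi1 hi2
    have h1 := congrFun hψc (⟨a, ha⟩, ⟨i - 1, by omega⟩)
    have h2 : ((DJ N (S + 1) : ℤ) * regF S N (extJ S N c) a (i - 1 + 1)) / (FN N : ℤ) = 0 := h1
    have h3 : i - 1 + 1 = i := by omega
    rw [h3] at h2
    have h4 := Int.ediv_mul_cancel (regF_dvd (S := S) (extJ S N c) ha hi1)
    rw [h2, zero_mul] at h4
    have h5 : (DJ N (S + 1) : ℤ) ≠ 0 := by have := DJ_pos N (S + 1); positivity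
    exact (mul_eq_zero.mp h4.symm).resolve_left h5
  refine ⟨extJ S N c, ?_, ?_, hREG, ?_⟩
  · by_contra hcon
    push Not at hcon
    apply hc0
    funext x
    rw [← extJ_apply S N c x]
    exact hcon x x.2
  · intro x hx
    have := hcH ⟨x, hx⟩
    rw [← extJ_apply S N c ⟨x, hx⟩] at this
    exact this
  · intro p hp n hn k hk
    have hφ := hc ⟨p, hp⟩
    have : Fact p.Prime := ⟨(hP p hp).1⟩
    have hpN : N < p := (hP p hp).2.1
    obtain ⟨hE1, hE2, hE3, hE4, hE5⟩ := hE ⟨p, hp⟩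
    have hφ2 : ∀ l, l < 4 * N + p → (P2 ⟨p, hp⟩ c).coeff l = 0 := by
      intro l hl
      exact congrFun hφ ⟨l, hl⟩
    have hd2 : (P2 ⟨p, hp⟩ c).natDegree < 4 * N + p := by
      have h7 : (P2 ⟨p, hp⟩ c).natDegree ≤ 4 * N + p - 1 := by
        apply natDegree_sum_le_of_forall_le
        intro m hm
        refine natDegree_mul_le.trans ?_
        have h8 := natDegree_PJ_lt hN1 (extJ S N c) m
        have h9 : ((PJ N (extJ S N c) m).map (Int.castRingHom (ZMod p))).natDegree ≤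
          (PJ N (extJ S N c) m).natDegree := natDegree_map_le
        have h10 : (hasseDeriv m (E ⟨p, hp⟩)).natDegree ≤ (E ⟨p, hp⟩).natDegree :=
          (natDegree_hasseDeriv_le _ _).trans (Nat.sub_le _ _)
        have h11 : (E ⟨p, hp⟩).natDegree < p := hE1
        have h12 : (((PJ N (extJ S N c) m).map (Int.castRingHom (ZMod p))).natDegree +
          (hasseDeriv m (E ⟨p, hp⟩)).natDegree) ≤ 4 * N + p - 1 := by omega
        exact h12
      omega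
    have hM : P2 ⟨p, hp⟩ c = 0 := by
      ext l
      rw [coeff_zero]
      rcases Nat.lt_or_ge l (4 * N + p) with hl | hl
      · exact hφ2 l hl
      · exact coeff_eq_zero_of_natDegree_lt (lt_of_lt_of_le hd2 hl)
    exact jets_modp p S N J (extJ S N c) (LI.comb r v (lam p)) hS1 hpN (by omega) (by omega) hJ
      (E ⟨p, hp⟩) hE2 hE3 hE4
      (fun g hg => hE5 g (Finset.mem_Icc.mp hg).1
        (by have h1 := (Finset.mem_Icc.mp hg).2
            have h2 : 2 * g + 3 ≤ p := by omega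
            exact h2) _ ((hP p hp).2.2.2 g hg)) hREG hM hn hk

end MP_a3a416_nt.LJ
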