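import Pool.Agent.Lib.MP_a3a416_nt.LJ.Main
import Pool.Agent.Lib.MP_a3a416_nt.BB.FinalAux

/-!
# LJ-Count
THEOREM L*: parameters and counting.
PROOF.  `S = (2J-7)/5` (natural division), so `5S+7 ≤ 2J` and `S ≥ J/5` for `J ≥ 11`.  If `S < 12(r+1)` or `J < 60` the right side is `≥ const * x/log x ≥` number of primes `≤ x` for `C` large
(`(r+1)² ≥ (r+1)(S/12) ..`: `(r+1)² log J/J ≥ (S/12)² log J/J ≥ const > 0`; Chebyshev upper bound, `card_primes_le` in `FinalAux`).  Otherwise `main_j` bounds `∑ log p` by `C (r+1)² ((1+log S)/S) x ≤ C' (r+1)² (log J/J) x`, and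
`count_le_of_sum_log` (`BB/FinalAux.lean`: number `≤ √x + 2T/log x`) gives the count; `√x ≤ (log J/J) x/log x` for `x ≥ x₀(J)`.
-/

namespace MP_a3a416_nt.LJ

open Polynomial MP_a3a416_nt.BB

/-- `B + √x ≤ κ x/log x` for large `x`. -/
private theorem sqrt_le_aux (κ B : ℝ) (hκ : 0 < κ) (hB : 1 ≤ B) : ∃ x₀ : ℕ, ∀ x : ℕ, x₀ ≤ x →
    B + √(x : ℝ) ≤ κ * (x / Real.log x) := by
  set V : ℝ := 8 * B / κ + 2 with hV
  have hV2 : 2 ≤ V := by
    have : 0 ≤ 8 * B / κ := by positivity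
    linarith
  refine ⟨⌈V ^ 4⌉₊, fun x hx => ?_⟩
  have hxV : V ^ 4 ≤ (x : ℝ) := (Nat.le_ceil _).trans (by exact_mod_cast hx)
  have hx16 : (16 : ℝ) ≤ x := by
    have : (2 : ℝ) ^ 4 ≤ V ^ 4 := pow_le_pow_left₀ (by norm_num) hV2 4
    linarith
  set v := √(√(x : ℝ)) with hv
  have hv0 : 0 < v := Real.sqrt_pos.2 (Real.sqrt_pos.2 (by linarith))
  have hv2 : v * v = √(x : ℝ) := Real.mul_self_sqrt (Real.sqrt_nonneg _)
  have hv4 : √(x : ℝ) * √(x : ℝ) = x := Real.mul_self_sqrt (by linarith)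
  have hx4 : v ^ 4 = x := by
    calc v ^ 4 = (v * v) * (v * v) := by ring
      _ = x := by rw [hv2, hv4]
  have hlogx : Real.log x ≤ 4 * v := by
    have h2 : Real.log v = Real.log x / 4 := by
      rw [hv, Real.log_sqrt (Real.sqrt_nonneg _), Real.log_sqrt (by linarith)]; ring
    have h3 := Real.log_le_sub_one_of_pos hv0
    linarith
  have hlx : 0 < Real.log x := Real.log_pos (by linarith)
  have hvV : V ≤ v := by
    by_contra hcon
    push Not at hcon
    have h1 : v ^ 4 < V ^ 4 := pow_lt_pow_left₀ hcon hv0.le (by norm_num)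
    rw [hx4] at h1
    linarith
  have hκv : 8 * B ≤ κ * v := by
    have h1 : κ * V ≤ κ * v := mul_le_mul_of_nonneg_left hvV hκ.le
    have h2 : κ * V = 8 * B + 2 * κ := by
      rw [hV]; field_simp
    linarith
  rw [mul_div_assoc', le_div_iff₀ hlx]
  have hv1 : 1 ≤ v := by linarith
  have hBv : B ≤ B * (v * v) := by nlinarith [mul_self_nonneg (v - 1)]
  have h1 : B + √(x : ℝ) ≤ 2 * B * (v * v) := by
    rw [← hv2]
    nlinarith [mul_self_nonneg v]
  calc (B + √(x : ℝ)) * Real.log x ≤ (2 * B * (v * v)) * (4 * v) := by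
        apply mul_le_mul h1 hlogx hlx.le (by positivity)
    _ = (8 * B) * v ^ 3 := by ring
    _ ≤ (κ * v) * v ^ 3 := mul_le_mul_of_nonneg_right hκv (by positivity)
    _ = κ * v ^ 4 := by ring
    _ = κ * x := by rw [hx4]

/-- Chebyshev's upper bound for a set of primes. -/
private theorem card_primes_upper {x : ℕ} (hx : 2 ≤ x) (A : Finset ℕ) (hA : A ⊆ Finset.Icc 1 x)
    (hp : ∀ p ∈ A, p.Prime) : (A.card : ℝ) ≤ 5 * (x / Real.log x) := by
  have hx' : (2 : ℝ) ≤ x := by exact_mod_cast hx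
  have hlx : 0 < Real.log x := Real.log_pos (by linarith)
  have hT : ∑ p ∈ A, Real.log p ≤ Real.log 4 * x := by
    have h1 : ∑ p ∈ A, Real.log p ≤ Chebyshev.theta x := by
      rw [Chebyshev.theta]
      apply Finset.sum_le_sum_of_subset_of_nonneg
      · intro p hpA
        have h2 := Finset.mem_Icc.1 (hA hpA)
        rw [Finset.mem_filter, Finset.mem_Ioc, Nat.floor_natCast]
        exact ⟨⟨by omega, h2.2⟩, hp p hpA⟩
      · intro p hp' _
        have h3 := (Finset.mem_filter.1 hp').2.one_lt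
        exact Real.log_nonneg (by exact_mod_cast h3.le)
    exact h1.trans (Chebyshev.theta_le_log4_mul_x (by positivity))
  have h := count_le_of_sum_log hx A hA hT
  have hl4 : Real.log 4 ≤ 1.4 := by
    rw [show (4 : ℝ) = 2 ^ 2 by norm_num, Real.log_pow]
    have := Real.log_two_lt_d9
    push_cast
    linarith
  have hsq : √(x : ℝ) ≤ 2 * (x / Real.log x) := by
    rw [mul_div_assoc', le_div_iff₀ hlx]
    have h2 : Real.log x ≤ 2 * √(x : ℝ) := by
      have h3 : Real.log (√(x : ℝ)) = Real.log x / 2 := Real.log_sqrt (by positivity)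
      have h4 := Real.log_le_sub_one_of_pos (x := √(x : ℝ)) (Real.sqrt_pos.2 (by linarith))
      linarith
    have h5 : √(x : ℝ) * √(x : ℝ) = x := Real.mul_self_sqrt (by positivity)
    nlinarith [Real.sqrt_nonneg (x : ℝ)]
  have h6 : 2 * (Real.log 4 * x) / Real.log x = 2 * Real.log 4 * (x / Real.log x) := by ring
  rw [h6] at h
  have h7 : 0 ≤ (x : ℝ) / Real.log x := by positivity
  nlinarith

open Classical in
theorem count_j : ∃ C : ℝ, 0 < C ∧ ∀ (J r : ℕ) (v : ℕ → ℕ → ℤ), 2 ≤ J → ∃ x₀ : ℕ, ∀ x : ℕ, x₀ ≤ x →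
    (((Finset.Icc 1 x).filter (fun p : ℕ => p.Prime ∧ ∃ lam : ℕ → ℤ, Bad J r v lam p)).card : ℝ) ≤
      C * ((r + 1) ^ 2 * (Real.log J / J) * (x / Real.log x)) := by
  obtain ⟨C₁, hC₁, hmain⟩ := main_j
  refine ⟨401 + 12 * C₁, by positivity, ?_⟩
  intro J r v hJ
  have hJ' : (2 : ℝ) ≤ J := by exact_mod_cast hJ
  have hl2 := Real.log_two_gt_d9
  have hlJ : Real.log 2 ≤ Real.log J := Real.log_le_log (by norm_num) hJ'
  have hlJ0 : 0 < Real.log J := by linarith
  have hJ0 : (0 : ℝ) < J := by linarith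
  have hr0 : (0 : ℝ) ≤ r := by positivity
  set S := (2 * J - 7) / 5 with hS
  have hJS : 2 * J < 5 * S + 12 := by omega
  rcases Nat.lt_or_ge S (12 * (r + 1)) with hSr | hSr
  · -- trivial case
    refine ⟨2, fun x hx => ?_⟩
    have hx' : (2 : ℝ) ≤ x := by exact_mod_cast hx
    have hlx : 0 < Real.log x := Real.log_pos (by linarith)
    refine (card_primes_upper hx _ (Finset.filter_subset _ _)
      (fun p hp => (Finset.mem_filter.1 hp).2.1)).trans ?_
    have h1' : J ≤ 50 * (r + 1) := by omega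
    have h1 : (J : ℝ) ≤ 50 * (r + 1) := by exact_mod_cast h1'
    have h2 : 1 ≤ 80 * (((r : ℝ) + 1) ^ 2 * (Real.log J / J)) := by
      rw [mul_div_assoc', mul_div_assoc', le_div_iff₀ hJ0]
      have h3 : (0 : ℝ) ≤ (r + 1) ^ 2 := by positivity
      have h4 : ((r : ℝ) + 1) ≤ (r + 1) ^ 2 := by nlinarith
      have h5 : ((r : ℝ) + 1) ^ 2 * (5/8) ≤ (r + 1) ^ 2 * Real.log J :=
        mul_le_mul_of_nonneg_left (by linarith) h3
      linarith
    have h3 : 0 ≤ (x : ℝ) / Real.log x := by positivity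
    have h4 : 0 ≤ ((r : ℝ) + 1) ^ 2 * (Real.log J / J) := by positivity
    calc 5 * ((x : ℝ) / Real.log x) ≤ 5 * ((x : ℝ) / Real.log x) *
          (80 * ((r + 1) ^ 2 * (Real.log J / J))) := le_mul_of_one_le_right (by positivity) h2
      _ = 400 * ((r + 1) ^ 2 * (Real.log J / J) * (x / Real.log x)) := by ring
      _ ≤ (401 + 12 * C₁) * ((r + 1) ^ 2 * (Real.log J / J) * (x / Real.log x)) := by
          apply mul_le_mul_of_nonneg_right _ (by positivity)
          linarith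
  · -- main case
    have hS12 : 12 ≤ S := by nlinarith
    have hSJ : 5 * S + 7 ≤ 2 * J := by omega
    obtain ⟨x₁, hx₁⟩ := hmain S J r v hSr hSJ
    obtain ⟨x₂, hx₂⟩ := sqrt_le_aux (Real.log J / J) 1 (by positivity) le_rfl
    refine ⟨max 2 (max x₁ x₂), fun x hx => ?_⟩
    have hx2 : 2 ≤ x := (le_max_left _ _).trans hx
    have hxx₁ : x₁ ≤ x := ((le_max_left _ _).trans (le_max_right _ _)).trans hx
    have hxx₂ : x₂ ≤ x := ((le_max_right _ _).trans (le_max_right _ _)).trans hx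
    have hx' : (2 : ℝ) ≤ x := by exact_mod_cast hx2
    have hlx : 0 < Real.log x := Real.log_pos (by linarith)
    have hcount := count_le_of_sum_log hx2 _ (Finset.filter_subset _ _) (hx₁ x hxx₁)
    have h1 := hx₂ x hxx₂
    have hS12' : (12 : ℝ) ≤ S := by exact_mod_cast hS12
    have hJS' : 2 * (J : ℝ) ≤ 5 * S + 12 := by exact_mod_cast hJS.le
    have hSJ' : 5 * (S : ℝ) + 7 ≤ 2 * J := by exact_mod_cast hSJ
    have hlS : (1 + Real.log S) / S ≤ 6 * (Real.log J / J) := by
      have h2 : 1 + Real.log S ≤ 2 * Real.log J := by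
        have h3 : Real.log (2 * S) ≤ Real.log J := Real.log_le_log (by linarith) (by linarith)
        rw [Real.log_mul (by norm_num) (by linarith)] at h3
        linarith
      have h5 : (J : ℝ) ≤ 3 * S := by linarith
      rw [mul_div_assoc', div_le_div_iff₀ (by linarith) hJ0]
      calc (1 + Real.log S) * (J : ℝ) ≤ (2 * Real.log J) * (3 * S) :=
            mul_le_mul h2 h5 hJ0.le (by positivity)
        _ = 6 * Real.log J * S := by ring
    have h2 : 2 * (C₁ * ((r + 1) ^ 2 * ((1 + Real.log S) / S) * x)) / Real.log x ≤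
        12 * C₁ * ((r + 1) ^ 2 * (Real.log J / J) * (x / Real.log x)) := by
      have h3 : 2 * (C₁ * (((r : ℝ) + 1) ^ 2 * ((1 + Real.log S) / S) * x)) / Real.log x =
          2 * C₁ * (r + 1) ^ 2 * (x / Real.log x) * ((1 + Real.log S) / S) := by ring
      rw [h3]
      calc 2 * C₁ * ((r : ℝ) + 1) ^ 2 * (x / Real.log x) * ((1 + Real.log S) / S)
          ≤ 2 * C₁ * ((r : ℝ) + 1) ^ 2 * (x / Real.log x) * (6 * (Real.log J / J)) :=
            mul_le_mul_of_nonneg_left hlS (by positivity)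
        _ = 12 * C₁ * ((r + 1) ^ 2 * (Real.log J / J) * (x / Real.log x)) := by ring
    have h4 : Real.log J / J * (x / Real.log x) ≤
        (r + 1) ^ 2 * (Real.log J / J) * (x / Real.log x) := by
      have h5 : (1 : ℝ) ≤ (r + 1) ^ 2 := by nlinarith
      have h6 : 0 ≤ Real.log J / J * (x / Real.log x) := by positivity
      nlinarith
    have h5 : 0 ≤ ((r : ℝ) + 1) ^ 2 * (Real.log J / J) * (x / Real.log x) := by positivity
    nlinarith

end MP_a3a416_nt.LJ
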