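import Pool.Agent.Lib.MP_a3a416_nt.BB.Defs
import Pool.Agent.Lib.MP_a3a416_nt.LI.DivDiffZ
import Pool.Agent.Lib.MP_a3a416_nt.LI.Defs

/-!
# LJ-Defs
Theorem L* (helper54, notes BB54_linear_independence.md v2): auxiliary polynomials `P_m`, `m < S`, of degree `< 4N`, paired with the
Hasse derivatives `E^[m]` of the polynomial `E`; everything scaled by `FN N = N!^4`.
-/

namespace MP_a3a416_nt.LJ

open Polynomial MP_a3a416_nt.BB

/-- Index set of the unknown coefficients `(m, a, i)`: `m < S`, `a < 4`, `i < N`. -/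
def ix (S N : ℕ) : Finset (ℕ × ℕ × ℕ) :=
  Finset.range S ×ˢ (Finset.range 4 ×ˢ Finset.range N)

/-- basis polynomial `(X(X-1)..(X-N+1))^a * X(X-1)..(X-i+1)`, degree `aN + i`. -/
noncomputable def bs (N a i : ℕ) : ℤ[X] :=
  prodLin 1 0 (Finset.range N) ^ a * prodLin 1 0 (Finset.range i)

/-- the basis polynomial at `X = n + t`. -/
noncomputable def bsL (N n a i : ℕ) : ℤ[X] :=
  prodLin 1 n (Finset.range N) ^ a * prodLin 1 n (Finset.range i)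

/-- the denominator of the basis polynomial. -/
def dJ (N a i : ℕ) : ℕ := Nat.factorial N ^ a * Nat.factorial i

/-- a common multiple of all `dJ N a i`, `a < 4`, `i < N`. -/
def FN (N : ℕ) : ℕ := Nat.factorial N ^ 4

/-- `P_m` times `FN`. -/
noncomputable def PJ (N : ℕ) (c : ℕ × ℕ × ℕ → ℤ) (m : ℕ) : ℤ[X] :=
  ∑ a ∈ Finset.range 4, ∑ i ∈ Finset.range N,
    C (c (m, a, i) * ((FN N / dJ N a i : ℕ) : ℤ)) * bs N a i

/-- `Q_a` times `FN`: the sum of the divided differences `(-1)^m (m+1) (P_m)_{(m+2)}` at the point `a`. -/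
noncomputable def QJ (S N : ℕ) (c : ℕ × ℕ × ℕ → ℤ) (a : ℤ) : ℤ[X] :=
  ∑ m ∈ Finset.range S, C ((-1) ^ m * ((m : ℤ) + 1)) * LI.dq a (m + 2) (PJ N c m)

/-- `r_n(t)` times `FN`: `∑_{a<n} (n-a) Q_a(n+t)`. -/
noncomputable def rJ (S N : ℕ) (c : ℕ × ℕ × ℕ → ℤ) (n : ℕ) : ℤ[X] :=
  ∑ a ∈ Finset.range n, C ((n : ℤ) - a) * taylor (n : ℤ) (QJ S N c a)

/-- `φ_w(t) = ∑_{1≤g≤J} w_g t^{2g}`. -/
noncomputable def phiJ (J : ℕ) (w : ℕ → ℤ) : ℤ[X] := ∑ g ∈ Finset.Icc 1 J, C (w g) * X ^ (2 * g)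

/-- `∑_m P_m(n+t) φ_w^[m](t)` times `FN`. -/
noncomputable def sJ (S N J : ℕ) (c : ℕ × ℕ × ℕ → ℤ) (w : ℕ → ℤ) (n : ℕ) : ℤ[X] :=
  ∑ m ∈ Finset.range S, taylor (n : ℤ) (PJ N c m) * hasseDeriv m (phiJ J w)

/-- the linear form `(a,i)` of the joint pole cancellation. -/
noncomputable def regF (S N : ℕ) (c : ℕ × ℕ × ℕ → ℤ) (a i : ℕ) : ℤ :=
  ∑ m ∈ Finset.range S, if i ≤ m + 2 then
    (-1) ^ m * ((m : ℤ) + 1) * (taylor (a : ℤ) (PJ N c m)).coeff (m + 2 - i) else 0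

/-- joint pole cancellation: `∑_m (-1)^m (m+1) P_m (X-a)^(-2-m)` is a polynomial for all `a < N`. -/
def REG (S N : ℕ) (c : ℕ × ℕ × ℕ → ℤ) : Prop :=
  ∀ a < N, ∀ i, 1 ≤ i → i ≤ S + 1 → regF S N c a i = 0

/-- common denominator. -/
def DJ (N K : ℕ) : ℕ := ∏ u ∈ Finset.Icc 1 K, Nat.lcmUpto (4 * N / u)

/-- size of the linear forms `regF` (see `RegForm`). -/
def AJ (S N : ℕ) : ℕ := DJ N (S + 1) * (S ^ 2 * (4 * N) * 2 ^ N)

/-- size of the jets. -/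
def EJ (S N : ℕ) : ℕ := DJ N (5 * S + 11) * (S * (4 * S + 10) * (4 * N ^ 2) * 2 ^ N * 4 ^ (5 * S + 10))

/-- Hasse derivative of a power series. -/
noncomputable def hD (m : ℕ) (f : PowerSeries ℚ) : PowerSeries ℚ :=
  PowerSeries.mk (fun k => ((k + m).choose m : ℚ) * PowerSeries.coeff (k + m) f)

/-- `b(p)` lies modulo `p` in the affine space `v 0 + ⟨v 1, …, v r⟩`: `B_{p-1-2g} ≡ (comb r v lam) g` for all `1 ≤ g ≤ J`. -/
def Bad (J r : ℕ) (v : ℕ → ℕ → ℤ) (lam : ℕ → ℤ) (p : ℕ) : Prop :=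
  ∀ g ∈ Finset.Icc 1 J, (p : ℤ) ∣ (_root_.bernoulli (p - 1 - 2 * g) - ((LI.comb r v lam g : ℤ) : ℚ)).num

end MP_a3a416_nt.LJ
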