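import Pool.Agent.Lib.MP_a3a416_nt.LI.RelMod
import Pool.Agent.Lib.MP_a3a416_nt.LJ.Count

/-!
# LJ-Dim
THE DIMENSION BOUND.
PROOF.  Let `D = finrank (ℚ^(J+1)/Rel J)` and `v` of `LI.exists_comb`.  All but `ε x/log x` of the primes `p ≤ x` have a `lam` with `Bad J D v lam p`; by `count_j` these are at most `C (D+1)² (log J/J) x/log x`.
The number of primes `≤ x` is `≥ (1/4) x/log x` for large `x` (`BB.primeCounting_ge` in `FinalAux.lean`).  So `1/4 - ε ≤ C (D+1)² log J/J`, i.e. `D + 1 ≥ c' √(J/log J)`, and `D ≥ 1` (`e_0` is not a relation: `relVal = 1`,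
so the quotient is `≠ 0`), hence `D ≥ (D+1)/2`.
-/

namespace MP_a3a416_nt.LJ

open Polynomial MP_a3a416_nt.BB

private theorem card_primes_ge {x : ℕ} (hx : 16 ≤ x) :
    (1 / 4) * ((x : ℝ) / Real.log x) ≤ (((Finset.Icc 1 x).filter (fun p : ℕ => p.Prime)).card : ℝ) := by
  have h1 := primeCounting_ge hx
  have h2 : Nat.primeCounting x = ((Finset.Icc 1 x).filter (fun p : ℕ => p.Prime)).card := by
    rw [Nat.primeCounting, Nat.primeCounting', Nat.count_eq_card_filter_range]
    congr 1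
    ext p
    rw [Finset.mem_filter, Finset.mem_filter, Finset.mem_range, Finset.mem_Icc]
    constructor
    · rintro ⟨h, hp⟩
      exact ⟨⟨hp.one_lt.le, by omega⟩, hp⟩
    · rintro ⟨h, hp⟩
      exact ⟨by omega, hp⟩
  rw [h2] at h1
  linarith

private theorem single_not_rel (J : ℕ) : (Pi.single 0 1 : Fin (J+1) → ℚ) ∉ LI.Rel J := by
  intro h
  have h1 : LI.IsRel J (Pi.single 0 1 : Fin (J+1) → ℚ) := h
  have hval : ∀ p : ℕ, LI.relVal J (Pi.single 0 1 : Fin (J+1) → ℚ) p = 1 := by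
    intro p
    unfold LI.relVal
    rw [Pi.single_eq_same, Finset.sum_eq_zero, add_zero]
    intro g _
    rw [Pi.single_eq_of_ne (Fin.succ_ne_zero g), zero_mul]
  obtain ⟨x₀, hx₀⟩ := h1 (1 / 8) (by norm_num)
  have h2 := hx₀ (max 16 x₀) (le_max_right _ _)
  have hx16 : 16 ≤ max 16 x₀ := le_max_left _ _
  generalize max 16 x₀ = x at h2 hx16
  have h3 := card_primes_ge hx16
  have h4 : (Finset.Icc 1 x).filter (fun p : ℕ => p.Prime ∧
      ¬ (p : ℤ) ∣ (LI.relVal J (Pi.single 0 1 : Fin (J+1) → ℚ) p).num) =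
      (Finset.Icc 1 x).filter (fun p : ℕ => p.Prime) := by
    apply Finset.filter_congr
    intro p _
    rw [hval p]
    constructor
    · exact fun h => h.1
    · intro hp
      refine ⟨hp, ?_⟩
      intro hdvd
      have h5 : (p : ℤ) ∣ 1 := by simpa using hdvd
      have h6 : p ∣ 1 := by exact_mod_cast h5
      exact hp.one_lt.ne' (Nat.dvd_one.1 h6)
  rw [h4] at h2
  have hx' : (16 : ℝ) ≤ x := by exact_mod_cast hx16
  have hlx : 0 < Real.log x := Real.log_pos (by linarith)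
  have h5 : 0 < (x : ℝ) / Real.log x := by positivity
  linarith

theorem dimension_j : ∃ c : ℝ, 0 < c ∧ ∀ J : ℕ, 2 ≤ J →
    c * √(J / Real.log J) ≤ (Module.finrank ℚ ((Fin (J + 1) → ℚ) ⧸ LI.Rel J) : ℝ) := by
  obtain ⟨C, hC, hcount⟩ := count_j
  have hs : 0 < √(32 * C) := Real.sqrt_pos.2 (by positivity)
  refine ⟨1 / √(32 * C), by positivity, ?_⟩
  intro J hJ
  have hJ' : (2 : ℝ) ≤ J := by exact_mod_cast hJ
  have hJ0 : (0 : ℝ) < J := by linarith
  have hlJ : 0 < Real.log J := Real.log_pos (by linarith)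
  obtain ⟨v, hv⟩ := LI.exists_comb J
  set r := Module.finrank ℚ ((Fin (J+1) → ℚ) ⧸ LI.Rel J) with hr
  have hr1 : 1 ≤ r := by
    have hne : LI.Rel J ≠ ⊤ := by
      intro h
      apply single_not_rel J
      rw [h]
      trivial
    have : Nontrivial ((Fin (J+1) → ℚ) ⧸ LI.Rel J) := Submodule.Quotient.nontrivial_iff.2 hne
    exact Module.finrank_pos
  have hr1' : (1 : ℝ) ≤ r := by exact_mod_cast hr1
  obtain ⟨x₁, hx₁⟩ := hv (1 / 8) (by norm_num)
  obtain ⟨x₂, hx₂⟩ := hcount J r v hJ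
  have key : 1 / 8 ≤ C * ((r + 1) ^ 2 * (Real.log J / J)) := by
    set x := max 16 (max x₁ x₂) with hx
    have hx16 : 16 ≤ x := le_max_left _ _
    have hxx₁ : x₁ ≤ x := (le_max_left _ _).trans (le_max_right _ _)
    have hxx₂ : x₂ ≤ x := (le_max_right _ _).trans (le_max_right _ _)
    have hx' : (16 : ℝ) ≤ x := by exact_mod_cast hx16
    have hlx : 0 < Real.log x := Real.log_pos (by linarith)
    have hX : 0 < (x : ℝ) / Real.log x := by positivity
    have h1 := hx₁ x hxx₁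
    have h2 := hx₂ x hxx₂
    have h3 := card_primes_ge hx16
    have h4 : (open Classical in ((Finset.Icc 1 x).filter (fun p : ℕ => p.Prime ∧ ∃ lam : ℕ → ℤ,
        ∀ g ∈ Finset.Icc 1 J, (p : ℤ) ∣ (_root_.bernoulli (p - 1 - 2 * g) -
          ((LI.comb r v lam g : ℤ) : ℚ)).num)).card : ℝ) ≤
        (open Classical in ((Finset.Icc 1 x).filter (fun p : ℕ => p.Prime ∧
          ∃ lam : ℕ → ℤ, Bad J r v lam p)).card : ℝ) := by
      classical
      norm_cast
    have h6 : (1 / 8) * ((x : ℝ) / Real.log x) ≤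
        (C * ((r + 1) ^ 2 * (Real.log J / J))) * (x / Real.log x) := by
      have h7 : C * (((r : ℝ) + 1) ^ 2 * (Real.log J / J) * (x / Real.log x)) =
          (C * ((r + 1) ^ 2 * (Real.log J / J))) * (x / Real.log x) := by ring
      rw [h7] at h2
      linarith
    exact le_of_mul_le_mul_right h6 hX
  have hs2 : √(32 * C) ^ 2 = 32 * C := Real.sq_sqrt (by positivity)
  have hJl : √((J : ℝ) / Real.log J) ^ 2 = J / Real.log J := Real.sq_sqrt (by positivity)
  have h1 : 1 / √(32 * C) * √(J / Real.log J) ≤ ((r : ℝ) + 1) / 2 := by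
    rw [← pow_le_pow_iff_left₀ (by positivity) (by positivity) (two_ne_zero)]
    rw [mul_pow, div_pow, div_pow, hJl, hs2, one_pow]
    rw [mul_div_assoc', mul_div_assoc', le_div_iff₀ hJ0] at key
    rw [one_div, inv_mul_eq_div, div_div, div_le_div_iff₀ (by positivity) (by norm_num)]
    linarith
  linarith

end MP_a3a416_nt.LJ
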