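import Pool.Agent.Lib.MP_a3a416_nt.LJ.Theta

/-!
# LJ-Main
PROOF.  Given `x` large put `N = ⌈3(r+1)x/S⌉₊`, so `3(r+1)x ≤ SN` and `N ≤ 3(r+1)x/S + 1 ≤ 4(r+1)x/S`; primes `p ≤ N` contribute at most `θ(N) ≤ log 4 * N`
(`Chebyshev.theta_le_log4_mul_x`), the others `≤ C (r+1) N (1+log S)` (`theta_j`).  Total `≤ C' (r+1) N (1+log S) ≤ 4C' (r+1)² x (1+log S)/S`.
-/

namespace MP_a3a416_nt.LJ

open Polynomial MP_a3a416_nt.BB

open Classical in
theorem main_j : ∃ C : ℝ, 0 < C ∧ ∀ (S J r : ℕ) (v : ℕ → ℕ → ℤ), 12 * (r + 1) ≤ S → 5 * S + 7 ≤ 2 * J →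
    ∃ x₀ : ℕ, ∀ x : ℕ, x₀ ≤ x →
    ∑ p ∈ (Finset.Icc 1 x).filter (fun p : ℕ => p.Prime ∧ ∃ lam : ℕ → ℤ, Bad J r v lam p), Real.log p ≤
      C * ((r + 1) ^ 2 * ((1 + Real.log S) / S) * x) := by
  obtain ⟨C, hC, hth⟩ := theta_j
  refine ⟨4 * (2 + C), by positivity, ?_⟩
  intro S J r v hS hJ
  obtain ⟨N₀, hN₀⟩ := hth S J r v hS hJ
  refine ⟨S * (N₀ + 1), fun x hx => ?_⟩
  have hS1 : 1 ≤ S := by omega
  have hS' : (1 : ℝ) ≤ S := by exact_mod_cast hS1
  have hlS : 0 ≤ Real.log S := Real.log_nonneg hS'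
  set N := 3 * (r + 1) * x / S + 1 with hN
  have hN1 : 3 * (r + 1) * x ≤ S * N := by
    have h1 := Nat.lt_mul_div_succ (3 * (r + 1) * x) (by omega : 0 < S)
    exact h1.le
  have hxS : S ≤ x := (Nat.le_mul_of_pos_right S (by omega)).trans hx
  have hNN : N₀ ≤ N := by
    have h1 : N₀ ≤ 3 * (r + 1) * x / S := by
      rw [Nat.le_div_iff_mul_le (by omega)]
      calc N₀ * S ≤ S * (N₀ + 1) := by nlinarith
        _ ≤ x := hx
        _ ≤ 3 * (r + 1) * x := by nlinarith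
    omega
  have hN2 : (N : ℝ) ≤ 4 * ((r + 1) * (x / S)) := by
    have h1 : ((3 * (r + 1) * x / S : ℕ) : ℝ) ≤ ((3 * (r + 1) * x : ℕ) : ℝ) / S := Nat.cast_div_le
    have h2 : (1 : ℝ) ≤ x / S := by
      rw [one_le_div (by linarith)]
      exact_mod_cast hxS
    have h3 : (0 : ℝ) ≤ r := by positivity
    rw [hN]
    push_cast at h1 ⊢
    have h4 : (3 : ℝ) * (r + 1) * x / S = 3 * ((r + 1) * (x / S)) := by ring
    rw [h4] at h1
    nlinarith
  have hsplit : ∑ p ∈ (Finset.Icc 1 x).filter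
      (fun p : ℕ => p.Prime ∧ ∃ lam : ℕ → ℤ, Bad J r v lam p), Real.log p ≤
      ∑ p ∈ (Finset.Icc 1 N).filter (fun p : ℕ => p.Prime), Real.log p +
      ∑ p ∈ (Finset.Icc (N + 1) x).filter
        (fun p : ℕ => p.Prime ∧ ∃ lam : ℕ → ℤ, Bad J r v lam p), Real.log p := by
    have hdisj : Disjoint ((Finset.Icc 1 N).filter (fun p : ℕ => p.Prime))
        ((Finset.Icc (N + 1) x).filter
          (fun p : ℕ => p.Prime ∧ ∃ lam : ℕ → ℤ, Bad J r v lam p)) := by
      rw [Finset.disjoint_left]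
      intro p hp hp'
      rw [Finset.mem_filter, Finset.mem_Icc] at hp hp'
      omega
    rw [← Finset.sum_union hdisj]
    apply Finset.sum_le_sum_of_subset_of_nonneg
    · intro p hp
      rw [Finset.mem_filter, Finset.mem_Icc] at hp
      rw [Finset.mem_union, Finset.mem_filter, Finset.mem_filter, Finset.mem_Icc, Finset.mem_Icc]
      by_cases h : p ≤ N
      · exact Or.inl ⟨⟨hp.1.1, h⟩, hp.2.1⟩
      · exact Or.inr ⟨⟨by omega, hp.1.2⟩, hp.2⟩
    · intro p hp _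
      have h1 : 1 < p := by
        rw [Finset.mem_union, Finset.mem_filter, Finset.mem_filter] at hp
        rcases hp with h | h
        · exact h.2.one_lt
        · exact h.2.1.one_lt
      exact Real.log_nonneg (by exact_mod_cast h1.le)
  have hA : ∑ p ∈ (Finset.Icc 1 N).filter (fun p : ℕ => p.Prime), Real.log p ≤ 2 * N := by
    have h1 : ∑ p ∈ (Finset.Icc 1 N).filter (fun p : ℕ => p.Prime), Real.log p ≤
        Chebyshev.theta N := by
      rw [Chebyshev.theta, Nat.floor_natCast]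
      apply le_of_eq
      apply Finset.sum_congr _ (fun _ _ => rfl)
      ext p
      rw [Finset.mem_filter, Finset.mem_filter, Finset.mem_Icc, Finset.mem_Ioc]
      rfl
    have h2 : Chebyshev.theta N ≤ Real.log 4 * N := Chebyshev.theta_le_log4_mul_x (by positivity)
    have hl4 : Real.log 4 ≤ 2 := by
      rw [show (4 : ℝ) = 2 ^ 2 by norm_num, Real.log_pow]
      have := Real.log_two_lt_d9
      push_cast
      linarith
    have h3 : (0 : ℝ) ≤ N := by positivity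
    nlinarith
  have hB := hN₀ N hNN x hN1
  have h1 : 2 * (N : ℝ) ≤ 2 * ((r + 1) * (N * (1 + Real.log S))) := by
    have h2 : (1 : ℝ) ≤ (r + 1) * (1 + Real.log S) := by
      have h3 : (0 : ℝ) ≤ r := by positivity
      nlinarith
    have h4 : (0 : ℝ) ≤ N := by positivity
    nlinarith
  calc ∑ p ∈ (Finset.Icc 1 x).filter
        (fun p : ℕ => p.Prime ∧ ∃ lam : ℕ → ℤ, Bad J r v lam p), Real.log p
      ≤ 2 * ((r + 1) * (N * (1 + Real.log S))) + C * ((r + 1) * (N * (1 + Real.log S))) := by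
        linarith
    _ = (2 + C) * ((r + 1) * (1 + Real.log S)) * N := by ring
    _ ≤ (2 + C) * ((r + 1) * (1 + Real.log S)) * (4 * ((r + 1) * (x / S))) :=
        mul_le_mul_of_nonneg_left hN2 (by positivity)
    _ = 4 * (2 + C) * ((r + 1) ^ 2 * ((1 + Real.log S) / S) * x) := by ring

end MP_a3a416_nt.LJ
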