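import Pool.Agent.Lib.MP_a3a416_nt.LJ.ZeroG

/-!
# LJ-Zero
Zero estimate with one pole (helper32).  PROOF: BB54_linear_independence.md section 6 = simple case of `BBZ` (files BB/Z*.lean): vectors `(P_0', P_1', (P_m)_{m<S})`,
`F_n(P) = P_0'(n+t) + n P_1'(n+t) + ∑_m P_m(n+t) h m n`, `τ P` has `F_n(τP) = (n+1+t)^(S+1) F_{n+1}(P)`; a `Φ`-stable subspace contains `e_0` or `e_1 + (c-x) e_0` (`s g - g` has a single pole: impossible); Cramer, count.
-/

namespace MP_a3a416_nt.LJ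

open Polynomial

/-- a pole of order `e` -/
theorem pole_dvd {x : ℚ} {p : ℚ[X]} {e : ℕ}
    (h : BBZ.Reg x (algebraMap ℚ[X] (RatFunc ℚ) p / (algebraMap ℚ[X] (RatFunc ℚ) (X - C x)) ^ e)) :
    (X - C x) ^ e ∣ p := by
  obtain ⟨a, b, hb, h1⟩ := h
  have hX : algebraMap ℚ[X] (RatFunc ℚ) (X - C x) ≠ 0 := by
    intro h
    exact X_sub_C_ne_zero x ((map_eq_zero_iff _ (RatFunc.algebraMap_injective ℚ)).1 h)
  have h2 : algebraMap ℚ[X] (RatFunc ℚ) (p * b)
      = algebraMap ℚ[X] (RatFunc ℚ) (a * (X - C x) ^ e) := by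
    rw [map_mul, map_mul, map_pow, ← h1]
    field_simp
  have h3 : p * b = a * (X - C x) ^ e := RatFunc.algebraMap_injective ℚ h2
  have h4 : IsCoprime ((X - C x) ^ e) b := by
    refine IsCoprime.pow_left ?_
    rw [(irreducible_X_sub_C x).coprime_iff_not_dvd, dvd_iff_isRoot]
    exact hb
  exact h4.dvd_of_dvd_mul_right ⟨a, by rw [h3, mul_comm]⟩

/-- `(x+1)^(S+1)` -/
noncomputable def zL (S : ℕ) : ℚ[X] := (X + C 1) ^ (S + 1)

/-- `(-1)^m (m+1) (x+1)^(S-1-m)` -/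
noncomputable def zA (S m : ℕ) : ℚ[X] := C ((-1) ^ m * ((m : ℚ) + 1)) * (X + C 1) ^ (S - 1 - m)

theorem zL_ne_zero (S : ℕ) : zL S ≠ 0 := pow_ne_zero _ (X_add_C_ne_zero 1)

theorem zL_natDegree (S : ℕ) : (zL S).natDegree ≤ S + 1 := by
  unfold zL
  rw [natDegree_pow, natDegree_X_add_C, mul_one]

theorem zA_natDegree' (S m : ℕ) : (zA S m).natDegree ≤ S - 1 - m := by
  unfold zA
  refine (natDegree_C_mul_le _ _).trans ?_
  rw [natDegree_pow, natDegree_X_add_C, mul_one]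

theorem tel_sh (g F : RatFunc ℚ) (h : BBZ.sh g - g = F) (N : ℕ) :
    BBZ.sh^[N] g - g = ∑ m ∈ Finset.range N, BBZ.sh^[m] F := by
  induction N with
  | zero => simp
  | succ N ih =>
    rw [Finset.sum_range_succ, ← ih, ← h]
    have h1 : BBZ.sh^[N] (BBZ.sh g - g) = BBZ.sh^[N + 1] g - BBZ.sh^[N] g := by
      rw [← RingHom.coe_pow, map_sub, RingHom.coe_pow, Function.iterate_succ_apply]
    rw [h1]
    ring

theorem poleHyp (S : ℕ) : PoleHyp S (zL S) (zA S) := by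
  intro c g hg
  set p : ℚ[X] := ∑ d ∈ Finset.range S, C (c d) * zA S d with hp
  have hF : BBZ.sh g - g = algebraMap ℚ[X] (RatFunc ℚ) p / algebraMap ℚ[X] (RatFunc ℚ) (zL S) := by
    rw [hg, hp, map_sum, Finset.sum_div]
    refine Finset.sum_congr rfl (fun d _ => ?_)
    unfold qK
    rw [map_mul, mul_div_assoc]
  -- far away point
  obtain ⟨M0, hM⟩ := BBZ.Reg.eventually (-1 : ℚ) g
  obtain ⟨M, hMM⟩ : ∃ M, M = M0 + 1 := ⟨_, rfl⟩
  obtain ⟨hM1, hM2⟩ := hM M (by omega)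
  obtain ⟨x0, hx0⟩ : ∃ x0 : ℚ, x0 = -1 - M := ⟨_, rfl⟩
  have hleft : BBZ.Reg x0 (BBZ.sh^[2 * M] g - g) := by
    rw [sub_eq_add_neg]
    refine BBZ.Reg.add (BBZ.Reg.iterate _ ?_) (BBZ.Reg.neg (hx0 ▸ hM2))
    have h1 : x0 + ((2 * M : ℕ) : ℚ) = -1 + M := by
      rw [hx0]; push_cast; ring
    rw [h1]
    exact hM1
  rw [tel_sh g _ hF (2 * M)] at hleft
  have hterm : ∀ j : ℕ, BBZ.sh^[j] (algebraMap ℚ[X] (RatFunc ℚ) p / algebraMap ℚ[X] (RatFunc ℚ) (zL S))
      = algebraMap ℚ[X] (RatFunc ℚ) (taylor (j : ℚ) p) /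
        (algebraMap ℚ[X] (RatFunc ℚ) (X - C (-1 - (j : ℚ)))) ^ (S + 1) := by
    intro j
    rw [← RingHom.coe_pow, map_div₀]
    simp only [RingHom.coe_pow, BBZ.sh_iterate]
    congr 1
    rw [← map_pow]
    congr 1
    unfold zL
    rw [taylor_pow, map_add, taylor_X, taylor_C]
    congr 1
    rw [C_sub, C_neg, C_1]
    ring
  have hother : ∀ j : ℕ, j ≠ M → BBZ.Reg x0 (BBZ.sh^[j]
      (algebraMap ℚ[X] (RatFunc ℚ) p / algebraMap ℚ[X] (RatFunc ℚ) (zL S))) := by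
    intro j hj
    rw [hterm, div_eq_mul_inv, ← map_pow]
    refine BBZ.Reg.mul (BBZ.Reg.poly _ _) (BBZ.Reg.inv ?_)
    rw [eval_pow, eval_sub, eval_X, eval_C, hx0]
    refine pow_ne_zero _ ?_
    have : (-1 - (M : ℚ) - (-1 - (j : ℚ))) = (j : ℚ) - M := by ring
    rw [this, sub_ne_zero]
    exact_mod_cast hj
  have hmain : BBZ.Reg x0 (BBZ.sh^[M]
      (algebraMap ℚ[X] (RatFunc ℚ) p / algebraMap ℚ[X] (RatFunc ℚ) (zL S))) := by
    have h1 : BBZ.sh^[M] (algebraMap ℚ[X] (RatFunc ℚ) p / algebraMap ℚ[X] (RatFunc ℚ) (zL S))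
        = (∑ j ∈ Finset.range (2 * M), BBZ.sh^[j]
            (algebraMap ℚ[X] (RatFunc ℚ) p / algebraMap ℚ[X] (RatFunc ℚ) (zL S)))
          + -(∑ j ∈ (Finset.range (2 * M)).erase M, BBZ.sh^[j]
            (algebraMap ℚ[X] (RatFunc ℚ) p / algebraMap ℚ[X] (RatFunc ℚ) (zL S))) := by
      rw [← Finset.add_sum_erase _ _ (Finset.mem_range.2 (by omega : M < 2 * M))]
      ring
    rw [h1]
    refine BBZ.Reg.add hleft (BBZ.Reg.neg (BBZ.Reg.sum _ _ (fun j hj => ?_)))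
    exact hother j (Finset.ne_of_mem_erase hj)
  rw [hterm M, ← hx0] at hmain
  have hdvd := pole_dvd hmain
  have hpdeg : p.natDegree ≤ S - 1 := by
    rw [hp]
    refine natDegree_sum_le_of_forall_le _ _ (fun d _ => ?_)
    refine (natDegree_C_mul_le _ _).trans ((zA_natDegree' S d).trans (by omega))
  have hp0 : p = 0 := by
    by_contra hne
    have h1 : taylor (M : ℚ) p ≠ 0 := fun h => hne (taylor_injective (M : ℚ) (by rw [h, map_zero]))
    have h2 := natDegree_le_of_dvd hdvd h1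
    rw [natDegree_pow, natDegree_X_sub_C, mul_one, natDegree_taylor] at h2
    omega
  intro m hm
  have h1 : taylor (-1 : ℚ) p = ∑ d ∈ Finset.range S,
      C (c d * ((-1) ^ d * ((d : ℚ) + 1))) * X ^ (S - 1 - d) := by
    rw [hp, map_sum]
    refine Finset.sum_congr rfl (fun d _ => ?_)
    unfold zA
    rw [taylor_mul, taylor_C, taylor_mul, taylor_C, taylor_pow, map_add, taylor_X, taylor_C]
    rw [C_mul (a := c d), mul_assoc]
    congr 3
    rw [C_neg]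
    ring
  rw [hp0, map_zero] at h1
  have h2 := congrArg (fun q : ℚ[X] => q.coeff (S - 1 - m)) h1
  simp only [coeff_zero, finsetSum_coeff, coeff_C_mul, coeff_X_pow] at h2
  rw [Finset.sum_eq_single m] at h2
  · rw [if_pos rfl, mul_one] at h2
    have h3 : ((-1 : ℚ) ^ m * ((m : ℚ) + 1)) ≠ 0 := by
      refine mul_ne_zero (pow_ne_zero _ (by norm_num)) (by positivity)
    rcases mul_eq_zero.1 h2.symm with h4 | h4
    · exact h4
    · exact absurd h4 h3
  · intro d hd hdm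
    rw [Finset.mem_range] at hd
    rw [if_neg (by omega), mul_zero]
  · intro h
    exact absurd (Finset.mem_range.2 hm) h

theorem zeroEst (S N T D : ℕ) (h : ℕ → ℕ → PowerSeries ℚ)
    (hh : ∀ m < S, ∀ n : ℕ, (PowerSeries.X + PowerSeries.C ((n : ℚ) + 1)) ^ (m + 2) * (h m (n + 1) - h m n) =
      PowerSeries.C (((n : ℚ) + 1) * ((-1) ^ m * ((m : ℚ) + 1))))
    (P : ℕ → ℚ[X]) (hdeg : ∀ m < S, (P m).natDegree < D) (hne : ∃ m < S, P m ≠ 0)
    (hz : ∀ n < N, (PowerSeries.X : PowerSeries ℚ) ^ T ∣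
      ∑ m ∈ Finset.range S, ((taylor (n : ℚ) (P m) : ℚ[X]) : PowerSeries ℚ) * h m n) :
    (N - S - 1) * (T - 1) ≤ (S + 2) * D + (S + 2) ^ 2 * (S + 1) := by
  refine gzero S (zL S) (zA S) (zA S) N T D (S + 1) (zL_ne_zero S) (zL_natDegree S)
    (fun d _ => (zA_natDegree' S d).trans (by omega)) (fun d _ => (zA_natDegree' S d).trans (by omega))
    (poleHyp S) (fun d n => h (d - 1) n) ?_ (fun d => P (d - 1)) ?_ ?_ ?_
  · intro m hm n
    simp only [Nat.add_sub_cancel]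
    have h1 := hh m hm n
    have hcoe : ((X + C ((n : ℚ) + 1) : ℚ[X]) : PowerSeries ℚ)
        = PowerSeries.X + PowerSeries.C ((n : ℚ) + 1) := by
      rw [Polynomial.coe_add, Polynomial.coe_X, Polynomial.coe_C]
    have htX : taylor (n : ℚ) (X + C 1 : ℚ[X]) = X + C ((n : ℚ) + 1) := by
      rw [map_add, taylor_X, taylor_C, C_add]
      ring
    have hL : ((taylor (n : ℚ) (zL S) : ℚ[X]) : PowerSeries ℚ)
        = ((X + C ((n : ℚ) + 1) : ℚ[X]) : PowerSeries ℚ) ^ (S - 1 - m) *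
          ((X + C ((n : ℚ) + 1) : ℚ[X]) : PowerSeries ℚ) ^ (m + 2) := by
      unfold zL
      rw [taylor_pow, htX, Polynomial.coe_pow, ← pow_add]
      congr 1
      omega
    have hA : taylor (n : ℚ) (zA S m) = C ((-1) ^ m * ((m : ℚ) + 1)) * (X + C ((n : ℚ) + 1)) ^ (S - 1 - m) := by
      unfold zA
      rw [taylor_mul, taylor_C, taylor_pow, htX]
    rw [hL, hA, mul_assoc, hcoe, h1, ← hcoe]
    have h2 : (C (n : ℚ) * (C ((-1) ^ m * ((m : ℚ) + 1)) * (X + C ((n : ℚ) + 1)) ^ (S - 1 - m)) +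
        C ((-1) ^ m * ((m : ℚ) + 1)) * (X + C ((n : ℚ) + 1)) ^ (S - 1 - m) : ℚ[X])
        = (X + C ((n : ℚ) + 1)) ^ (S - 1 - m) * C (((n : ℚ) + 1) * ((-1) ^ m * ((m : ℚ) + 1))) := by
      rw [C_mul (a := (n : ℚ) + 1), C_add (a := (n : ℚ)), C_1]
      ring
    rw [h2, Polynomial.coe_mul, Polynomial.coe_pow, Polynomial.coe_C]
  · intro d hd
    rw [Finset.mem_Icc] at hd
    exact hdeg (d - 1) (by omega)
  · obtain ⟨m, hm, hPm⟩ := hne
    exact ⟨m + 1, Finset.mem_Icc.2 (by omega), by simpa using hPm⟩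
  · intro n hn
    have h1 : ∑ d ∈ Finset.Icc 1 S, ((taylor (n : ℚ) (P (d - 1)) : ℚ[X]) : PowerSeries ℚ) * h (d - 1) n
        = ∑ m ∈ Finset.range S, ((taylor (n : ℚ) (P m) : ℚ[X]) : PowerSeries ℚ) * h m n := by
      refine Finset.sum_bij' (fun d _ => d - 1) (fun d _ => d + 1) ?_ ?_ ?_ ?_ ?_
      · intro d hd
        simp only [Finset.mem_Icc, Finset.mem_range] at *
        omega
      · intro d hd
        simp only [Finset.mem_Icc, Finset.mem_range] at *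
        omega
      · intro d hd
        simp only [Finset.mem_Icc] at *
        omega
      · intro d hd
        simp
      · intro d hd
        rfl
    rw [h1]
    exact hz n hn

end MP_a3a416_nt.LJ
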