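import Pool.Agent.Lib.MP_a3a416_nt.LJ.Basis
import Pool.Agent.Lib.MP_a3a416_nt.LJ.Series
import Pool.Agent.Lib.MP_a3a416_nt.LJ.Zero

/-!
# LJ-NotSpan
PROOF.  Let `φ = ∑_{1≤g≤J} u_g X^(2g)`, `u_g = v_0(g) + ∑_l μ_l v_{l+1}(g) ∈ ℚ`, `h m n = hD m (vser 1 n - φ)`.  `h m (n+1) - h m n = hD m (jet 1 (n+1))` (`vser_succ_sub`), so `hD_jet` gives `hh` of `zeroEst`.
`rJ` as a series is `∑_m taylor n P_m * hD m (vser 1 n)` (`rJ_series`), and `sJ .. w n` as a series is `∑_m taylor n P_m * hD m φ_w` (`hasseDeriv` = `hD` on polynomials); so the assumption says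
`X^(4S+10) ∣ ∑_m taylor n P_m * h m n` for `n < N`.  `zeroEst` with `T = 4S+10`, `D = 4N` (`natDegree_PJ_lt`, `exists_PJ_ne_zero`): `(N-S-1)(4S+9) ≤ (S+2) 4N + (S+2)²(S+1)`, i.e.
`N ≤ (S+1)(4S+9) + (S+2)²(S+1)`, false for `N ≥ 10 S³`, `S ≥ 3`.
-/

namespace MP_a3a416_nt.LJ

open Polynomial MP_a3a416_nt.BB

private theorem coeff_hD (m : ℕ) (f : PowerSeries ℚ) (k : ℕ) :
    PowerSeries.coeff k (hD m f) = ((k + m).choose m : ℚ) * PowerSeries.coeff (k + m) f := by
  unfold hD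
  rw [PowerSeries.coeff_mk]

private theorem hD_sub' (m : ℕ) (f g : PowerSeries ℚ) : hD m (f - g) = hD m f - hD m g := by
  ext k
  rw [map_sub, coeff_hD, coeff_hD, coeff_hD, map_sub, mul_sub]

private theorem hD_smul' (m : ℕ) (a : ℚ) (f : PowerSeries ℚ) :
    hD m (PowerSeries.C a * f) = PowerSeries.C a * hD m f := by
  ext k
  rw [PowerSeries.coeff_C_mul, coeff_hD, coeff_hD, PowerSeries.coeff_C_mul]
  ring

private theorem hD_sum' {ι : Type*} (m : ℕ) (s : Finset ι) (f : ι → PowerSeries ℚ) :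
    hD m (∑ i ∈ s, f i) = ∑ i ∈ s, hD m (f i) := by
  ext k
  rw [coeff_hD, map_sum, map_sum, Finset.mul_sum]
  exact Finset.sum_congr rfl (fun i _ => (coeff_hD m (f i) k).symm)

private theorem hD_poly (m : ℕ) (f : ℤ[X]) : hD m (toPS f) = toPS (hasseDeriv m f) := by
  ext k
  rw [coeff_hD, toPS_apply, toPS_apply, Polynomial.coeff_coe, Polynomial.coeff_coe, coeff_map,
    coeff_map, hasseDeriv_coeff]
  simp

private theorem toPS_taylor (n : ℕ) (P : ℤ[X]) :
    ((taylor (n : ℚ) (P.map (Int.castRingHom ℚ)) : ℚ[X]) : PowerSeries ℚ) = toPS (taylor (n : ℤ) P) := by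
  rw [toPS_apply, Polynomial.map_taylor]
  simp

private theorem numeric_ns {S N : ℕ} (hS : 3 ≤ S) (hN : 10 * S ^ 3 ≤ N) :
    (S + 2) * (4 * N) + (S + 2) ^ 2 * (S + 1) < (N - S - 1) * (4 * S + 10 - 1) := by
  obtain ⟨s, rfl⟩ : ∃ s, S = s + 3 := ⟨S - 3, by omega⟩
  have h1 : s + 3 + 1 ≤ N := by nlinarith [Nat.zero_le s, Nat.zero_le (s ^ 2), Nat.zero_le (s ^ 3)]
  obtain ⟨M, rfl⟩ : ∃ M, N = M + (s + 3) + 1 := ⟨N - (s + 3) - 1, by omega⟩
  have e1 : M + (s + 3) + 1 - (s + 3) - 1 = M := by omega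
  have e2 : 4 * (s + 3) + 10 - 1 = 4 * s + 21 := by omega
  rw [e1, e2]
  nlinarith [Nat.zero_le s, Nat.zero_le (s ^ 2), Nat.zero_le (s ^ 3)]

theorem not_in_span {S N J r : ℕ} (hS : 3 ≤ S) (hN : 10 * S ^ 3 ≤ N) (c : ℕ × ℕ × ℕ → ℤ)
    (hc : ∃ x ∈ ix S N, c x ≠ 0) (hreg : REG S N c) (v : ℕ → ℕ → ℤ) (μ : ℕ → ℚ) :
    ¬ ∀ n < N, ∀ k < 4 * S + 10,
      (((rJ S N c n - sJ S N J c (v 0) n).coeff k : ℤ) : ℚ) =
        ∑ l ∈ Finset.range r, μ l * (((sJ S N J c (v (l+1)) n).coeff k : ℤ) : ℚ) := by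
  intro hcon
  have hS3 : 0 < S ^ 3 := by positivity
  have hN1 : 1 ≤ N := by omega
  have hinj : Function.Injective (Int.castRingHom ℚ) := Int.cast_injective
  set φ : PowerSeries ℚ := toPS (phiJ J (v 0)) +
    ∑ l ∈ Finset.range r, PowerSeries.C (μ l) * toPS (phiJ J (v (l + 1))) with hφ
  have hhφ : ∀ m, hD m φ = toPS (hasseDeriv m (phiJ J (v 0))) +
      ∑ l ∈ Finset.range r, PowerSeries.C (μ l) * toPS (hasseDeriv m (phiJ J (v (l + 1)))) := by
    intro m
    have h0 : hD m φ = hD m (toPS (phiJ J (v 0))) + hD m (∑ l ∈ Finset.range r,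
        PowerSeries.C (μ l) * toPS (phiJ J (v (l + 1)))) := by rw [hφ, hD_add]
    rw [h0, hD_sum', hD_poly]
    congr 1
    exact Finset.sum_congr rfl (fun l _ => by rw [hD_smul', hD_poly])
  have hsJ : ∀ (w : ℕ → ℤ) (n : ℕ), toPS (sJ S N J c w n) =
      ∑ m ∈ Finset.range S, toPS (taylor (n : ℤ) (PJ N c m)) * toPS (hasseDeriv m (phiJ J w)) := by
    intro w n
    unfold sJ
    rw [map_sum]
    exact Finset.sum_congr rfl (fun m _ => map_mul _ _ _)
  have h := zeroEst S N (4 * S + 10) (4 * N) (fun m n => hD m (vser 1 n - φ))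
    (by
      intro m _ n
      have e1 : hD m (vser 1 (n + 1) - φ) - hD m (vser 1 n - φ) = hD m (jet 1 (n + 1)) := by
        have h1 := vser_succ_sub 1 n
        rw [Finset.Icc_self, Finset.sum_singleton, one_mul] at h1
        rw [← h1, ← hD_sub']
        congr 1
        ring
      show (PowerSeries.X + PowerSeries.C ((n : ℚ) + 1)) ^ (m + 2) *
        (hD m (vser 1 (n + 1) - φ) - hD m (vser 1 n - φ)) = _
      rw [e1]
      have h2 := hD_jet m (b := n + 1) (by omega)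
      push_cast at h2
      exact h2)
    (fun m => (PJ N c m).map (Int.castRingHom ℚ))
    (fun m _ => lt_of_le_of_lt natDegree_map_le (natDegree_PJ_lt hN1 c m))
    (by
      obtain ⟨m, hm, hne⟩ := exists_PJ_ne_zero c hc
      exact ⟨m, hm, (Polynomial.map_ne_zero_iff hinj).2 hne⟩)
    (by
      intro n hn
      have e2 : ∑ m ∈ Finset.range S,
          ((taylor (n : ℚ) ((PJ N c m).map (Int.castRingHom ℚ)) : ℚ[X]) : PowerSeries ℚ) *
            hD m (vser 1 n - φ) =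
          toPS (rJ S N c n) - (toPS (sJ S N J c (v 0) n) +
            ∑ l ∈ Finset.range r, PowerSeries.C (μ l) * toPS (sJ S N J c (v (l + 1)) n)) := by
        have h1 := rJ_series c hreg hn.le
        rw [← toPS_apply] at h1
        rw [h1, hsJ]
        simp only [hsJ]
        simp only [Finset.mul_sum]
        rw [Finset.sum_comm (s := Finset.range r), ← Finset.sum_add_distrib, ← Finset.sum_sub_distrib]
        refine Finset.sum_congr rfl (fun m _ => ?_)
        rw [hD_sub', hhφ, toPS_taylor, mul_sub, mul_add, Finset.mul_sum]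
        congr 2
        exact Finset.sum_congr rfl (fun l _ => by ring)
      show (PowerSeries.X : PowerSeries ℚ) ^ (4 * S + 10) ∣ ∑ m ∈ Finset.range S,
          ((taylor (n : ℚ) ((PJ N c m).map (Int.castRingHom ℚ)) : ℚ[X]) : PowerSeries ℚ) *
            hD m (vser 1 n - φ)
      rw [e2, PowerSeries.X_pow_dvd_iff]
      intro k hk
      have h3 := hcon n hn k hk
      have hcf : ∀ P : ℤ[X], PowerSeries.coeff k (toPS P) = ((P.coeff k : ℤ) : ℚ) := by
        intro P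
        rw [toPS_apply, Polynomial.coeff_coe, coeff_map]
        rfl
      rw [map_sub, map_add, map_sum, hcf, hcf]
      have h4 : ∀ l ∈ Finset.range r, PowerSeries.coeff k (PowerSeries.C (μ l) *
          toPS (sJ S N J c (v (l + 1)) n)) = μ l * (((sJ S N J c (v (l+1)) n).coeff k : ℤ) : ℚ) := by
        intro l _
        rw [PowerSeries.coeff_C_mul, hcf]
      rw [Finset.sum_congr rfl h4, ← h3, coeff_sub]
      push_cast
      ring)
  have h2 := numeric_ns hS hN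
  omega

end MP_a3a416_nt.LJ
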