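import Pool.Agent.Lib.MP_a3a416_nt.LJ.Defs

/-!
# LJ-Poles
Joint pole cancellation.
PROOF.  `eq_sum_add_dq a (m+2) P`: `P = ∑_{i<m+2} P_i (X-a)^i + (X-a)^(m+2) dq a (m+2) P` (`P_i = (taylor a P).coeff i`).  Multiply by `C((-1)^m (m+1)) (X-a)^(S-1-m)` and sum over `m < S`:
`∑_m C(..) P_m (X-a)^(S-1-m) = (X-a)^(S+1) Q_a + ∑_m C(..) ∑_{i<m+2} (P_m)_i (X-a)^(S-1-m+i)`; in the last double sum put `i = m+2-j`, `1 ≤ j ≤ m+2`: exponent `S+1-j`, and the coefficient of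
`(X-a)^(S+1-j)`, `1 ≤ j ≤ S+1`, is `regF S N c a j = 0`.
-/

namespace MP_a3a416_nt.LJ

open Polynomial MP_a3a416_nt.BB

theorem sum_range_eq_sum_Icc {M : Type*} [AddCommMonoid M] {m S : ℕ} (hm : m < S) (f : ℕ → M) :
    ∑ i ∈ Finset.range (m + 2), f i =
      ∑ j ∈ Finset.Icc 1 (S + 1), if j ≤ m + 2 then f (m + 2 - j) else 0 := by
  rw [← Finset.sum_filter]
  refine Finset.sum_bij' (fun i _ => m + 2 - i) (fun j _ => m + 2 - j) ?_ ?_ ?_ ?_ ?_
  · intro i hi
    simp only [Finset.mem_range] at hi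
    simp only [Finset.mem_filter, Finset.mem_Icc]
    omega
  · intro j hj
    simp only [Finset.mem_filter, Finset.mem_Icc] at hj
    simp only [Finset.mem_range]
    omega
  · intro i hi
    simp only [Finset.mem_range] at hi
    show m + 2 - (m + 2 - i) = i
    omega
  · intro j hj
    simp only [Finset.mem_filter, Finset.mem_Icc] at hj
    show m + 2 - (m + 2 - j) = j
    omega
  · intro i hi
    simp only [Finset.mem_range] at hi
    show f i = f (m + 2 - (m + 2 - i))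
    congr 1
    omega

theorem QJ_mul {S N : ℕ} (c : ℕ × ℕ × ℕ → ℤ) (hreg : REG S N c) {a : ℕ} (ha : a < N) :
    (X - C (a : ℤ)) ^ (S + 1) * QJ S N c a =
      ∑ m ∈ Finset.range S, C ((-1) ^ m * ((m : ℤ) + 1)) * PJ N c m * (X - C (a : ℤ)) ^ (S - 1 - m) := by
  have key : ∑ m ∈ Finset.range S, C ((-1) ^ m * ((m : ℤ) + 1)) *
      (∑ i ∈ Finset.range (m + 2), C ((taylor (a : ℤ) (PJ N c m)).coeff i) *
        (X - C (a : ℤ)) ^ (S - 1 - m + i)) = 0 := by
    have h1 : ∀ m ∈ Finset.range S, C ((-1) ^ m * ((m : ℤ) + 1)) *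
      (∑ i ∈ Finset.range (m + 2), C ((taylor (a : ℤ) (PJ N c m)).coeff i) *
        (X - C (a : ℤ)) ^ (S - 1 - m + i)) = ∑ j ∈ Finset.Icc 1 (S + 1),
          C (if j ≤ m + 2 then
    (-1) ^ m * ((m : ℤ) + 1) * (taylor (a : ℤ) (PJ N c m)).coeff (m + 2 - j) else 0) *
      (X - C (a : ℤ)) ^ (S + 1 - j) := by
      intro m hm
      rw [Finset.mem_range] at hm
      rw [sum_range_eq_sum_Icc hm, Finset.mul_sum]
      refine Finset.sum_congr rfl fun j hj => ?_
      rw [Finset.mem_Icc] at hj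
      split_ifs with h
      · rw [show S - 1 - m + (m + 2 - j) = S + 1 - j by omega, ← mul_assoc, ← C_mul]
      · simp
    rw [Finset.sum_congr rfl h1, Finset.sum_comm]
    refine Finset.sum_eq_zero fun j hj => ?_
    rw [Finset.mem_Icc] at hj
    rw [← Finset.sum_mul, ← map_sum]
    have := hreg a ha j hj.1 hj.2
    unfold regF at this
    rw [this]
    simp
  have h2 : ∀ m ∈ Finset.range S, C ((-1) ^ m * ((m : ℤ) + 1)) * PJ N c m *
      (X - C (a : ℤ)) ^ (S - 1 - m) = C ((-1) ^ m * ((m : ℤ) + 1)) *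
      (∑ i ∈ Finset.range (m + 2), C ((taylor (a : ℤ) (PJ N c m)).coeff i) *
        (X - C (a : ℤ)) ^ (S - 1 - m + i)) + (X - C (a : ℤ)) ^ (S + 1) *
        (C ((-1) ^ m * ((m : ℤ) + 1)) * LI.dq a (m + 2) (PJ N c m)) := by
    intro m hm
    rw [Finset.mem_range] at hm
    have h3 := LI.eq_sum_add_dq (a : ℤ) (m + 2) (PJ N c m)
    have h4 : (X - C (a : ℤ)) ^ (S + 1) = (X - C (a : ℤ)) ^ (S - 1 - m) * (X - C (a : ℤ)) ^ (m + 2) := by
      rw [← pow_add]; congr 1; omega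
    have h5 : ∑ i ∈ Finset.range (m + 2), C ((taylor (a : ℤ) (PJ N c m)).coeff i) *
        (X - C (a : ℤ)) ^ (S - 1 - m + i) = (X - C (a : ℤ)) ^ (S - 1 - m) *
        ∑ i ∈ Finset.range (m + 2), C ((taylor (a : ℤ) (PJ N c m)).coeff i) *
        (X - C (a : ℤ)) ^ i := by
      rw [Finset.mul_sum]
      refine Finset.sum_congr rfl fun i _ => ?_
      rw [pow_add]; ring
    rw [h5, h4]
    conv_lhs => rw [h3]
    ring
  rw [Finset.sum_congr rfl h2, Finset.sum_add_distrib, key, zero_add, ← Finset.mul_sum]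
  rfl

end MP_a3a416_nt.LJ
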