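import Pool.Agent.Lib.MP_a3a416_nt.LJ.Basis
import Pool.Agent.Lib.MP_a3a416_nt.LJ.Den

/-!
# LJ-RrDen
Denominators of `r_n`.
PROOF.  `FN_dvd_of`; for a prime `q`, `L = log_q(4N)`, every `a < n`, `m < S`: `LI.dq_adm` with `c l = 4(N/q^l)` (antitone), `PJ_adm` at `n` and at `a`, `e = m+2 ≤ S+1`
(`q^v ∣ n-a`, `0 < n-a < N` gives `q^v ≤ 4N`, `v ≤ L`): `q^(∑ (c l - k - (m+2)))` divides the coefficient `k` of `taylor n (dq a (m+2) (PJ N c m))`, and `c l - k - (m+2) ≥ c l - K`.  Sum over `m` and `a`.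
-/

namespace MP_a3a416_nt.LJ

open Polynomial MP_a3a416_nt.BB

theorem FN_dvd_rJ {S N K n k : ℕ} (c : ℕ × ℕ × ℕ → ℤ) (hn : n < N) (hk : k + S + 1 ≤ K) :
    (FN N : ℤ) ∣ (DJ N K : ℤ) * (rJ S N c n).coeff k := by
  refine FN_dvd_of _ fun q hq => ?_
  set L := Nat.log q (4 * N) with hL
  have hq1 := hq.one_lt
  have hN4 : N < q ^ (L + 1) := lt_of_le_of_lt (by omega) (Nat.lt_pow_succ_log_self hq1 (4 * N))
  unfold rJ
  rw [finsetSum_coeff]
  refine Finset.dvd_sum fun a ha => ?_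
  rw [Finset.mem_range] at ha
  rw [coeff_C_mul]
  refine Dvd.dvd.mul_left ?_ _
  unfold QJ
  rw [map_sum, finsetSum_coeff]
  refine Finset.dvd_sum fun m hm => ?_
  rw [Finset.mem_range] at hm
  rw [taylor_mul, taylor_C, coeff_C_mul]
  refine Dvd.dvd.mul_left ?_ _
  have hanti : ∀ l l', 1 ≤ l → l ≤ l' → l' ≤ L →
      (fun l => 4 * (N / q ^ l)) l' ≤ (fun l => 4 * (N / q ^ l)) l := by
    intro l l' _ hl _
    exact Nat.mul_le_mul_left 4 (Nat.div_le_div_left (Nat.pow_le_pow_right hq.pos hl)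
      (pow_pos hq.pos l))
  have hna : ((n : ℕ) : ℤ) ≠ ((a : ℕ) : ℤ) := by
    have : n ≠ a := by omega
    exact_mod_cast this
  have hLv : ∀ v, (q : ℤ) ^ v ∣ ((n : ℕ) : ℤ) - ((a : ℕ) : ℤ) → v ≤ L := by
    intro v hv
    have h1 : ((n : ℕ) : ℤ) - ((a : ℕ) : ℤ) = ((n - a : ℕ) : ℤ) := by
      rw [Nat.cast_sub ha.le]
    rw [h1] at hv
    have h2 : q ^ v ∣ n - a := by exact_mod_cast hv
    have h3 : q ^ v ≤ n - a := Nat.le_of_dvd (by omega) h2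
    exact Nat.le_log_of_pow_le hq1 (by omega)
  have h5 := LI.dq_adm hq hanti (PJ N c m) hna hLv (PJ_adm hq hN4 c m n) (PJ_adm hq hN4 c m a)
    (m + 2) k
  refine dvd_trans (pow_dvd_pow _ ?_) h5
  refine Finset.sum_le_sum fun l _ => ?_
  omega

end MP_a3a416_nt.LJ
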