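import Pool.Agent.Lib.MP_a3a416_nt.LJ.AuxiJ
import Pool.Agent.Lib.MP_a3a416_nt.LJ.RrBound
import Pool.Agent.Lib.MP_a3a416_nt.LJ.NotSpan
import Pool.Agent.Lib.MP_a3a416_nt.LI.Minor

/-!
# LJ-ProdBad
The product of the bad primes.  PROOF.  `P = ∏ p`.  `H` = the largest integer with `H^(4(r+1)) ≤ (3AJ)^(2(r+1)) P`, `H ≥ 1`.  `exists_aux` gives `c`.  Index set `Fin N × Fin (4S+10)`; `A i 0 = z_rr - z_{sJ (v 0)}`,
`A i (l+1) = z_{sJ (v (l+1))}` (integers of `rJ_bound`, `sJ_bound`), `|A i j| ≤ B := (1+A) EJ H`.  `sJ` is linear in `w`, so for `p ∈ Ps`: `FN (A i 0 - ∑ lam_l A i (l+1)) = DJ * (rJ - sJ (comb ..)).coeff k ≡ 0`, `p ∤ FN` (`p > N`).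
`LI.minor_lemma`: the first alternative contradicts `not_in_span` (multiply by `FN/DJ`); so `P ≤ (r+1)! B^(r+1)`.  Fourth power, `H^(4(r+1)) ≤ (3AJ)^(2(r+1)) P`, divide by `P`:
`P^3 ≤ ((r+1)!)^4 ((1+A)EJ)^(4(r+1)) (3AJ)^(2(r+1))`, and `3 AJ ≤ EJ`.
-/

namespace MP_a3a416_nt.LJ

open Polynomial MP_a3a416_nt.BB

private theorem sJ_comb (S N J : ℕ) (c : ℕ × ℕ × ℕ → ℤ) (r : ℕ) (v : ℕ → ℕ → ℤ) (lam : ℕ → ℤ)
    (n k : ℕ) :
    (sJ S N J c (LI.comb r v lam) n).coeff k = (sJ S N J c (v 0) n).coeff k +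
      ∑ l ∈ Finset.range r, lam l * (sJ S N J c (v (l+1)) n).coeff k := by
  have hphi : phiJ J (LI.comb r v lam) = phiJ J (v 0) +
      ∑ l ∈ Finset.range r, C (lam l) * phiJ J (v (l+1)) := by
    unfold phiJ LI.comb
    simp only [Finset.mul_sum]
    rw [Finset.sum_comm, ← Finset.sum_add_distrib]
    refine Finset.sum_congr rfl fun g _ => ?_
    rw [map_add, map_sum, add_mul, Finset.sum_mul]
    congr 1
    refine Finset.sum_congr rfl fun l _ => ?_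
    rw [map_mul]
    ring
  have h : sJ S N J c (LI.comb r v lam) n = sJ S N J c (v 0) n +
      ∑ l ∈ Finset.range r, C (lam l) * sJ S N J c (v (l+1)) n := by
    unfold sJ
    rw [hphi]
    simp only [Finset.mul_sum]
    rw [Finset.sum_comm, ← Finset.sum_add_distrib]
    refine Finset.sum_congr rfl fun m _ => ?_
    rw [map_add, map_sum, mul_add, Finset.mul_sum]
    congr 1
    refine Finset.sum_congr rfl fun l _ => ?_
    rw [C_mul', C_mul', map_smul, mul_smul_comm]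
  rw [h, coeff_add, finsetSum_coeff]
  simp only [coeff_C_mul]

private theorem DJ_mono (N : ℕ) {K L : ℕ} (h : K ≤ L) : DJ N K ≤ DJ N L := by
  unfold DJ
  refine Finset.prod_le_prod_of_subset_of_one_le' ?_ fun _ _ _ => Nat.lcmUpto_pos _
  exact Finset.Icc_subset_Icc_right h

private theorem three_AJ_le (S N : ℕ) : 3 * AJ S N ≤ EJ S N := by
  unfold AJ EJ
  have h1 : DJ N (S + 1) ≤ DJ N (5 * S + 11) := DJ_mono N (by omega)
  have h2 : N ≤ N ^ 2 := Nat.le_self_pow (by norm_num) N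
  have h3 : 1 ≤ 4 ^ (5 * S + 10) := Nat.one_le_pow _ _ (by norm_num)
  have h4 : 3 * S ^ 2 ≤ S * (4 * S + 10) := by nlinarith
  calc 3 * (DJ N (S + 1) * (S ^ 2 * (4 * N) * 2 ^ N))
      = DJ N (S + 1) * ((3 * S ^ 2) * (4 * N) * 2 ^ N * 1) := by ring
    _ ≤ DJ N (5 * S + 11) * ((S * (4 * S + 10)) * (4 * N ^ 2) * 2 ^ N * 4 ^ (5 * S + 10)) := by
        gcongr
    _ = _ := by ring

theorem prod_bad {S N J r A x : ℕ} (hS : 12 * (r + 1) ≤ S) (hJ : 5 * S + 7 ≤ 2 * J) (hN : 10 * S ^ 3 ≤ N)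
    (hNJ : 2 * J + 4 ≤ N) (hx : 3 * (r + 1) * x ≤ S * N) (v : ℕ → ℕ → ℤ)
    (hv : ∀ l ≤ r, ∀ g ∈ Finset.Icc 1 J, |v l g| ≤ (A : ℤ)) (Ps : Finset ℕ) (lam : ℕ → ℕ → ℤ)
    (hP : ∀ p ∈ Ps, p.Prime ∧ N < p ∧ p ≤ x ∧ Bad J r v (lam p) p) :
    (∏ p ∈ Ps, p) ^ 3 ≤ ((r + 1).factorial) ^ 4 * ((1 + A) * EJ S N) ^ (6 * (r + 1)) := by
  classical
  set P := ∏ p ∈ Ps, p with hPdef
  have hPpos : 0 < P := by
    rw [hPdef]
    exact Finset.prod_pos fun p hp => (hP p hp).1.pos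
  have hm : 4 * (r + 1) ≠ 0 := by omega
  have hS12 : 12 ≤ S := by omega
  have hS3 : S ≤ S ^ 3 := Nat.le_self_pow (by norm_num) S
  have hS1 : S ^ 2 * S = S ^ 3 := by ring
  have hN5 : 5 * S + 20 ≤ N := by omega
  have hN1 : 1 ≤ N := by omega
  have hAJ : 0 < AJ S N := by
    unfold AJ
    have := DJ_pos N (S + 1)
    positivity
  have hEJ : 0 < EJ S N := by
    unfold EJ
    have := DJ_pos N (5 * S + 11)
    positivity
  set P' := (3 * AJ S N) ^ (2 * (r + 1)) * P with hP'def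
  have hP'pos : 0 < P' := by positivity
  -- the integer `H`
  obtain ⟨H, hH1, hHP, hPH⟩ : ∃ H : ℕ, 1 ≤ H ∧ H ^ (4 * (r + 1)) ≤ P' ∧
      P' < (H + 1) ^ (4 * (r + 1)) := by
    refine ⟨Nat.findGreatest (fun h => h ^ (4 * (r + 1)) ≤ P') P', ?_, ?_, ?_⟩
    · exact Nat.le_findGreatest (by omega) (by rw [one_pow]; exact hP'pos)
    · have := @Nat.findGreatest_spec 1 (fun h => h ^ (4 * (r + 1)) ≤ P') _ P' (by omega)
        (by rw [one_pow]; exact hP'pos)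
      exact this
    · by_contra hcon
      rw [not_lt] at hcon
      set h0 := Nat.findGreatest (fun h => h ^ (4 * (r + 1)) ≤ P') P' with hh0
      have hle : h0 + 1 ≤ P' := (Nat.le_self_pow hm _).trans hcon
      have := Nat.findGreatest_is_greatest (P := fun h => h ^ (4 * (r + 1)) ≤ P') (n := P')
        (k := h0 + 1) (by rw [← hh0]; omega) hle
      exact this hcon
  obtain ⟨c, hc0, hcb, hreg, hcd⟩ := exists_aux v hS hJ hN5 hNJ hx Ps lam hP H hH1 hPH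
  have hDJ : 0 < DJ N (5 * S + 11) := DJ_pos _ _
  have hFN : 0 < FN N := by unfold FN; positivity
  have hzr : ∀ i : Fin N × Fin (4 * S + 10), ∃ z : ℤ,
      (DJ N (5 * S + 11) : ℤ) * (rJ S N c i.1).coeff i.2 = (FN N : ℤ) * z ∧
      |z| ≤ ((EJ S N * H : ℕ) : ℤ) := fun i => rJ_bound c hcb hreg i.1.2 i.2.2
  have hzs : ∀ l, ∀ i : Fin N × Fin (4 * S + 10), ∃ z : ℤ, l ≤ r →
      (DJ N (5 * S + 11) : ℤ) * (sJ S N J c (v l) i.1).coeff i.2 = (FN N : ℤ) * z ∧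
      |z| ≤ ((A * EJ S N * H : ℕ) : ℤ) := by
    intro l i
    by_cases hl : l ≤ r
    · obtain ⟨z, hz, hzb⟩ := sJ_bound c hcb (v l) (hv l hl) i.1.2 i.2.2
      exact ⟨z, fun _ => ⟨hz, hzb⟩⟩
    · exact ⟨0, fun h => absurd h hl⟩
  choose zr hzr1 hzr2 using hzr
  choose zs hzs' using hzs
  have hzs1 : ∀ l ≤ r, ∀ i, (DJ N (5 * S + 11) : ℤ) *
      (sJ S N J c (v l) i.1).coeff i.2 = (FN N : ℤ) * zs l i := fun l hl i =>
    (hzs' l i hl).1
  have hzs2 : ∀ l ≤ r, ∀ i, |zs l i| ≤ ((A * EJ S N * H : ℕ) : ℤ) := fun l hl i =>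
    (hzs' l i hl).2
  set B : ℕ := (1 + A) * EJ S N * H with hB
  have hB1 : 1 ≤ B := by
    rw [hB]
    have : 0 < (1 + A) * EJ S N * H := by positivity
    exact this
  obtain ⟨M, hM⟩ : ∃ M : Fin N × Fin (4 * S + 10) → Fin (r + 1) → ℤ, M = fun i j =>
      Fin.cases (zr i - zs 0 i) (fun l : Fin r => zs ((l : ℕ) + 1) i) j := ⟨_, rfl⟩
  have hM0 : ∀ i, M i 0 = zr i - zs 0 i := fun i => by rw [hM]; rfl
  have hMs : ∀ i (l : Fin r), M i l.succ = zs ((l : ℕ) + 1) i := fun i l => by rw [hM]; rfl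
  have hMB : ∀ i j, |M i j| ≤ (B : ℤ) := by
    intro i j
    refine Fin.cases ?_ (fun l => ?_) j
    · rw [hM0]
      have h1 := hzr2 i
      have h2 := hzs2 0 (Nat.zero_le _) i
      calc |zr i - zs 0 i| ≤ |zr i| + |zs 0 i| := abs_sub _ _
        _ ≤ ((EJ S N * H : ℕ) : ℤ) + ((A * EJ S N * H : ℕ) : ℤ) := add_le_add h1 h2
        _ = (B : ℤ) := by rw [hB]; push_cast; ring
    · rw [hMs]
      have h2 := hzs2 (l + 1) (by have := l.2; omega) i
      refine h2.trans ?_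
      have : A * EJ S N * H ≤ B := by
        rw [hB]
        gcongr
        omega
      exact_mod_cast this
  have hMBR : ∀ i j, |((M i j : ℤ) : ℝ)| ≤ (B : ℝ) := by
    intro i j
    have := hMB i j
    have h2 : (((|M i j| : ℤ)) : ℝ) ≤ (((B : ℤ)) : ℝ) := by exact_mod_cast this
    rw [Int.cast_abs] at h2
    simpa using h2
  have hmod : ∀ p ∈ Ps, ∃ la : Fin r → ZMod p, ∀ i,
      (M i 0 : ZMod p) + ∑ l, la l * (M i l.succ : ZMod p) = 0 := by
    intro p hp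
    refine ⟨fun l => - (lam p l : ZMod p), fun i => ?_⟩
    have hpp : Prime (p : ℤ) := Nat.prime_iff_prime_int.1 (hP p hp).1
    have hnd : ¬ (p : ℤ) ∣ (FN N : ℤ) := by
      intro h
      have h' : p ∣ FN N := by exact_mod_cast h
      unfold FN at h'
      have h2 := (hP p hp).1.dvd_of_dvd_pow h'
      have h3 := ((hP p hp).1.dvd_factorial).1 h2
      have h4 := (hP p hp).2.1
      omega
    have h1 := hcd p hp i.1 i.1.2 i.2 i.2.2
    have h2 : (FN N : ℤ) * (M i 0 - ∑ l : Fin r, lam p l * M i l.succ) =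
        (DJ N (5 * S + 11) : ℤ) *
          (rJ S N c i.1 - sJ S N J c (LI.comb r v (lam p)) i.1).coeff i.2 := by
      rw [coeff_sub, sJ_comb, mul_sub (DJ N (5 * S + 11) : ℤ), mul_add, hzr1,
        hzs1 0 (Nat.zero_le _), mul_sub (FN N : ℤ), hM0,
        mul_sub (FN N : ℤ), Finset.mul_sum, Finset.mul_sum, Finset.sum_range, sub_sub]
      congr 2
      refine Finset.sum_congr rfl fun l _ => ?_
      rw [mul_left_comm (DJ N (5 * S + 11) : ℤ), hzs1 (l + 1) (by have := l.2; omega), hMs]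
      ring
    have h3 : (p : ℤ) ∣ M i 0 - ∑ l : Fin r, lam p l * M i l.succ := by
      rcases hpp.dvd_or_dvd (h2 ▸ Dvd.dvd.mul_left h1 _) with h3 | h3
      · exact absurd h3 hnd
      · exact h3
    have h4 := (ZMod.intCast_zmod_eq_zero_iff_dvd _ _).2 h3
    push_cast at h4
    rw [sub_eq_add_neg, ← Finset.sum_neg_distrib] at h4
    rw [← h4]
    congr 1
    refine Finset.sum_congr rfl fun l _ => ?_
    ring
  have hPle : P ≤ (r+1).factorial * B ^ (r+1) := by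
    rcases _root_.LI.minor_lemma r M (B : ℝ) (by exact_mod_cast hB1) hMBR Ps
      (fun p hp => (hP p hp).1) hmod with ⟨μ, hμ⟩ | h
    · exfalso
      refine not_in_span (J := J) (r := r) (by omega) hN c hc0 hreg v
        (fun l => if h : l < r then μ ⟨l, h⟩ else 0) ?_
      intro n hn k hk
      have hi := hμ (⟨n, hn⟩, ⟨k, hk⟩)
      have e1 := hzr1 (⟨n, hn⟩, ⟨k, hk⟩)
      have e2 := hzs1 0 (Nat.zero_le _) (⟨n, hn⟩, ⟨k, hk⟩)
      have hDJq : (DJ N (5 * S + 11) : ℚ) ≠ 0 := by exact_mod_cast hDJ.ne'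
      apply mul_left_cancel₀ hDJq
      rw [Finset.sum_range]
      have e1q : (DJ N (5 * S + 11) : ℚ) * ((rJ S N c n).coeff k : ℤ) =
          (FN N : ℚ) * (zr (⟨n, hn⟩, ⟨k, hk⟩) : ℤ) := by exact_mod_cast e1
      have e2q : (DJ N (5 * S + 11) : ℚ) * ((sJ S N J c (v 0) n).coeff k : ℤ) =
          (FN N : ℚ) * (zs 0 (⟨n, hn⟩, ⟨k, hk⟩) : ℤ) := by exact_mod_cast e2
      rw [coeff_sub, Int.cast_sub, mul_sub, e1q, e2q, ← mul_sub, ← Int.cast_sub, ← hM0, hi,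
        Finset.mul_sum, Finset.mul_sum]
      refine Finset.sum_congr rfl fun l _ => ?_
      have e3 := hzs1 (l + 1) (by have := l.2; omega) (⟨n, hn⟩, ⟨k, hk⟩)
      have e3q : (DJ N (5 * S + 11) : ℚ) *
          ((sJ S N J c (v ((l : ℕ) + 1)) n).coeff k : ℤ) =
          (FN N : ℚ) * (zs (l + 1) (⟨n, hn⟩, ⟨k, hk⟩) : ℤ) := by exact_mod_cast e3
      rw [dif_pos l.2, mul_left_comm (DJ N (5 * S + 11) : ℚ) _ _, e3q, hMs]
      simp only [Fin.eta]
      ring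
    · have h' : (P : ℝ) ≤ (((r + 1).factorial * B ^ (r + 1) : ℕ) : ℝ) := by
        rw [hPdef]
        push_cast
        exact h
      exact_mod_cast h'
  have hA1 : 1 ≤ 1 + A := by omega
  have h3AJ : 3 * AJ S N ≤ (1 + A) * EJ S N :=
    (three_AJ_le S N).trans (Nat.le_mul_of_pos_left _ (by omega))
  have hfin : P * P ^ 3 ≤ P * (((r+1).factorial) ^ 4 * ((1 + A) * EJ S N) ^ (6 * (r + 1))) := by
    calc P * P ^ 3 = P ^ 4 := by ring
      _ ≤ ((r+1).factorial * B ^ (r+1)) ^ 4 := Nat.pow_le_pow_left hPle 4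
      _ = ((r+1).factorial) ^ 4 * (((1 + A) * EJ S N) ^ (4 * (r + 1)) * H ^ (4 * (r + 1))) := by
        rw [hB, mul_pow, ← pow_mul, mul_comm (r + 1) 4, mul_pow]
      _ ≤ ((r+1).factorial) ^ 4 * (((1 + A) * EJ S N) ^ (4 * (r + 1)) *
          ((3 * AJ S N) ^ (2 * (r + 1)) * P)) := by
        gcongr
      _ ≤ ((r+1).factorial) ^ 4 * (((1 + A) * EJ S N) ^ (4 * (r + 1)) *
          (((1 + A) * EJ S N) ^ (2 * (r + 1)) * P)) := by
        gcongr
      _ = P * (((r+1).factorial) ^ 4 * (((1 + A) * EJ S N) ^ (4 * (r + 1)) *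
          ((1 + A) * EJ S N) ^ (2 * (r + 1)))) := by ring
      _ = _ := by
        rw [← pow_add]
        congr 3
        ring
  exact Nat.le_of_mul_le_mul_left hfin hPpos

end MP_a3a416_nt.LJ
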