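import Pool.Agent.Lib.MP_a3a416_nt.LJ.Dim

/-!
# LJ-SubCount
Theorem L* in dual form: few primes satisfy all the relations of a `ℚ`-subspace `U` of `ℚ^(J+1)` of small codimension.
-/

namespace MP_a3a416_nt.LJ

open Polynomial MP_a3a416_nt.BB

theorem pn_iff {p : ℕ} (hp : p.Prime) (x : ℚ) : (p : ℤ) ∣ x.num ↔ padicNorm p x < 1 := by
  have := Fact.mk hp
  have hx : padicNorm p x = padicNorm p (x.num : ℚ) / padicNorm p ((x.den : ℕ) : ℚ) := by
    conv_lhs => rw [← Rat.num_div_den x]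
    rw [padicNorm.div]
  constructor
  · intro h
    have hden : ¬ p ∣ x.den := by
      intro h2
      have h3 : p ∣ x.num.natAbs := Int.natCast_dvd.mp h
      have := Nat.dvd_gcd h3 h2
      rw [x.reduced.gcd_eq_one] at this
      exact hp.one_lt.ne' (Nat.dvd_one.1 this)
    rw [hx, (padicNorm.nat_eq_one_iff x.den).2 hden, div_one]
    exact (padicNorm.int_lt_one_iff x.num).2 h
  · intro h
    by_contra hc
    have h1 : padicNorm p (x.num : ℚ) = 1 := (padicNorm.int_eq_one_iff x.num).2 hc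
    have h2 : padicNorm p ((x.den : ℕ) : ℚ) ≤ 1 := padicNorm.of_nat x.den
    have h3 : 0 < padicNorm p ((x.den : ℕ) : ℚ) := by
      refine lt_of_le_of_ne (padicNorm.nonneg _) (Ne.symm ?_)
      apply padicNorm.nonzero
      exact_mod_cast x.den_nz
    rw [hx, h1] at h
    rw [div_lt_one h3] at h
    linarith

theorem pn_le {p : ℕ} (hp : p.Prime) {x : ℚ} (h : ¬ p ∣ x.den) : padicNorm p x ≤ 1 := by
  have := Fact.mk hp
  have hx : padicNorm p x = padicNorm p (x.num : ℚ) / padicNorm p ((x.den : ℕ) : ℚ) := by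
    conv_lhs => rw [← Rat.num_div_den x]
    rw [padicNorm.div]
  rw [hx, (padicNorm.nat_eq_one_iff x.den).2 h, div_one]
  exact padicNorm.of_int x.num

/-- `β_0 = 1`, `β_g = B_{p-1-2g}`. -/
noncomputable def beta (J p : ℕ) (i : Fin (J+1)) : ℚ :=
  if i = 0 then 1 else _root_.bernoulli (p - 1 - 2 * i.val)

theorem relVal_eq (J p : ℕ) (a : Fin (J+1) → ℚ) :
    LI.relVal J a p = ∑ i, a i * beta J p i := by
  rw [Fin.sum_univ_succ]
  unfold LI.relVal beta
  simp [Fin.succ_ne_zero]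

theorem beta_den {J p : ℕ} (hp : p.Prime) (h : 2 * J + 5 ≤ p) (i : Fin (J+1)) :
    ¬ p ∣ (beta J p i).den := by
  unfold beta
  split_ifs with h0
  · simpa using hp.one_lt.ne'
  · have hi : 1 ≤ i.val := by
      rcases Nat.eq_zero_or_pos i.val with h1 | h1
      · exact absurd (Fin.ext h1) h0
      · exact h1
    have hi2 : i.val ≤ J := by omega
    have hodd : p % 2 = 1 := by
      rcases hp.eq_two_or_odd with h2 | h2
      · omega
      · exact h2
    obtain ⟨k, hk⟩ : ∃ k, p - 1 - 2 * i.val = 2 * k := ⟨(p - 1 - 2 * i.val) / 2, by omega⟩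
    rw [hk]
    intro hdvd
    have h3 := hdvd.trans (Pool.Agent.Lib.MP_a3a416_nt.bernoulli_den_dvd k)
    rw [hp.dvd_primorial_iff] at h3
    omega

theorem exists_lam {p : ℕ} (hp : p.Prime) {M : ℕ} (hM : ¬ p ∣ M) {x : ℚ} (hx : ¬ p ∣ x.den) :
    ∃ z : ℤ, padicNorm p (x - M * z) < 1 := by
  have := Fact.mk hp
  have hMp : ((M : ℕ) : ZMod p) ≠ 0 := by
    rwa [Ne, ZMod.natCast_eq_zero_iff]
  have hxp : ((x.den : ℕ) : ZMod p) ≠ 0 := by
    rwa [Ne, ZMod.natCast_eq_zero_iff]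
  obtain ⟨z, hz⟩ := ZMod.intCast_surjective (((x.num : ℤ) : ZMod p) / (((M : ℕ) : ZMod p) * ((x.den : ℕ) : ZMod p)))
  refine ⟨z, ?_⟩
  have h1 : (((x.num - M * x.den * z : ℤ)) : ZMod p) = 0 := by
    push_cast
    rw [hz]
    field_simp
    simp
  rw [ZMod.intCast_zmod_eq_zero_iff_dvd] at h1
  have h2 : x - M * z = ((x.num - M * x.den * z : ℤ) : ℚ) / ((x.den : ℕ) : ℚ) := by
    have hd : ((x.den : ℕ) : ℚ) ≠ 0 := by exact_mod_cast x.den_nz
    push_cast
    rw [eq_div_iff hd, sub_mul, Rat.mul_den_eq_num]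
    ring
  rw [h2, padicNorm.div, (padicNorm.nat_eq_one_iff x.den).2 hx, div_one]
  exact (padicNorm.int_lt_one_iff _).2 h1


theorem linalgU {J : ℕ} (U : Submodule ℚ (Fin (J+1) → ℚ)) : ∃ (D : ℕ) (idx : Fin D → Fin (J+1)) (m : Fin (J+1) → Fin D → ℚ),
    D = Module.finrank ℚ ((Fin (J+1) → ℚ) ⧸ U) ∧
    ∀ i, (Pi.single i 1 - ∑ l, m i l • Pi.single (idx l) 1 : Fin (J+1) → ℚ) ∈ U := by
  set s : Set ((Fin (J+1) → ℚ) ⧸ U) :=
    Set.range (fun i : Fin (J+1) => U.mkQ (Pi.single i 1)) with hs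
  have hspan : Submodule.span ℚ s = ⊤ := by
    have h1 : s = U.mkQ '' (Set.range (Pi.basisFun ℚ (Fin (J+1)))) := by
      rw [hs, ← Set.range_comp]
      congr 1
      ext i
      simp
    rw [h1, Submodule.span_image, (Pi.basisFun ℚ (Fin (J+1))).span_eq, Submodule.map_top,
      Submodule.range_mkQ]
  obtain ⟨f, hf, hfs, -⟩ := Submodule.exists_fun_fin_finrank_span_eq ℚ s
  choose idx hidx using hf
  have hmem : ∀ i : Fin (J+1), U.mkQ (Pi.single i 1) ∈ Submodule.span ℚ (Set.range f) := by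
    intro i
    rw [hfs]
    exact Submodule.subset_span ⟨i, rfl⟩
  have hc : ∀ i : Fin (J+1), ∃ c : Fin _ → ℚ, ∑ l, c l • f l = U.mkQ (Pi.single i 1) :=
    fun i => (Submodule.mem_span_range_iff_exists_fun ℚ).1 (hmem i)
  choose m hm using hc
  refine ⟨_, idx, m, ?_, ?_⟩
  · rw [hspan, finrank_top]
  · intro i
    rw [← Submodule.Quotient.mk_eq_zero, ← Submodule.mkQ_apply, map_sub, map_sum, ← hm i, sub_eq_zero]
    refine Finset.sum_congr rfl fun l _ => ?_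
    rw [map_smul, ← hidx l]

theorem large' (B : ℕ) {ε : ℝ} (hε : 0 < ε) : ∃ x₀ : ℕ, ∀ x : ℕ, x₀ ≤ x →
    (B : ℝ) ≤ ε * (x / Real.log x) := by
  refine ⟨⌈(2 * (B : ℝ) / ε) ^ 2⌉₊ + 2, ?_⟩
  intro x hx
  have hx2 : 2 ≤ x := by omega
  have hx0 : (0 : ℝ) < x := by exact_mod_cast (by omega : 0 < x)
  have hlog : 0 < Real.log x := Real.log_pos (by exact_mod_cast (by omega : 1 < x))
  have h1 : (2 * B / ε) ^ 2 ≤ (x : ℝ) := by
    have := Nat.le_ceil ((2 * (B : ℝ) / ε) ^ 2)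
    have h2 : ((⌈(2 * (B : ℝ) / ε) ^ 2⌉₊ : ℕ) : ℝ) ≤ x := Nat.cast_le.2 (by omega)
    linarith
  have h2 : 2 * B / ε ≤ √(x : ℝ) := Real.le_sqrt_of_sq_le h1
  have h3 : Real.log x ≤ 2 * √(x : ℝ) := by
    have h4 : Real.log x = 2 * Real.log (√(x : ℝ)) := by
      rw [Real.log_sqrt hx0.le]; ring
    rw [h4]
    have := Real.log_le_sub_one_of_pos (Real.sqrt_pos.2 hx0)
    linarith
  have h5 : √(x : ℝ) / 2 ≤ x / Real.log x := by
    rw [le_div_iff₀ hlog]
    have h6 : √(x : ℝ) * √(x : ℝ) = x := Real.mul_self_sqrt hx0.le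
    have h7 : 0 ≤ √(x : ℝ) := Real.sqrt_nonneg _
    nlinarith
  have h8 : (B : ℝ) ≤ ε * (√(x : ℝ) / 2) := by
    rw [div_le_iff₀ hε] at h2
    linarith
  exact h8.trans (mul_le_mul_of_nonneg_left h5 hε.le)


/-- all integral relations in `U` hold modulo `p`. -/
def Holds {J : ℕ} (U : Submodule ℚ (Fin (J+1) → ℚ)) (p : ℕ) : Prop :=
  ∀ a : Fin (J+1) → ℤ, (fun i => (a i : ℚ)) ∈ U → (p : ℤ) ∣ (LI.relVal J (fun i => (a i : ℚ)) p).num

theorem bad_of_holds {J : ℕ} (U : Submodule ℚ (Fin (J+1) → ℚ)) :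
    ∃ (v : ℕ → ℕ → ℤ) (B : ℕ), ∀ p : ℕ, p.Prime → B < p → Holds U p →
      ∃ lam : ℕ → ℤ, Bad J (Module.finrank ℚ ((Fin (J+1) → ℚ) ⧸ U)) v lam p := by
  obtain ⟨D, idx, m, hD, hrel⟩ := linalgU U
  rw [← hD]
  clear hD
  obtain ⟨Mden, hMden⟩ : ∃ M : ℕ, M = ∏ i, ∏ l, (m i l).den := ⟨_, rfl⟩
  have hMpos : 0 < Mden := by
    rw [hMden]
    exact Finset.prod_pos fun i _ => Finset.prod_pos fun l _ => (m i l).den_pos
  have hdvd : ∀ i l, (m i l).den ∣ Mden := by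
    intro i l
    rw [hMden]
    exact (Finset.dvd_prod_of_mem (fun l => (m i l).den) (Finset.mem_univ l)).trans
      (Finset.dvd_prod_of_mem (fun i => ∏ l, (m i l).den) (Finset.mem_univ i))
  have hk : ∀ i l, ∃ k : ℤ, (k : ℚ) = Mden * m i l := by
    intro i l
    obtain ⟨c, hc⟩ := hdvd i l
    refine ⟨c * (m i l).num, ?_⟩
    rw [hc]
    push_cast
    rw [mul_comm ((m i l).den : ℚ) (c : ℚ), mul_assoc, mul_comm ((m i l).den : ℚ), Rat.mul_den_eq_num]
  choose k hk using hk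
  obtain ⟨v, hv0, hv1⟩ : ∃ v : ℕ → ℕ → ℤ, (∀ g, v 0 g = 0) ∧
      ∀ (l : Fin D) (g : ℕ) (hg : g < J + 1), v (l.val + 1) g = k ⟨g, hg⟩ l := by
    refine ⟨fun l g => if h : 0 < l ∧ l - 1 < D ∧ g < J + 1 then k ⟨g, h.2.2⟩ ⟨l - 1, h.2.1⟩ else 0,
      fun g => ?_, fun l g hg => ?_⟩
    · exact dif_neg (fun h => absurd h.1 (lt_irrefl 0))
    · exact dif_pos (show 0 < l.val + 1 ∧ l.val + 1 - 1 < D ∧ g < J + 1 from
        ⟨by omega, by have := l.2; omega, hg⟩)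
  refine ⟨v, Mden + 2 * J + 5, ?_⟩
  intro p hpp hB hH
  have := Fact.mk hpp
  have hpM : ¬ p ∣ Mden := fun h => by
    have := Nat.le_of_dvd hMpos h
    omega
  -- the relations
  have hE' : ∀ i, padicNorm p (LI.relVal J (Pi.single i 1 - ∑ l, m i l • Pi.single (idx l) 1) p) < 1 := by
    intro i
    have h1 := hH (fun j => Mden * (Pi.single i (1 : ℤ) : Fin (J+1) → ℤ) j - ∑ l, k i l * (Pi.single (idx l) (1 : ℤ) : Fin (J+1) → ℤ) j) (by
      have h2 : (fun j => (((Mden : ℤ) * (Pi.single i (1 : ℤ) : Fin (J+1) → ℤ) j - ∑ l, k i l * (Pi.single (idx l) (1 : ℤ) : Fin (J+1) → ℤ) j : ℤ) : ℚ)) =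
          (Mden : ℚ) • (Pi.single i 1 - ∑ l, m i l • Pi.single (idx l) 1 : Fin (J+1) → ℚ) := by
        funext j
        simp only [Pi.smul_apply, Pi.sub_apply, Finset.sum_apply, smul_eq_mul]
        push_cast
        rw [mul_sub, Finset.mul_sum]
        congr 1
        · by_cases hij : j = i
          · subst hij; simp
          · simp [hij]
        · refine Finset.sum_congr rfl fun l _ => ?_
          rw [hk]
          by_cases hij : j = idx l
          · subst hij; simp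
          · simp [hij]
      rw [h2]
      exact U.smul_mem _ (hrel i))
    have h3 : LI.relVal J (fun j => (((Mden : ℤ) * (Pi.single i (1 : ℤ) : Fin (J+1) → ℤ) j - ∑ l, k i l * (Pi.single (idx l) (1 : ℤ) : Fin (J+1) → ℤ) j : ℤ) : ℚ)) p =
        (Mden : ℚ) * LI.relVal J (Pi.single i 1 - ∑ l, m i l • Pi.single (idx l) 1) p := by
      rw [relVal_eq, relVal_eq, Finset.mul_sum]
      refine Finset.sum_congr rfl fun j _ => ?_
      simp only [Pi.sub_apply, Finset.sum_apply, Pi.smul_apply, smul_eq_mul]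
      rw [← mul_assoc]
      congr 1
      push_cast
      rw [mul_sub, Finset.mul_sum]
      congr 1
      · by_cases hij : j = i
        · subst hij; simp
        · simp [hij]
      · refine Finset.sum_congr rfl fun l _ => ?_
        rw [hk]
        by_cases hij : j = idx l
        · subst hij; simp
        · simp [hij]
    rw [h3, pn_iff hpp, padicNorm.mul, (padicNorm.nat_eq_one_iff Mden).2 hpM, one_mul] at h1
    exact h1
  have hlam : ∀ l : Fin D, ∃ z : ℤ, padicNorm p (beta J p (idx l) - Mden * z) < 1 := fun l =>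
    exists_lam hpp hpM (beta_den hpp (by omega) (idx l))
  choose z hz using hlam
  obtain ⟨lam, hlamz⟩ : ∃ lam : ℕ → ℤ, ∀ l : Fin D, lam l.val = z l :=
    ⟨fun l => if h : l < D then z ⟨l, h⟩ else 0, fun l => dif_pos l.2⟩
  refine ⟨lam, ?_⟩
  intro g hg
  rw [Finset.mem_Icc] at hg
  have hgJ : g < J + 1 := by omega
  have hcomb : LI.comb D v lam g = ∑ l : Fin D, z l * k ⟨g, hgJ⟩ l := by
    unfold LI.comb
    rw [hv0, zero_add, Finset.sum_range]
    refine Finset.sum_congr rfl fun l _ => ?_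
    rw [hlamz l, hv1 l g hgJ]
  rw [hcomb, pn_iff hpp]
  have hβ : _root_.bernoulli (p - 1 - 2 * g) = beta J p ⟨g, hgJ⟩ := by
    unfold beta
    rw [if_neg]
    intro h
    have h0 : g = 0 := congrArg Fin.val h
    omega
  have hrv : LI.relVal J (Pi.single (⟨g, hgJ⟩ : Fin (J+1)) 1 - ∑ l, m ⟨g, hgJ⟩ l • Pi.single (idx l) 1) p =
      beta J p ⟨g, hgJ⟩ - ∑ l, m ⟨g, hgJ⟩ l * beta J p (idx l) := by
    rw [relVal_eq]
    have h1 : ∀ i : Fin (J+1), (Pi.single (⟨g, hgJ⟩ : Fin (J+1)) (1:ℚ) -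
        ∑ l, m ⟨g, hgJ⟩ l • Pi.single (idx l) 1 : Fin (J+1) → ℚ) i * beta J p i =
        (Pi.single (⟨g, hgJ⟩ : Fin (J+1)) (1:ℚ) : Fin (J+1) → ℚ) i * beta J p i -
        ∑ l, m ⟨g, hgJ⟩ l * ((Pi.single (idx l) (1:ℚ) : Fin (J+1) → ℚ) i * beta J p i) := by
      intro i
      simp only [Pi.sub_apply, Finset.sum_apply, Pi.smul_apply, smul_eq_mul]
      rw [sub_mul, Finset.sum_mul]
      congr 1
      refine Finset.sum_congr rfl fun l _ => ?_
      ring
    rw [Finset.sum_congr rfl fun i _ => h1 i, Finset.sum_sub_distrib, Finset.sum_comm]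
    congr 1
    · simp [Pi.single_apply]
    · refine Finset.sum_congr rfl fun l _ => ?_
      rw [← Finset.mul_sum]
      simp [Pi.single_apply]
  have heq : beta J p ⟨g, hgJ⟩ - ((∑ l : Fin D, z l * k ⟨g, hgJ⟩ l : ℤ) : ℚ) =
      LI.relVal J (Pi.single (⟨g, hgJ⟩ : Fin (J+1)) 1 - ∑ l, m ⟨g, hgJ⟩ l • Pi.single (idx l) 1) p +
      ∑ l, m ⟨g, hgJ⟩ l * (beta J p (idx l) - Mden * z l) := by
    rw [hrv]
    push_cast
    have h2 : ∀ l : Fin D, (z l : ℚ) * (k ⟨g, hgJ⟩ l : ℚ) =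
        m ⟨g, hgJ⟩ l * beta J p (idx l) - m ⟨g, hgJ⟩ l * (beta J p (idx l) - Mden * z l) := by
      intro l
      rw [hk]
      ring
    rw [Finset.sum_congr rfl fun l _ => h2 l, Finset.sum_sub_distrib]
    ring
  rw [hβ, heq]
  refine lt_of_le_of_lt padicNorm.nonarchimedean (max_lt (hE' _) ?_)
  refine padicNorm.sum_lt' (fun l _ => ?_) one_pos
  rw [padicNorm.mul]
  have h3 : padicNorm p (m ⟨g, hgJ⟩ l) ≤ 1 := pn_le hpp fun h => hpM (h.trans (hdvd _ _))
  calc padicNorm p (m ⟨g, hgJ⟩ l) * padicNorm p (beta J p (idx l) - Mden * z l)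
      ≤ 1 * padicNorm p (beta J p (idx l) - Mden * z l) :=
        mul_le_mul_of_nonneg_right h3 (padicNorm.nonneg _)
    _ < 1 := by rw [one_mul]; exact hz l

open Classical in
/-- Theorem L*, dual form. -/
theorem sub_count : ∃ C : ℝ, 0 < C ∧ ∀ J : ℕ, 2 ≤ J → ∀ U : Submodule ℚ (Fin (J+1) → ℚ),
    ∃ x₀ : ℕ, ∀ x : ℕ, x₀ ≤ x →
    (((Finset.Icc 1 x).filter (fun p : ℕ => p.Prime ∧ Holds U p)).card : ℝ) ≤
      C * ((Module.finrank ℚ ((Fin (J+1) → ℚ) ⧸ U) : ℝ) ^ 2 * (Real.log J / J) * (x / Real.log x)) := by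
  obtain ⟨C, hC, hcount⟩ := count_j
  refine ⟨4 * C + 1, by positivity, ?_⟩
  intro J hJ U
  have hJ' : (2 : ℝ) ≤ J := by exact_mod_cast hJ
  have hlJ : 0 < Real.log J := Real.log_pos (by linarith)
  have hδ : 0 < Real.log J / J := by positivity
  rcases Nat.eq_zero_or_pos (Module.finrank ℚ ((Fin (J+1) → ℚ) ⧸ U)) with hD | hD
  · -- `U` is everything
    refine ⟨0, fun x _ => ?_⟩
    have hU : U = ⊤ := by
      have h1 : Subsingleton ((Fin (J+1) → ℚ) ⧸ U) := Module.finrank_zero_iff.1 hD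
      exact (Submodule.Quotient.subsingleton_iff).1 h1
    have h0 : (Finset.Icc 1 x).filter (fun p : ℕ => p.Prime ∧ Holds U p) = ∅ := by
      refine Finset.filter_eq_empty_iff.2 ?_
      rintro p _ ⟨hpp, hH⟩
      have h1 := hH (Pi.single 0 1) (by rw [hU]; exact Submodule.mem_top)
      have h2 : LI.relVal J (fun i => (((Pi.single 0 1 : Fin (J+1) → ℤ) i : ℤ) : ℚ)) p = 1 := by
        unfold LI.relVal
        simp [Fin.succ_ne_zero]
      rw [h2] at h1
      simp only [Rat.num_one] at h1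
      have h3 : p ∣ 1 := by exact_mod_cast h1
      exact hpp.one_lt.ne' (Nat.dvd_one.1 h3)
    rw [h0, hD]
    simp
  · obtain ⟨v, B, hbad⟩ := bad_of_holds U
    obtain ⟨x₁, hx₁⟩ := hcount J (Module.finrank ℚ ((Fin (J+1) → ℚ) ⧸ U)) v hJ
    obtain ⟨x₂, hx₂⟩ := large' B hδ
    refine ⟨x₁ + x₂ + 2, fun x hx => ?_⟩
    set D := Module.finrank ℚ ((Fin (J+1) → ℚ) ⧸ U) with hDdef
    have hx2 : 2 ≤ x := by omega
    have hxx : 0 ≤ (x : ℝ) / Real.log x := by
      have : 0 ≤ Real.log x := Real.log_natCast_nonneg x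
      positivity
    have hD1 : (1 : ℝ) ≤ D := by exact_mod_cast hD
    have hsub : (Finset.Icc 1 x).filter (fun p : ℕ => p.Prime ∧ Holds U p) ⊆
        (Finset.Icc 1 x).filter (fun p : ℕ => p.Prime ∧ ∃ lam : ℕ → ℤ, Bad J D v lam p) ∪ Finset.Icc 1 B := by
      intro p hp
      rw [Finset.mem_filter] at hp
      obtain ⟨hpx, hpp, hH⟩ := hp
      rw [Finset.mem_union]
      by_cases hB : p ≤ B
      · exact Or.inr (Finset.mem_Icc.2 ⟨hpp.one_lt.le, hB⟩)
      · refine Or.inl (Finset.mem_filter.2 ⟨hpx, hpp, ?_⟩)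
        exact hbad p hpp (by omega) hH
    have h1 := (Finset.card_le_card hsub).trans (Finset.card_union_le _ _)
    rw [Nat.card_Icc, Nat.add_sub_cancel] at h1
    have h2 : (((Finset.Icc 1 x).filter (fun p : ℕ => p.Prime ∧ Holds U p)).card : ℝ) ≤
        (((Finset.Icc 1 x).filter (fun p : ℕ => p.Prime ∧ ∃ lam : ℕ → ℤ, Bad J D v lam p)).card : ℝ) + (B : ℝ) := by
      exact_mod_cast h1
    have h3 := hx₁ x (by omega)
    have h4 := hx₂ x (by omega)
    refine h2.trans ((add_le_add h3 h4).trans ?_)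
    set E := Real.log J / J * (x / Real.log x) with hE
    have hE0 : 0 ≤ E := by positivity
    have h5 : C * (((D : ℝ) + 1) ^ 2 * (Real.log J / J) * (x / Real.log x)) = C * (((D : ℝ) + 1) ^ 2) * E := by
      rw [hE]; ring
    have h6 : (4 * C + 1) * ((D : ℝ) ^ 2 * (Real.log J / J) * (x / Real.log x)) = (4 * C + 1) * (D : ℝ) ^ 2 * E := by
      rw [hE]; ring
    rw [h5, h6]
    have h7 : ((D : ℝ) + 1) ^ 2 ≤ 4 * (D : ℝ) ^ 2 := by nlinarith
    have h8 : C * (((D : ℝ) + 1) ^ 2) + 1 ≤ (4 * C + 1) * (D : ℝ) ^ 2 := by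
      have h9 : C * (((D : ℝ) + 1) ^ 2) ≤ C * (4 * (D : ℝ) ^ 2) := mul_le_mul_of_nonneg_left h7 hC.le
      have h10 : (1 : ℝ) ≤ (D : ℝ) ^ 2 := by nlinarith
      nlinarith
    nlinarith [mul_le_mul_of_nonneg_right h8 hE0]

end MP_a3a416_nt.LJ
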