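import Pool.Agent.Lib.MP_a3a416_nt.LJ.ProdBad

/-!
# LJ-Theta
Logarithmic form.  PROOF.  Choose for each bad `p` a witness `lam p`.  Logarithms in `prod_bad`: `3 Θ ≤ 4 log (r+1)! + 6(r+1)(log(1+A) + log EJ)`, `log (r+1)! ≤ (r+1) log(r+1)`,
`log EJ = log DJ + log S + log(4S+10) + log 4 + 2 log N + N log 2 + (5S+10) log 4`, `log_DJ_le` (`K = 5S+11`): `log DJ ≤ 4 (log 4 + 4) N (1 + log(5S+11)) ≤ C N (1 + log S)`.  `A` = a bound for `|v l g|`, `l ≤ r`, `1 ≤ g ≤ J`;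
for `N ≥ N₀(v,r,S,J)` all of `log(1+A), log(r+1), log S, 2 log N, (5S+10) log 4` are `≤ N`, and `10 S³ ≤ N`, `2J+4 ≤ N`.
-/

namespace MP_a3a416_nt.LJ

open Polynomial MP_a3a416_nt.BB

private theorem th_log_le {k N : ℕ} (h : k ≤ N) : Real.log k ≤ N := by
  have h1 : Real.log k ≤ k := by
    rcases Nat.eq_zero_or_pos k with rfl | hk
    · simp
    · have h2 : (0 : ℝ) < k := by exact_mod_cast hk
      have h3 := Real.log_le_sub_one_of_pos h2
      linarith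
  have h2 : (k : ℝ) ≤ N := by exact_mod_cast h
  linarith

private theorem th_EJ {S N : ℕ} (hS : 12 ≤ S) (hN : 2 * (5 * S + 10) ≤ N) :
    Real.log (EJ S N) ≤ (8 * (Real.log 4 + 4) + 7) * (N * (1 + Real.log S)) := by
  have hS0 : (0 : ℝ) < S := by
    have : 0 < S := by omega
    exact_mod_cast this
  have hN0 : (0 : ℝ) < N := by
    have : 0 < N := by omega
    exact_mod_cast this
  have hD0 : (0 : ℝ) < DJ N (5 * S + 11) := by exact_mod_cast DJ_pos N (5 * S + 11)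
  have hlogS : 0 ≤ Real.log S := Real.log_nonneg (by
    have : 1 ≤ S := by omega
    exact_mod_cast this)
  have hlog4 : 0 ≤ Real.log 4 := Real.log_nonneg (by norm_num)
  have e1 : Real.log (EJ S N) = Real.log (DJ N (5 * S + 11)) + (Real.log S + Real.log (4 * S + 10) +
      (Real.log 4 + 2 * Real.log N) + N * Real.log 2 + (5 * S + 10) * Real.log 4) := by
    unfold EJ
    push_cast
    have h410 : (4 * (S : ℝ) + 10) ≠ 0 := by positivity
    have hn1 : (S : ℝ) * (4 * S + 10) ≠ 0 := mul_ne_zero hS0.ne' h410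
    have hn2 : (4 * (N : ℝ) ^ 2) ≠ 0 := by positivity
    have hn3 : (2 : ℝ) ^ N ≠ 0 := by positivity
    have hn4 : (4 : ℝ) ^ (5 * S + 10) ≠ 0 := by positivity
    rw [Real.log_mul hD0.ne' (mul_ne_zero (mul_ne_zero (mul_ne_zero hn1 hn2) hn3) hn4),
      Real.log_mul (mul_ne_zero (mul_ne_zero hn1 hn2) hn3) hn4,
      Real.log_mul (mul_ne_zero hn1 hn2) hn3, Real.log_mul hn1 hn2, Real.log_mul hS0.ne' h410,
      Real.log_mul (by norm_num) (pow_ne_zero _ hN0.ne'), Real.log_pow, Real.log_pow, Real.log_pow]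
    push_cast
    ring
  have e2 := log_DJ_le N (5 * S + 11) (by omega)
  have e3 : Real.log ((5 * S + 11 : ℕ) : ℝ) ≤ 2 * Real.log S := by
    have h1 : ((5 * S + 11 : ℕ) : ℝ) ≤ (S : ℝ) ^ 2 := by
      have : 5 * S + 11 ≤ S ^ 2 := by nlinarith
      exact_mod_cast this
    have h2 := Real.log_le_log (by positivity) h1
    rw [Real.log_pow] at h2
    exact_mod_cast h2
  have e4 : Real.log (DJ N (5 * S + 11)) ≤ 8 * (Real.log 4 + 4) * (N * (1 + Real.log S)) := by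
    refine e2.trans ?_
    have h1 : (1 + Real.log ((5 * S + 11 : ℕ) : ℝ)) ≤ 2 * (1 + Real.log S) := by linarith
    calc 4 * (Real.log 4 + 4) * N * (1 + Real.log ((5 * S + 11 : ℕ) : ℝ))
        ≤ 4 * (Real.log 4 + 4) * N * (2 * (1 + Real.log S)) :=
          mul_le_mul_of_nonneg_left h1 (by positivity)
      _ = _ := by ring
  have f1 : Real.log S ≤ N := th_log_le (by omega)
  have f2 : Real.log (4 * S + 10) ≤ N := by
    have := th_log_le (k := 4 * S + 10) (N := N) (by omega)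
    push_cast at this
    exact this
  have f3 : Real.log 4 ≤ 2 := by
    have h1 : Real.log 4 = 2 * Real.log 2 := by
      rw [show (4 : ℝ) = 2 ^ 2 by norm_num, Real.log_pow]
      norm_num
    have h2 := Real.log_two_lt_d9
    rw [h1]
    linarith
  have f4 : Real.log N ≤ N := th_log_le le_rfl
  have f5 : N * Real.log 2 ≤ N := by
    have h2 := Real.log_two_lt_d9
    nlinarith
  have f6 : (5 * (S : ℝ) + 10) * Real.log 4 ≤ N := by
    have h1 : (2 : ℝ) * (5 * S + 10) ≤ N := by exact_mod_cast hN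
    have h2 : (5 * (S : ℝ) + 10) * Real.log 4 ≤ (5 * (S : ℝ) + 10) * 2 :=
      mul_le_mul_of_nonneg_left f3 (by positivity)
    linarith
  have f7 : (2 : ℝ) ≤ N := by
    have : 2 ≤ N := by omega
    exact_mod_cast this
  have f8 : (N : ℝ) ≤ N * (1 + Real.log S) := by
    have := mul_nonneg hN0.le hlogS
    linarith
  rw [e1]
  have : (8 * (Real.log 4 + 4) + 7) * (N * (1 + Real.log S)) =
      8 * (Real.log 4 + 4) * (N * (1 + Real.log S)) + 7 * (N * (1 + Real.log S)) := by ring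
  rw [this]
  linarith

private theorem th_EJ_pos {S N : ℕ} (hS : 0 < S) (hN : 0 < N) : 0 < EJ S N := by
  unfold EJ
  refine Nat.mul_pos (DJ_pos _ _) (Nat.mul_pos (Nat.mul_pos (Nat.mul_pos (Nat.mul_pos hS ?_) ?_) ?_) ?_)
  · omega
  · exact Nat.mul_pos (by norm_num) (pow_pos hN 2)
  · exact pow_pos (by norm_num) _
  · exact pow_pos (by norm_num) _

open Classical in
theorem theta_j : ∃ C : ℝ, 0 < C ∧ ∀ (S J r : ℕ) (v : ℕ → ℕ → ℤ), 12 * (r + 1) ≤ S → 5 * S + 7 ≤ 2 * J →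
    ∃ N₀ : ℕ, ∀ N : ℕ, N₀ ≤ N → ∀ x : ℕ, 3 * (r + 1) * x ≤ S * N →
    ∑ p ∈ (Finset.Icc (N + 1) x).filter (fun p : ℕ => p.Prime ∧ ∃ lam : ℕ → ℤ, Bad J r v lam p), Real.log p ≤
      C * ((r + 1) * (N * (1 + Real.log S))) := by
  have hlog4 : 0 ≤ Real.log 4 := Real.log_nonneg (by norm_num)
  refine ⟨4 + 6 * (1 + (8 * (Real.log 4 + 4) + 7)), by positivity, ?_⟩
  intro S J r v hS hJ
  obtain ⟨A, hA⟩ : ∃ A : ℕ, A = ∑ l ∈ Finset.range (r + 1), ∑ g ∈ Finset.Icc 1 J, (v l g).natAbs :=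
    ⟨_, rfl⟩
  have hv : ∀ l ≤ r, ∀ g ∈ Finset.Icc 1 J, |v l g| ≤ (A : ℤ) := by
    intro l hl g hg
    have h1 : (v l g).natAbs ≤ A := by
      rw [hA]
      have h2 : (v l g).natAbs ≤ ∑ g ∈ Finset.Icc 1 J, (v l g).natAbs :=
        Finset.single_le_sum (f := fun g => (v l g).natAbs) (fun _ _ => Nat.zero_le _) hg
      have h3 : ∑ g ∈ Finset.Icc 1 J, (v l g).natAbs ≤
          ∑ l ∈ Finset.range (r + 1), ∑ g ∈ Finset.Icc 1 J, (v l g).natAbs :=
        Finset.single_le_sum (f := fun l => ∑ g ∈ Finset.Icc 1 J, (v l g).natAbs)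
          (fun _ _ => Nat.zero_le _) (Finset.mem_range.2 (by omega))
      exact h2.trans h3
    rw [Int.abs_eq_natAbs]
    exact_mod_cast h1
  refine ⟨10 * S ^ 3 + (2 * J + 4) + (A + 1) + 2 * (5 * S + 10), ?_⟩
  intro N hN x hx
  have hS12 : 12 ≤ S := by omega
  obtain ⟨Ps, hPs⟩ : ∃ Ps : Finset ℕ, Ps = (Finset.Icc (N + 1) x).filter
    (fun p : ℕ => p.Prime ∧ ∃ lam : ℕ → ℤ, Bad J r v lam p) := ⟨_, rfl⟩
  rw [← hPs]
  have hP : ∀ p ∈ Ps, p.Prime ∧ N < p ∧ p ≤ x ∧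
      Bad J r v ((fun p => if h : ∃ lam : ℕ → ℤ, Bad J r v lam p then h.choose else 0) p) p := by
    intro p hp
    rw [hPs, Finset.mem_filter, Finset.mem_Icc] at hp
    refine ⟨hp.2.1, by omega, hp.1.2, ?_⟩
    simp only [dif_pos hp.2.2]
    exact hp.2.2.choose_spec
  have hr0 : (0 : ℝ) ≤ (r : ℝ) + 1 := by positivity
  have hA0 : (0 : ℝ) < 1 + (A : ℝ) := by positivity
  have hmain := prod_bad (N := N) (x := x) hS hJ
    (le_trans (by omega) hN) (le_trans (by omega) hN) hx v hv Ps _ hP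
  have hsum : ∑ p ∈ Ps, Real.log p = Real.log ((∏ p ∈ Ps, p : ℕ) : ℝ) := by
    push_cast
    rw [Real.log_prod]
    intro p hp
    have := (hP p hp).1.pos
    positivity
  have hprod0 : (0 : ℝ) < ((∏ p ∈ Ps, p : ℕ) : ℝ) := by
    have : 0 < ∏ p ∈ Ps, p := Finset.prod_pos fun p hp => (hP p hp).1.pos
    exact_mod_cast this
  have hE0 : 0 < EJ S N := th_EJ_pos (by omega) (by omega)
  have hE0' : (0 : ℝ) < (EJ S N : ℝ) := by exact_mod_cast hE0
  have hmainR : (((∏ p ∈ Ps, p : ℕ) : ℝ)) ^ 3 ≤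
      (((r + 1).factorial : ℕ) : ℝ) ^ 4 * ((1 + (A : ℝ)) * (EJ S N : ℝ)) ^ (6 * (r + 1)) := by
    exact_mod_cast hmain
  have hlog := Real.log_le_log (pow_pos hprod0 3) hmainR
  have hfac0 : (0 : ℝ) < (((r + 1).factorial : ℕ) : ℝ) := by exact_mod_cast Nat.factorial_pos _
  rw [Real.log_mul (pow_ne_zero _ hfac0.ne') (pow_ne_zero _ (mul_ne_zero hA0.ne' hE0'.ne')),
    Real.log_pow, Real.log_pow, Real.log_pow, Real.log_mul hA0.ne' hE0'.ne'] at hlog
  rw [← hsum] at hlog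
  have hlogS : 0 ≤ Real.log S := Real.log_nonneg (by
    have : 1 ≤ S := by omega
    exact_mod_cast this)
  have hN0 : (0 : ℝ) ≤ N := Nat.cast_nonneg _
  have g1 : Real.log (((r + 1).factorial : ℕ) : ℝ) ≤ (r + 1) * N := by
    have h1 : (((r + 1).factorial : ℕ) : ℝ) ≤ (((r + 1 : ℕ) : ℝ)) ^ (r + 1) := by
      exact_mod_cast Nat.factorial_le_pow (r + 1)
    have h2 := Real.log_le_log hfac0 h1
    rw [Real.log_pow] at h2
    have h3 : Real.log ((r + 1 : ℕ) : ℝ) ≤ N := th_log_le (by omega)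
    refine h2.trans ?_
    push_cast at h3 ⊢
    exact mul_le_mul_of_nonneg_left h3 hr0
  have g2 : Real.log (1 + (A : ℝ)) ≤ N := by
    have := th_log_le (k := 1 + A) (N := N) (by omega)
    push_cast at this
    exact this
  have g3 := th_EJ (N := N) hS12 (by omega)
  have g4 : (N : ℝ) ≤ N * (1 + Real.log S) := by
    have := mul_nonneg hN0 hlogS
    linarith
  have hΘ0 : 0 ≤ ∑ p ∈ Ps, Real.log (p : ℝ) := Finset.sum_nonneg fun p hp =>
    Real.log_nonneg (by exact_mod_cast (hP p hp).1.one_lt.le)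
  obtain ⟨W, hW⟩ : ∃ W : ℝ, W = N * (1 + Real.log S) := ⟨_, rfl⟩
  rw [← hW] at g3 g4 ⊢
  have k1 : Real.log (((r + 1).factorial : ℕ) : ℝ) ≤ (r + 1) * W :=
    g1.trans (mul_le_mul_of_nonneg_left g4 hr0)
  have k2 : Real.log (1 + (A : ℝ)) + Real.log (EJ S N) ≤
      (1 + (8 * (Real.log 4 + 4) + 7)) * W := by
    have : (1 + (8 * (Real.log 4 + 4) + 7)) * W = W + (8 * (Real.log 4 + 4) + 7) * W := by ring
    rw [this]
    linarith
  have k3 : ((6 * (r + 1) : ℕ) : ℝ) * (Real.log (1 + (A : ℝ)) + Real.log (EJ S N)) ≤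
      ((6 * (r + 1) : ℕ) : ℝ) * ((1 + (8 * (Real.log 4 + 4) + 7)) * W) :=
    mul_le_mul_of_nonneg_left k2 (Nat.cast_nonneg _)
  push_cast at hlog k3
  have k4 : (4 + 6 * (1 + (8 * (Real.log 4 + 4) + 7))) * (((r : ℝ) + 1) * W) =
      4 * ((r + 1) * W) + 6 * (r + 1) * ((1 + (8 * (Real.log 4 + 4) + 7)) * W) := by ring
  rw [k4]
  linarith

end MP_a3a416_nt.LJ
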