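import Pool.Agent.Lib.MP_a3a416_nt.BB.ZShift
import Pool.Agent.Lib.MP_a3a416_nt.BB.ZReg
import Pool.Agent.Lib.MP_a3a416_nt.BB.ZTau
import Pool.Agent.Lib.MP_a3a416_nt.BB.ZFirst
import Pool.Agent.Lib.MP_a3a416_nt.BB.ZCramer
import Pool.Agent.Lib.MP_a3a416_nt.BB.ZCount
import Pool.Agent.Lib.MP_a3a416_nt.BB.ZMain

/-!
# LJ-ZeroG
The zero estimate of helper94 (BB/Z*.lean) for general data: `L ≠ 0`, `A d`, `B d` polynomials,
`L(n+u) (v (d+1) (n+1) - v (d+1) n) = n A_d(n+u) + B_d(n+u)`, under the hypothesis `PoleHyp` that no non-trivial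
combination of the `A_d / L` is a difference `g(x+1) - g(x)` in `ℚ(x)`.
-/

namespace MP_a3a416_nt.LJ

open Polynomial BBZ

/-- the difference operator on polynomial vectors -/
noncomputable def gtau (R : ℕ) (L : ℚ[X]) (A B : ℕ → ℚ[X]) (P : Ix R → ℚ[X]) : Ix R → ℚ[X] :=
  Sum.elim
    (fun i => if i = 0 then
        L * taylor 1 (P (Sum.inl 0)) + L * taylor 1 (P (Sum.inl 1))
          + ∑ d : Fin R, taylor 1 (P (Sum.inr d)) * B d
      else L * taylor 1 (P (Sum.inl 1)) + ∑ d : Fin R, taylor 1 (P (Sum.inr d)) * A d)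
    (fun d => L * taylor 1 (P (Sum.inr d)))

/-- the difference equation of the jets -/
def gHv (R : ℕ) (L : ℚ[X]) (A B : ℕ → ℚ[X]) (v : ℕ → ℕ → PowerSeries ℚ) : Prop :=
  ∀ d < R, ∀ n : ℕ,
    ((taylor (n : ℚ) L : ℚ[X]) : PowerSeries ℚ) * (v (d + 1) (n + 1) - v (d + 1) n)
      = ((C (n : ℚ) * taylor (n : ℚ) (A d) + taylor (n : ℚ) (B d) : ℚ[X]) : PowerSeries ℚ)

/-- `p / L` in `ℚ(x)` -/
noncomputable def qK (L p : ℚ[X]) : RatFunc ℚ :=
  algebraMap ℚ[X] (RatFunc ℚ) p / algebraMap ℚ[X] (RatFunc ℚ) L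

/-- the semilinear operator `Φ = L⁻¹ τ` on `ℚ(x)`-vectors -/
noncomputable def gPhi (R : ℕ) (L : ℚ[X]) (A B : ℕ → ℚ[X]) (w : Ix R → RatFunc ℚ) : Ix R → RatFunc ℚ :=
  Sum.elim
    (fun i => if i = 0 then
        sh (w (Sum.inl 0)) + sh (w (Sum.inl 1)) + ∑ d : Fin R, sh (w (Sum.inr d)) * qK L (B d)
      else sh (w (Sum.inl 1)) + ∑ d : Fin R, sh (w (Sum.inr d)) * qK L (A d))
    (fun d => sh (w (Sum.inr d)))

/-- no non-trivial combination of the `A_d / L` is a difference -/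
def PoleHyp (R : ℕ) (L : ℚ[X]) (A : ℕ → ℚ[X]) : Prop :=
  ∀ (c : ℕ → ℚ) (g : RatFunc ℚ),
    sh g - g = ∑ d ∈ Finset.range R, algebraMap ℚ[X] (RatFunc ℚ) (C (c d)) * qK L (A d) →
    ∀ d < R, c d = 0

variable (R : ℕ) (L : ℚ[X]) (A B : ℕ → ℚ[X])

private theorem gTau_taylor (n : ℕ) (p : ℚ[X]) :
    taylor (n : ℚ) (taylor 1 p) = taylor ((n + 1 : ℕ) : ℚ) p := by
  rw [taylor_taylor]
  push_cast
  rfl

theorem gFF_tau (v : ℕ → ℕ → PowerSeries ℚ) (hv : gHv R L A B v) (n : ℕ) (P : Ix R → ℚ[X]) :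
    FF R v n (gtau R L A B P) = ((taylor (n : ℚ) L : ℚ[X]) : PowerSeries ℚ) * FF R v (n + 1) P := by
  have h1 : ∀ d : Fin R, ((taylor (n : ℚ) L : ℚ[X]) : PowerSeries ℚ) * v (d + 1) (n + 1) =
      ((taylor (n : ℚ) L : ℚ[X]) : PowerSeries ℚ) * v (d + 1) n +
        ((C (n : ℚ) : ℚ[X]) : PowerSeries ℚ) * ((taylor (n : ℚ) (A d) : ℚ[X]) : PowerSeries ℚ) +
        ((taylor (n : ℚ) (B d) : ℚ[X]) : PowerSeries ℚ) := by
    intro d
    have h := hv d d.isLt n
    rw [Polynomial.coe_add, Polynomial.coe_mul] at h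
    rw [mul_sub] at h
    linear_combination h
  have hC : ((C ((n + 1 : ℕ) : ℚ) : ℚ[X]) : PowerSeries ℚ) =
      ((C (n : ℚ) : ℚ[X]) : PowerSeries ℚ) + 1 := by
    rw [← Polynomial.coe_one, ← Polynomial.coe_add]
    congr 1
    push_cast
    rw [C_add, C_1]
  have hsum : ∀ f : Fin R → ℚ[X], ((∑ d, f d : ℚ[X]) : PowerSeries ℚ) =
      ∑ d, ((f d : ℚ[X]) : PowerSeries ℚ) := by
    intro f
    exact map_sum (Polynomial.coeToPowerSeries.ringHom (R := ℚ)) f Finset.univ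
  unfold FF
  simp only [gtau, Sum.elim_inl, Sum.elim_inr, if_true, one_ne_zero, if_false, map_add, map_sum,
    taylor_mul, gTau_taylor, Polynomial.coe_add, Polynomial.coe_mul, hsum, hC, mul_add,
    Finset.mul_sum]
  have h2 : ∀ d : Fin R, ((taylor (n : ℚ) L : ℚ[X]) : PowerSeries ℚ) *
      (((taylor ((n + 1 : ℕ) : ℚ) (P (Sum.inr d)) : ℚ[X]) : PowerSeries ℚ) * v (d + 1) (n + 1)) =
      ((taylor (n : ℚ) L : ℚ[X]) : PowerSeries ℚ) *
        ((taylor ((n + 1 : ℕ) : ℚ) (P (Sum.inr d)) : ℚ[X]) : PowerSeries ℚ) * v (d + 1) n +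
      ((C (n : ℚ) : ℚ[X]) : PowerSeries ℚ) *
        (((taylor ((n + 1 : ℕ) : ℚ) (P (Sum.inr d)) : ℚ[X]) : PowerSeries ℚ) *
          ((taylor (n : ℚ) (A d) : ℚ[X]) : PowerSeries ℚ)) +
      ((taylor ((n + 1 : ℕ) : ℚ) (P (Sum.inr d)) : ℚ[X]) : PowerSeries ℚ) *
          ((taylor (n : ℚ) (B d) : ℚ[X]) : PowerSeries ℚ) := by
    intro d
    linear_combination
      ((taylor ((n + 1 : ℕ) : ℚ) (P (Sum.inr d)) : ℚ[X]) : PowerSeries ℚ) * h1 d
  rw [Finset.sum_congr rfl fun d _ => h2 d, Finset.sum_add_distrib, Finset.sum_add_distrib]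
  ring

/-- the iterates vanish too, at one point less each time -/
theorem gFF_iterate (v : ℕ → ℕ → PowerSeries ℚ) (hv : gHv R L A B v) (P : Ix R → ℚ[X]) (N T : ℕ)
    (h : ∀ n < N, PowerSeries.X ^ T ∣ FF R v n P) (j n : ℕ) (hn : n + j < N) :
    PowerSeries.X ^ T ∣ FF R v n ((gtau R L A B)^[j] P) := by
  induction j generalizing n with
  | zero => exact h n (by omega)
  | succ j ih =>
    rw [Function.iterate_succ_apply', gFF_tau R L A B v hv]
    exact Dvd.dvd.mul_left (ih (n + 1) (by omega)) _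

private theorem gTau_deg (D ℓ : ℕ) (hL : L.natDegree ≤ ℓ)
    (hA : ∀ d < R, (A d).natDegree ≤ ℓ) (hG : ∀ d < R, (B d).natDegree ≤ ℓ)
    (P : Ix R → ℚ[X]) (hP : ∀ i, (P i).natDegree ≤ D) (i : Ix R) :
    (gtau R L A B P i).natDegree ≤ D + ℓ := by
  have hT : ∀ i, (taylor 1 (P i)).natDegree ≤ D := fun i => by
    rw [natDegree_taylor]
    exact hP i
  have h1 : ∀ i, (L * taylor 1 (P i)).natDegree ≤ D + ℓ := fun i => by
    refine le_trans natDegree_mul_le ?_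
    have := hT i
    omega
  have h2 : ∀ d : Fin R, (taylor 1 (P (Sum.inr d)) * B d).natDegree ≤ D + ℓ := fun d => by
    refine le_trans natDegree_mul_le ?_
    have := hT (Sum.inr d)
    have := hG d d.isLt
    omega
  have h3 : ∀ d : Fin R, (taylor 1 (P (Sum.inr d)) * A d).natDegree ≤ D + ℓ := fun d => by
    refine le_trans natDegree_mul_le ?_
    have := hT (Sum.inr d)
    have := hA d d.isLt
    omega
  rcases i with i | d
  · simp only [gtau, Sum.elim_inl]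
    split_ifs
    · refine le_trans (natDegree_add_le _ _) (max_le (le_trans (natDegree_add_le _ _)
        (max_le (h1 _) (h1 _))) ?_)
      exact natDegree_sum_le_of_forall_le _ _ fun d _ => h2 d
    · refine le_trans (natDegree_add_le _ _) (max_le (h1 _) ?_)
      exact natDegree_sum_le_of_forall_le _ _ fun d _ => h3 d
  · simp only [gtau, Sum.elim_inr]
    exact h1 _

theorem gtau_natDegree (D ℓ : ℕ) (hL : L.natDegree ≤ ℓ)
    (hA : ∀ d < R, (A d).natDegree ≤ ℓ) (hG : ∀ d < R, (B d).natDegree ≤ ℓ)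
    (P : Ix R → ℚ[X]) (hP : ∀ i, (P i).natDegree ≤ D) (j : ℕ) (i : Ix R) :
    ((gtau R L A B)^[j] P i).natDegree ≤ D + j * ℓ := by
  induction j generalizing i with
  | zero =>
    rw [zero_mul, add_zero]
    exact hP i
  | succ j ih =>
    rw [Function.iterate_succ_apply', add_mul, one_mul, ← add_assoc]
    exact gTau_deg R L A B (D + j * ℓ) ℓ hL hA hG _ ih i

theorem gtoK_tau (hL : L ≠ 0) (P : Ix R → ℚ[X]) :
    toK (gtau R L A B P) = algebraMap ℚ[X] (RatFunc ℚ) L • gPhi R L A B (toK P) := by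
  have hL' : algebraMap ℚ[X] (RatFunc ℚ) L ≠ 0 := by
    rw [Ne, FaithfulSMul.algebraMap_eq_zero_iff]
    exact hL
  have hg : ∀ (d : Fin R) (z : RatFunc ℚ), algebraMap ℚ[X] (RatFunc ℚ) L * (z * qK L (B d)) =
      z * algebraMap ℚ[X] (RatFunc ℚ) (B d) := by
    intro d z
    unfold qK
    field_simp
  have ha : ∀ (d : Fin R) (z : RatFunc ℚ), algebraMap ℚ[X] (RatFunc ℚ) L * (z * qK L (A d)) =
      z * algebraMap ℚ[X] (RatFunc ℚ) (A d) := by
    intro d z
    unfold qK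
    field_simp
  funext i
  rw [Pi.smul_apply, smul_eq_mul]
  rcases i with i | d
  · by_cases hi : i = 0
    · simp only [toK, gtau, gPhi, Sum.elim_inl, if_pos hi, map_add, map_mul, map_sum, sh_algebraMap,
        mul_add, Finset.mul_sum, hg]
    · simp only [toK, gtau, gPhi, Sum.elim_inl, if_neg hi, map_add, map_mul, map_sum, sh_algebraMap,
        mul_add, Finset.mul_sum, ha]
  · simp only [toK, gtau, gPhi, Sum.elim_inr, map_mul, sh_algebraMap]

theorem gPhi_add (w w' : Ix R → RatFunc ℚ) : gPhi R L A B (w + w') = gPhi R L A B w + gPhi R L A B w' := by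
  funext i
  rcases i with i | d
  · by_cases hi : i = 0
    · simp only [gPhi, Pi.add_apply, Sum.elim_inl, if_pos hi, map_add, add_mul,
        Finset.sum_add_distrib]
      ring
    · simp only [gPhi, Pi.add_apply, Sum.elim_inl, if_neg hi, map_add, add_mul,
        Finset.sum_add_distrib]
      ring
  · simp only [gPhi, Pi.add_apply, Sum.elim_inr, map_add]

theorem gPhi_smul (c : RatFunc ℚ) (w : Ix R → RatFunc ℚ) :
    gPhi R L A B (c • w) = sh c • gPhi R L A B w := by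
  funext i
  rcases i with i | d
  · by_cases hi : i = 0
    · simp only [gPhi, Pi.smul_apply, smul_eq_mul, Sum.elim_inl, if_pos hi, map_mul, mul_add,
        Finset.mul_sum, mul_assoc]
    · simp only [gPhi, Pi.smul_apply, smul_eq_mul, Sum.elim_inl, if_neg hi, map_mul, mul_add,
        Finset.mul_sum, mul_assoc]
  · simp only [gPhi, Pi.smul_apply, smul_eq_mul, Sum.elim_inr, map_mul]

theorem gPhi_zero : gPhi R L A B 0 = 0 := by
  have h := gPhi_smul R L A B 0 0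
  rw [zero_smul, map_zero, zero_smul] at h
  exact h




/-- the vector `(p, q, 0)` -/
private noncomputable def zst_vec (R : ℕ) (p q : ℚ[X]) : Ix R → ℚ[X] :=
  Sum.elim (fun i => if i = 0 then p else q) (fun _ => 0)

private theorem zst_toK (R : ℕ) (p q : ℚ[X]) (w : Ix R → RatFunc ℚ)
    (h0 : w (Sum.inl 0) = algebraMap ℚ[X] (RatFunc ℚ) p)
    (h1 : w (Sum.inl 1) = algebraMap ℚ[X] (RatFunc ℚ) q) (hr : ∀ d, w (Sum.inr d) = 0) :
    toK (zst_vec R p q) = w := by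
  funext i
  unfold toK zst_vec
  rcases i with i | d
  · have hi : i = 0 ∨ i = 1 := by omega
    rcases hi with rfl | rfl
    · simp [h0]
    · simp [h1]
  · simp [hr]

private theorem zst_phi_inr (w : Ix R → RatFunc ℚ) (d : Fin R) :
    gPhi R L A B w (Sum.inr d) = sh (w (Sum.inr d)) := rfl

private theorem zst_phi_1 (w : Ix R → RatFunc ℚ) :
    gPhi R L A B w (Sum.inl 1) = sh (w (Sum.inl 1)) + ∑ d : Fin R, sh (w (Sum.inr d)) * qK L (A d) := by
  simp [gPhi]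

private theorem zst_phi_0 (w : Ix R → RatFunc ℚ) :
    gPhi R L A B w (Sum.inl 0) = sh (w (Sum.inl 0)) + sh (w (Sum.inl 1))
      + ∑ d : Fin R, sh (w (Sum.inr d)) * qK L (B d) := by
  simp [gPhi]

private theorem zst_e0 (R : ℕ) (W : Submodule (RatFunc ℚ) (Ix R → RatFunc ℚ))
    (w : Ix R → RatFunc ℚ) (hw : w ∈ W) (h0 : w (Sum.inl 0) ≠ 0) (h1 : w (Sum.inl 1) = 0)
    (hr : ∀ d, w (Sum.inr d) = 0) :
    ∃ w : Ix R → ℚ[X], toK w ∈ W ∧ (∀ d, w (Sum.inr d) = 0) ∧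
      ((w (Sum.inl 0) = 1 ∧ w (Sum.inl 1) = 0) ∨
        ∃ c : ℚ, w (Sum.inl 0) = C c - X ∧ w (Sum.inl 1) = 1) := by
  refine ⟨zst_vec R 1 0, ?_, fun d => rfl, Or.inl ⟨?_, ?_⟩⟩
  · rw [zst_toK R 1 0 ((w (Sum.inl 0))⁻¹ • w)]
    · exact W.smul_mem _ hw
    · rw [Pi.smul_apply, smul_eq_mul, inv_mul_cancel₀ h0, map_one]
    · rw [Pi.smul_apply, smul_eq_mul, h1, mul_zero, map_zero]
    · intro d
      rw [Pi.smul_apply, smul_eq_mul, hr, mul_zero]
  · simp [zst_vec]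
  · simp [zst_vec]

/-- case 2 is impossible -/
private theorem zst_case2 (hpole : PoleHyp R L A) (W : Submodule (RatFunc ℚ) (Ix R → RatFunc ℚ)) (hW : W ≠ ⊥)
    (hst : ∀ w ∈ W, gPhi R L A B w ∈ W) (h2 : ∀ w ∈ W, w ≠ 0 → ∃ d : Fin R, w (Sum.inr d) ≠ 0) : False := by
  classical
  have hne : ∃ k : ℕ, ∃ w ∈ W, w ≠ 0 ∧
      (Finset.univ.filter (fun d : Fin R => w (Sum.inr d) ≠ 0)).card = k := by
    obtain ⟨w, hw, hw0⟩ := (Submodule.ne_bot_iff W).1 hW
    exact ⟨_, w, hw, hw0, rfl⟩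
  obtain ⟨w, hw, hw0, hk⟩ := Nat.find_spec hne
  have hmin : ∀ u ∈ W, u ≠ 0 → (Finset.univ.filter (fun d : Fin R => w (Sum.inr d) ≠ 0)).card ≤
      (Finset.univ.filter (fun d : Fin R => u (Sum.inr d) ≠ 0)).card := by
    intro u hu hu0
    rw [hk]
    exact Nat.find_min' hne ⟨u, hu, hu0, rfl⟩
  obtain ⟨d0, hd0⟩ := h2 w hw hw0
  obtain ⟨v, hv⟩ : ∃ v, v = (w (Sum.inr d0))⁻¹ • w := ⟨_, rfl⟩
  have hvW : v ∈ W := by rw [hv]; exact W.smul_mem _ hw
  have hv1 : v (Sum.inr d0) = 1 := by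
    rw [hv, Pi.smul_apply, smul_eq_mul, inv_mul_cancel₀ hd0]
  have hvz : ∀ d, w (Sum.inr d) = 0 → v (Sum.inr d) = 0 := by
    intro d hd
    rw [hv, Pi.smul_apply, smul_eq_mul, hd, mul_zero]
  have huW : gPhi R L A B v - v ∈ W := W.sub_mem (hst v hvW) hvW
  have hu0 : gPhi R L A B v - v = 0 := by
    by_contra hne0
    have h3 := hmin _ huW hne0
    have h4 : (Finset.univ.filter (fun d : Fin R => (gPhi R L A B v - v) (Sum.inr d) ≠ 0)).card <
        (Finset.univ.filter (fun d : Fin R => w (Sum.inr d) ≠ 0)).card := by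
      refine Finset.card_lt_card (Finset.ssubset_iff_subset_ne.2 ⟨fun d hd => ?_, fun he => ?_⟩)
      · rw [Finset.mem_filter] at hd ⊢
        refine ⟨Finset.mem_univ _, fun h5 => hd.2 ?_⟩
        rw [Pi.sub_apply, zst_phi_inr, hvz d h5, map_zero, sub_zero]
      · have h5 : d0 ∈ Finset.univ.filter (fun d : Fin R => w (Sum.inr d) ≠ 0) :=
          Finset.mem_filter.2 ⟨Finset.mem_univ _, hd0⟩
        rw [← he, Finset.mem_filter] at h5
        apply h5.2
        rw [Pi.sub_apply, zst_phi_inr, hv1, map_one, sub_self]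
    omega
  have hconst : ∀ d : Fin R, ∃ c : ℚ, v (Sum.inr d) = algebraMap ℚ[X] (RatFunc ℚ) (C c) := by
    intro d
    apply sh_const
    have h3 := congrFun hu0 (Sum.inr d)
    rw [Pi.sub_apply, zst_phi_inr, Pi.zero_apply] at h3
    exact sub_eq_zero.1 h3
  choose c hc using hconst
  obtain ⟨c', hc'⟩ : ∃ c' : ℕ → ℚ, ∀ d : Fin R, c' d = c d :=
    ⟨fun d => if h : d < R then c ⟨d, h⟩ else 0, fun d => by simp⟩
  have hg : sh (-v (Sum.inl 1)) - (-v (Sum.inl 1)) =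
      ∑ d ∈ Finset.range R, algebraMap ℚ[X] (RatFunc ℚ) (C (c' d)) * qK L (A d) := by
    have h3 := congrFun hu0 (Sum.inl 1)
    rw [Pi.sub_apply, zst_phi_1, Pi.zero_apply] at h3
    have h4 : ∑ d : Fin R, sh (v (Sum.inr d)) * qK L (A d) =
        ∑ d ∈ Finset.range R, algebraMap ℚ[X] (RatFunc ℚ) (C (c' d)) * qK L (A d) := by
      rw [Finset.sum_range]
      refine Finset.sum_congr rfl fun d _ => ?_
      rw [hc d, sh_algebraMap, taylor_C, hc']
    rw [h4] at h3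
    rw [map_neg]
    linear_combination -h3
  have ht := hpole c' (-v (Sum.inl 1)) hg d0.val d0.isLt
  rw [hc' d0] at ht
  have h5 := hc d0
  rw [hv1, ht, map_zero, map_zero] at h5
  exact one_ne_zero h5

theorem gstable (hpole : PoleHyp R L A) (W : Submodule (RatFunc ℚ) (Ix R → RatFunc ℚ)) (hW : W ≠ ⊥)
    (hst : ∀ w ∈ W, gPhi R L A B w ∈ W) :
    ∃ w : Ix R → ℚ[X], toK w ∈ W ∧ (∀ d, w (Sum.inr d) = 0) ∧
      ((w (Sum.inl 0) = 1 ∧ w (Sum.inl 1) = 0) ∨
        ∃ c : ℚ, w (Sum.inl 0) = C c - X ∧ w (Sum.inl 1) = 1) := by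
  by_cases h2 : ∀ w ∈ W, w ≠ 0 → ∃ d : Fin R, w (Sum.inr d) ≠ 0
  · exact (zst_case2 R L A B hpole W hW hst h2).elim
  push Not at h2
  obtain ⟨w, hw, hw0, hr⟩ := h2
  by_cases h1 : w (Sum.inl 1) = 0
  · refine zst_e0 R W w hw ?_ h1 hr
    intro h0
    apply hw0
    funext i
    rcases i with i | d
    · have hi : i = 0 ∨ i = 1 := by omega
      rcases hi with rfl | rfl
      · exact h0
      · exact h1
    · exact hr d
  · obtain ⟨v, hv⟩ : ∃ v, v = (w (Sum.inl 1))⁻¹ • w := ⟨_, rfl⟩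
    have hvW : v ∈ W := by rw [hv]; exact W.smul_mem _ hw
    have hv1 : v (Sum.inl 1) = 1 := by
      rw [hv, Pi.smul_apply, smul_eq_mul, inv_mul_cancel₀ h1]
    have hvr : ∀ d, v (Sum.inr d) = 0 := by
      intro d
      rw [hv, Pi.smul_apply, smul_eq_mul, hr, mul_zero]
    have huW : gPhi R L A B v - v ∈ W := W.sub_mem (hst v hvW) hvW
    have hu1 : (gPhi R L A B v - v) (Sum.inl 1) = 0 := by
      rw [Pi.sub_apply, zst_phi_1, hv1, map_one]
      simp [hvr]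
    have hur : ∀ d, (gPhi R L A B v - v) (Sum.inr d) = 0 := by
      intro d
      rw [Pi.sub_apply, zst_phi_inr, hvr, map_zero, sub_zero]
    have hu0 : (gPhi R L A B v - v) (Sum.inl 0) = sh (v (Sum.inl 0)) + 1 - v (Sum.inl 0) := by
      rw [Pi.sub_apply, zst_phi_0, hv1, map_one]
      simp [hvr]
    by_cases h0 : (gPhi R L A B v - v) (Sum.inl 0) = 0
    · rw [hu0] at h0
      obtain ⟨c, hc⟩ := sh_add_one (v (Sum.inl 0)) (sub_eq_zero.1 h0)
      refine ⟨zst_vec R (C c - X) 1, ?_, fun d => rfl, Or.inr ⟨c, ?_, ?_⟩⟩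
      · rw [zst_toK R (C c - X) 1 v hc (by rw [hv1, map_one]) hvr]
        exact hvW
      · simp [zst_vec]
      · simp [zst_vec]
    · exact zst_e0 R W _ huW h0 hu1 hur

/-- `Φ` of a combination -/
theorem gPhi_sum (k : ℕ) (c : Fin k → RatFunc ℚ) (r : Fin k → Ix R → RatFunc ℚ) :
    gPhi R L A B (∑ j, c j • r j) = ∑ j, sh (c j) • gPhi R L A B (r j) := by
  classical
  have : ∀ s : Finset (Fin k), gPhi R L A B (∑ j ∈ s, c j • r j) = ∑ j ∈ s, sh (c j) • gPhi R L A B (r j) := by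
    intro s
    induction s using Finset.induction_on with
    | empty => simp [gPhi_zero]
    | insert a s ha ih => rw [Finset.sum_insert ha, Finset.sum_insert ha, gPhi_add, gPhi_smul, ih]
  exact this _


/-- THE ZERO ESTIMATE, general form. -/
theorem gzero (N T D ℓ : ℕ) (hL : L ≠ 0) (hLd : L.natDegree ≤ ℓ)
    (hA : ∀ d < R, (A d).natDegree ≤ ℓ) (hB : ∀ d < R, (B d).natDegree ≤ ℓ)
    (hpole : PoleHyp R L A) (v : ℕ → ℕ → PowerSeries ℚ) (hHv : gHv R L A B v)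
    (P : ℕ → ℚ[X]) (hdeg : ∀ d ∈ Finset.Icc 1 R, (P d).natDegree < D)
    (hne : ∃ d ∈ Finset.Icc 1 R, P d ≠ 0)
    (hvan : ∀ n < N, PowerSeries.X ^ T ∣
      ∑ d ∈ Finset.Icc 1 R, ((taylor (n : ℚ) (P d) : ℚ[X]) : PowerSeries ℚ) * v d n) :
    (N - R - 1) * (T - 1) ≤ (R + 2) * D + (R + 2) ^ 2 * ℓ := by
  set ρ : ℕ → Ix R → ℚ[X] := fun j => (gtau R L A B)^[j] (rho0 R P) with hρ
  have hρs : ∀ j, ρ (j + 1) = gtau R L A B (ρ j) := fun j => by
    simp only [hρ]; rw [Function.iterate_succ_apply']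
  set r : ℕ → Ix R → RatFunc ℚ := fun j => toK (ρ j) with hr
  have hLK : algebraMap ℚ[X] (RatFunc ℚ) L ≠ 0 := by
    simpa using (map_ne_zero_iff _ (IsFractionRing.injective ℚ[X] (RatFunc ℚ))).2 hL
  have hrs : ∀ j, r (j + 1) = algebraMap ℚ[X] (RatFunc ℚ) L • gPhi R L A B (r j) := fun j => by
    simp only [hr]; rw [hρs j, gtoK_tau R L A B hL]
  -- the starting vector is non-zero
  have h0 : r 0 ≠ 0 := by
    intro h
    obtain ⟨d, hd, hPd⟩ := hne
    rw [Finset.mem_Icc] at hd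
    have h1 := congrFun h (Sum.inr ⟨d - 1, by omega⟩)
    simp only [hr, hρ, toK, rho0, Function.iterate_zero, id, Sum.elim_inr, Pi.zero_apply] at h1
    rw [show d - 1 + 1 = d by omega] at h1
    exact hPd ((map_eq_zero_iff _ (IsFractionRing.injective ℚ[X] (RatFunc ℚ))).1 h1)
  obtain ⟨k, hk1, hkR, hli, hdep⟩ := firstDep (K := RatFunc ℚ) r h0
  have hcard : Module.finrank (RatFunc ℚ) (Ix R → RatFunc ℚ) = R + 2 := by
    rw [Module.finrank_fintype_fun_eq_card]; simp [Ix, add_comm]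
  rw [hcard] at hkR
  set W : Submodule (RatFunc ℚ) (Ix R → RatFunc ℚ) :=
    Submodule.span (RatFunc ℚ) (Set.range fun j : Fin k => r j) with hW
  have hWmem : ∀ j, j ≤ k → r j ∈ W := by
    intro j hj
    rcases Nat.lt_or_ge j k with h | h
    · exact Submodule.subset_span ⟨⟨j, h⟩, rfl⟩
    · have : j = k := le_antisymm hj h
      rw [this]; exact hdep
  have hWne : W ≠ ⊥ := by
    intro h
    apply h0
    have := hWmem 0 (Nat.zero_le _)
    rw [h] at this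
    simpa using this
  have hst : ∀ w ∈ W, gPhi R L A B w ∈ W := by
    intro w hw
    obtain ⟨c, rfl⟩ := (Submodule.mem_span_range_iff_exists_fun (RatFunc ℚ)).1 hw
    rw [gPhi_sum]
    refine Submodule.sum_mem _ fun j _ => Submodule.smul_mem _ _ ?_
    have h2 : gPhi R L A B (r j) = (algebraMap ℚ[X] (RatFunc ℚ) L)⁻¹ • r (j + 1) := by
      rw [hrs, smul_smul, inv_mul_cancel₀ hLK, one_smul]
    rw [h2]
    exact Submodule.smul_mem _ _ (hWmem _ j.2)
  obtain ⟨w, hwW, hwr, hw'⟩ := gstable R L A B hpole W hWne hst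
  -- degrees
  have hdeg' : ∀ j : Fin k, ∀ i, (ρ j i).natDegree ≤ D + j * ℓ := by
    intro j i
    refine gtau_natDegree R L A B D ℓ hLd hA hB (rho0 R P) ?_ j i
    intro i
    rcases i with i | d
    · simp [rho0]
    · simp only [rho0, Sum.elim_inr]
      exact (hdeg (d + 1) (by rw [Finset.mem_Icc]; omega)).le
  obtain ⟨δ, G, hδ, hδdeg, hG⟩ := cramer k (fun j : Fin k => ρ j) hli
    (fun j => D + j * ℓ) hdeg' w hwW
  -- vanishing
  have hvan' : ∀ n < N, PowerSeries.X ^ T ∣ FF R v n (rho0 R P) := by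
    intro n hn; rw [FF_rho0]; exact hvan n hn
  have hzero : ∀ n < N - R - 1,
      PowerSeries.X ^ (T - 1) ∣ ((taylor (n : ℚ) δ : ℚ[X]) : PowerSeries ℚ) := by
    intro n hn
    refine FF_special R v n T δ w hwr hw' ?_
    rw [← FF_smul]
    have h3 : (fun i => δ * w i) = (fun i => ∑ j ∈ Finset.univ, (fun j i => G j * ρ j i) j i) := by
      funext i; exact hG i
    rw [h3, FF_sum]
    refine Finset.dvd_sum fun j _ => ?_
    have h4 : FF R v n ((fun (j : Fin k) i => G j * ρ j i) j)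
        = ((taylor (n : ℚ) (G j) : ℚ[X]) : PowerSeries ℚ) * FF R v n (ρ j) := FF_smul R v n (G j) (ρ j)
    rw [h4]
    refine Dvd.dvd.mul_left ?_ _
    exact gFF_iterate R L A B v hHv (rho0 R P) N T hvan' j n (by have := j.2; omega)
  have hcount := count δ hδ (N - R - 1) (T - 1) hzero
  refine hcount.trans (hδdeg.trans ?_)
  calc ∑ j : Fin k, (D + (j : ℕ) * ℓ)
      ≤ ∑ _j : Fin k, (D + (R + 2) * ℓ) := by
        refine Finset.sum_le_sum fun j _ => ?_
        have : (j : ℕ) ≤ R + 2 := by have := j.2; omega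
        gcongr
    _ = k * (D + (R + 2) * ℓ) := by simp
    _ ≤ (R + 2) * (D + (R + 2) * ℓ) := by gcongr
    _ = (R + 2) * D + (R + 2) ^ 2 * ℓ := by ring

end MP_a3a416_nt.LJ
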